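import Pool.Agent.MP_28624d_gt.L4.Stmt

section

/-!
Interface between the two halves of the proof: the automorphism phi, the reference triple M0 and
the set W of triples whose whole phi-orbit stays close to the reference triple up to conjugation.
-/

namespace Pool.Agent.MP_28624d_gt.L4

open Matrix FreeGroup

/-- phi: a, b, c go to a b a⁻¹, c, c⁻¹ a c (the braid s1 s2⁻¹). -/
def phiF : F →* F :=
  FreeGroup.lift ![of 0 * of 1 * (of 0)⁻¹, of 2, (of 2)⁻¹ * of 0 * of 2]

/-- The inverse of phi: a, b, c go to b c b⁻¹, b c⁻¹ b⁻¹ a b c b⁻¹, b. -/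
def phiI : F →* F :=
  FreeGroup.lift ![of 1 * of 2 * (of 1)⁻¹,
    of 1 * (of 2)⁻¹ * (of 1)⁻¹ * of 0 * of 1 * of 2 * (of 1)⁻¹, of 1]

/-- phi as an automorphism. -/
def phi : MulAut F :=
  MonoidHom.toMulEquiv phiF phiI
    (by
      ext i
      fin_cases i <;> simp [phiF, phiI, mul_assoc])
    (by
      ext i
      fin_cases i <;> simp [phiF, phiI, mul_assoc])

/-- A complex 2 x 2 matrix as a real 4 x 4 matrix, coordinates (re z1, im z1, re z2, im z2). -/
def rl (M : Matrix (Fin 2) (Fin 2) ℂ) : Matrix (Fin 4) (Fin 4) ℝ :=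
  !![(M 0 0).re, -(M 0 0).im, (M 0 1).re, -(M 0 1).im;
     (M 0 0).im, (M 0 0).re, (M 0 1).im, (M 0 1).re;
     (M 1 0).re, -(M 1 0).im, (M 1 1).re, -(M 1 1).im;
     (M 1 0).im, (M 1 0).re, (M 1 1).im, (M 1 1).re]

/-- A 2 x 2 matrix of Gaussian integers: real and imaginary parts of the entries 00, 01, 10, 11. -/
structure ZM where
  (ar ai br bi cr ci dr di : ℤ)

/-- The complex matrix. -/
def ZM.toC (m : ZM) : Matrix (Fin 2) (Fin 2) ℂ :=
  !![⟨m.ar, m.ai⟩, ⟨m.br, m.bi⟩; ⟨m.cr, m.ci⟩, ⟨m.dr, m.di⟩]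

/-- The common denominator of the reference triple. -/
def DD : ℤ := 10 ^ 30

/-- Numerators of the reference triple (cone family, s = 1.49). -/
def Mz : Fin 3 → ZM :=
  ![⟨1060676469371672528361492070503, -527707100036787672655784105792,
      -1018623029391408724292323063403, -449116513475661558622939333993,
      -589340170613018938404786677101, 455994590465295655180637930600,
      1439303530548326831632107857816, 527707100036787672655784105792⟩,
    ⟨915634732322718584586087290191, -478312210055231298080346901803,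
      39393525314155183451054665120, 654390603616011122336617031497,
      -424734490187601602159657439607, -1063884338092729813254089326689,
      1584345267597280775407512638128, 478312210055231298080346901803⟩,
    ⟨2142584051969383171141480983529, -127086606339138554463355963117,
      468846977308972519191563165911, 457566187621528549393625491636,
      3623127762049282174751061923, 480360731665720632447756064962,
      357395947950616188852118944790, 127086606339138554463355963117⟩]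

/-- The reference triple in SL(2,C), up to an error of size 10^-30. -/
noncomputable def M0 (i : Fin 3) : Matrix (Fin 2) (Fin 2) ℂ := ((DD : ℂ)⁻¹) • (Mz i).toC

/-- The tolerance. -/
noncomputable def eta : ℝ := 1 / 10 ^ 15

/-- Up to conjugation and unit complex scalars, σ is entrywise η-close to the reference triple. -/
def Near (η : ℝ) (σ : F →* G) : Prop :=
  ∃ g : G, ∀ i : Fin 3, ∃ u : ℂ, ‖u‖ = 1 ∧ ∀ a b : Fin 4,
    |(g * σ (of i) * g⁻¹ : G).1 a b - rl (u • M0 i) a b| ≤ η

/-- Triples whose whole phi-orbit is near the reference triple. -/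
def W : Set (Fin 3 → G) :=
  {x | ∀ k : ℤ, Near eta ((FreeGroup.lift x).comp (phi ^ k).toMonoidHom)}

end Pool.Agent.MP_28624d_gt.L4

end

section

/-!
Auxiliary definitions: letters, cyclic words, Whitehead moves, quadratic cones.
-/

namespace Pool.Agent.MP_28624d_gt.L4

open Matrix FreeGroup

/-- Letters. -/
abbrev L : Type := Fin 3 × Bool

/-- The inverse letter. -/
def iv (x : L) : L := (x.1, !x.2)

/-- The turn a, b is reduced. -/
def Rd (a b : L) : Prop := b ≠ iv a

/-- l is a nonempty cyclic word all of whose turns (the one from last to first letter included)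
satisfy R. -/
def Cyc (R : L → L → Prop) (l : List L) : Prop := l ≠ [] ∧ List.IsChain R (l ++ l)

/-- w fixes on the right an almost invariant set that is infinite with infinite complement. -/
def Sep (w : F) : Prop :=
  ∃ Y : Set F, (∀ t : F, {g | ¬ (g ∈ Y ↔ g * t ∈ Y)}.Finite) ∧ Y.Infinite ∧ Yᶜ.Infinite ∧
    ∀ g : F, g ∈ Y ↔ g * w ∈ Y

/-- Both ends of the Whitehead edge of the turn a, b are on the same side of C. -/
def Same (C : L → Bool) (a b : L) : Prop := C (iv a) = C b

/-- The Whitehead edge of the turn a, b contains v or has both ends on the same side of C. -/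
def Cut (v : L) (C : L → Bool) (a b : L) : Prop := iv a = v ∨ b = v ∨ Same C a b

/-- The turns that can occur after the Whitehead move (v, C). -/
def Mv (R : L → L → Prop) (v : L) (C : L → Bool) (a b : L) : Prop :=
  (C (iv a) = C b ∧ R a b) ∨ (C (iv a) = true ∧ C b = false ∧ R a v ∧ R v b) ∨
    (C (iv a) = false ∧ C b = true ∧ R a (iv v) ∧ R (iv v) b)

/-- The word substituted for the letter x by the Whitehead move (v, C). -/
def whW (v : L) (C : L → Bool) (x : L) : List L :=
  (if C x then [v] else []) ++ x :: (if C (iv x) then [iv v] else [])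

/-- The Whitehead endomorphism. -/
def whH (v : L) (C : L → Bool) : F →* F := FreeGroup.lift fun i => FreeGroup.mk (whW v C (i, true))

/-- The real quadratic form of the Hermitian matrix with rows (p, x + i y), (x - i y, q). -/
def QF (p q x y : ℝ) (v : Fin 4 → ℝ) : ℝ :=
  p * (v 0 ^ 2 + v 1 ^ 2) + q * (v 2 ^ 2 + v 3 ^ 2) + 2 * x * (v 0 * v 2 + v 1 * v 3) -
    2 * y * (v 0 * v 3 - v 1 * v 2)

/-- A conjugate of g maps a cone of signature (2,2) strictly into itself. -/
def Good (g : Matrix (Fin 4) (Fin 4) ℝ) : Prop :=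
  ∃ (p q x y : ℝ) (a a' : Matrix (Fin 4) (Fin 4) ℝ), a * a' = 1 ∧ p * q < x ^ 2 + y ^ 2 ∧
    ∀ v : Fin 4 → ℝ, v ≠ 0 → QF p q x y v ≤ 0 → QF p q x y ((a * g * a') *ᵥ v) < 0

/-- g has eigenvalues l1 > |mu| = |conj mu| > l4 > 0 with mu not real. -/
def EigData (g : Matrix (Fin 4) (Fin 4) ℝ) : Prop :=
  ∃ (l1 l4 t s : ℝ) (e1 e4 u : Fin 4 → ℝ), e1 ≠ 0 ∧ e4 ≠ 0 ∧ u ≠ 0 ∧
    g *ᵥ e1 = l1 • e1 ∧ g *ᵥ e4 = l4 • e4 ∧ g *ᵥ (g *ᵥ u) = t • (g *ᵥ u) - s • u ∧
    t ^ 2 < 4 * s ∧ 0 < l4 ∧ 0 < l1 ∧ l4 ^ 2 < s ∧ s < l1 ^ 2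

end Pool.Agent.MP_28624d_gt.L4

end

section

/-!
The certificate checker: definitions.
-/

namespace Pool.Agent.MP_28624d_gt.L4

/-! Letters, masks, words. -/

def la : L := (⟨0, by decide⟩, true)
def lA : L := (⟨0, by decide⟩, false)
def lb : L := (⟨1, by decide⟩, true)
def lB : L := (⟨1, by decide⟩, false)
def lc : L := (⟨2, by decide⟩, true)
def lC : L := (⟨2, by decide⟩, false)

def lets : List L := [la, lA, lb, lB, lc, lC]

def cd (x : L) : ℕ := bif x.2 then Nat.mul 2 x.1.val else Nat.succ (Nat.mul 2 x.1.val)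

def bit (m k : ℕ) : Bool := Nat.beq (Nat.land (Nat.shiftRight m k) 1) 1

/-- Equality test for letters. -/
def eqL (a b : L) : Bool := Nat.beq (cd a) (cd b)

/-- A set of turns as a bit mask. -/
def tb (m : ℕ) (a b : L) : Bool := bit m (Nat.add (Nat.mul 6 (cd a)) (cd b))

/-- A set of letters as a bit mask. -/
def cb (m : ℕ) (x : L) : Bool := bit m (cd x)

def all1 (f : L → Bool) : Bool := f la && f lA && f lb && f lB && f lc && f lC

def all2 (f : L → L → Bool) : Bool := all1 fun a => all1 fun b => f a b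

def eqB (a b : Bool) : Bool := bif a then b else !b

/-- Three words. -/
structure Bs where
  (w0 w1 w2 : List L)

def Bs.get (f : Bs) (i : Fin 3) : List L :=
  match i.val with
  | 0 => f.w0
  | 1 => f.w1
  | _ => f.w2

def Bs.lw (f : Bs) (x : L) : List L := bif x.2 then f.get x.1 else FreeGroup.invRev (f.get x.1)

def Bs.sub (f : Bs) (w : List L) : List L := w.flatMap f.lw

/-- The endomorphism given by three words. -/
def Bs.hom (f : Bs) : F →* F := FreeGroup.lift fun i => FreeGroup.mk (f.get i)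

def eqW (w w' : List L) : Bool := decide (FreeGroup.reduce w = FreeGroup.reduce w')

def phW : Bs := ⟨[la, lb, lA], [lc], [lC, la, lc]⟩
def phJ : Bs := ⟨[lb, lc, lB], [lb, lC, lB, la, lb, lc, lB], [lb]⟩

def itW (f : Bs) : ℕ → List L → List L
  | 0, w => w
  | n + 1, w => FreeGroup.reduce (f.sub (itW f n w))

/-- The word of phi ^ k applied to w. -/
def phP : ℤ → List L → List L
  | Int.ofNat n, w => itW phW n w
  | Int.negSucc n, w => itW phJ (n + 1) w

/-! Gaussian integer matrices. -/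

def ZM.mul (m n : ZM) : ZM :=
  ⟨m.ar * n.ar - m.ai * n.ai + (m.br * n.cr - m.bi * n.ci),
   m.ar * n.ai + m.ai * n.ar + (m.br * n.ci + m.bi * n.cr),
   m.ar * n.br - m.ai * n.bi + (m.br * n.dr - m.bi * n.di),
   m.ar * n.bi + m.ai * n.br + (m.br * n.di + m.bi * n.dr),
   m.cr * n.ar - m.ci * n.ai + (m.dr * n.cr - m.di * n.ci),
   m.cr * n.ai + m.ci * n.ar + (m.dr * n.ci + m.di * n.cr),
   m.cr * n.br - m.ci * n.bi + (m.dr * n.dr - m.di * n.di),
   m.cr * n.bi + m.ci * n.br + (m.dr * n.di + m.di * n.dr)⟩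

def ZM.one : ZM := ⟨1, 0, 0, 0, 0, 0, 1, 0⟩

def ZM.adj (m : ZM) : ZM := ⟨m.dr, m.di, -m.br, -m.bi, -m.cr, -m.ci, m.ar, m.ai⟩

def ZM.conj (m : ZM) : ZM := ⟨m.ar, -m.ai, m.br, -m.bi, m.cr, -m.ci, m.dr, -m.di⟩

def ZM.sub (m n : ZM) : ZM :=
  ⟨m.ar - n.ar, m.ai - n.ai, m.br - n.br, m.bi - n.bi, m.cr - n.cr, m.ci - n.ci, m.dr - n.dr,
   m.di - n.di⟩

/-- Multiplication by the Gaussian integer r + i s. -/
def ZM.smul (r s : ℤ) (m : ZM) : ZM :=
  ⟨r * m.ar - s * m.ai, r * m.ai + s * m.ar, r * m.br - s * m.bi, r * m.bi + s * m.br,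
   r * m.cr - s * m.ci, r * m.ci + s * m.cr, r * m.dr - s * m.di, r * m.di + s * m.dr⟩

def ZM.detr (m : ZM) : ℤ := m.ar * m.dr - m.ai * m.di - (m.br * m.cr - m.bi * m.ci)
def ZM.deti (m : ZM) : ℤ := m.ar * m.di + m.ai * m.dr - (m.br * m.ci + m.bi * m.cr)

def ab (x : ℤ) : ℤ := (x.natAbs : ℤ)

/-- An upper bound for the operator norm. -/
def ZM.n1 (m : ZM) : ℤ :=
  ab m.ar + ab m.ai + ab m.br + ab m.bi + ab m.cr + ab m.ci + ab m.dr + ab m.di

/-- The reference matrix of a letter, scaled by DD. -/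
def Ml (x : L) : ZM := bif x.2 then Mz x.1 else (Mz x.1).adj

/-- A bound for the operator norms of the six reference matrices. -/
def NN : ℤ := 275 * 10 ^ 28

/-- The product of the reference matrices along a word. -/
def wP : List L → ZM
  | [] => ZM.one
  | y :: t => (Ml y).mul (wP t)

/-- The error bound along a word when each letter has error e. -/
def wE (e : ℤ) : List L → ℤ
  | [] => 0
  | _ :: t => (NN + e) * wE e t + e * (wP t).n1

/-- The error of the letters for triples in W, scaled by DD. -/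
def eps0 : ℤ := 64 * 10 ^ 15

/-- The error of the letters after applying one of the sixteen symmetries, scaled by DD. -/
def eps : ℤ := 10 ^ 19

/-! Quadratic cones. -/

/-- The action of a matrix on Hermitian forms, and an error factor. -/
structure LD where
  (a0 a1 a2 a3 b0 b1 b2 b3 c0 c1 c2 c3 d0 d1 d2 d3 f : ℤ)

def mkLD (m : ZM) (e : ℤ) : LD :=
  ⟨m.ar * m.ar + m.ai * m.ai, m.cr * m.cr + m.ci * m.ci,
   2 * (m.ar * m.cr + m.ai * m.ci), -(2 * (m.ar * m.ci - m.ai * m.cr)),
   m.br * m.br + m.bi * m.bi, m.dr * m.dr + m.di * m.di,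
   2 * (m.br * m.dr + m.bi * m.di), -(2 * (m.br * m.di - m.bi * m.dr)),
   m.ar * m.br + m.ai * m.bi, m.cr * m.dr + m.ci * m.di,
   m.ar * m.dr + m.ai * m.di + (m.cr * m.br + m.ci * m.bi),
   m.cr * m.bi - m.ci * m.br - (m.ar * m.di - m.ai * m.dr),
   m.ar * m.bi - m.ai * m.br, m.cr * m.di - m.ci * m.dr,
   m.ar * m.di - m.ai * m.dr + (m.cr * m.bi - m.ci * m.br),
   m.ar * m.dr + m.ai * m.di - (m.cr * m.br + m.ci * m.bi),
   2 * m.n1 * e + e * e⟩

structure KK where
  (p q x y r t : ℤ)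

def mkK2 (p q x y : ℤ) : KK := ⟨p, q, x, y, x * x + y * y - p * q, p + q⟩

def mkK1 (A : LD) (p q x y d : ℤ) : KK :=
  mkK2 (A.a0 * p + A.a1 * q + A.a2 * x + A.a3 * y + d)
    (A.b0 * p + A.b1 * q + A.b2 * x + A.b3 * y + d)
    (A.c0 * p + A.c1 * q + A.c2 * x + A.c3 * y)
    (A.d0 * p + A.d1 * q + A.d2 * x + A.d3 * y)

/-- The pulled back form, enlarged by the error. -/
def mkK (A : LD) (p q x y : ℤ) : KK := mkK1 A p q x y ((ab p + ab q + ab x + ab y) * A.f + 1)

def tst1 (K : KK) (s r B : ℤ) : Bool :=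
  decide (0 < r) && decide (0 ≤ B) && decide (4 * r * K.r ≤ B * B) && decide (2 * r * K.t ≤ B * s)

/-- B (p, q, x, y) - 2 r K is positive semidefinite. -/
def tst (K : KK) (p q x y : ℤ) : Bool :=
  tst1 K (p + q) (x * x + y * y - p * q) (2 * (x * K.x + y * K.y) - p * K.q - q * K.p)

/-- A finite tree of words with a quadratic form at each leaf. -/
inductive Tr where
  | nil : Tr
  | leaf : ℤ → ℤ → ℤ → ℤ → Tr
  | node : Tr → Tr → Tr → Tr → Tr → Tr → Tr

def sel {α : Type} (x : L) (t0 t1 t2 t3 t4 t5 : α) : α :=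
  match x.1.val, x.2 with
  | 0, true => t0
  | 0, false => t1
  | 1, true => t2
  | 1, false => t3
  | _, true => t4
  | _, false => t5

def Tr.ch : Tr → L → Tr
  | .node t0 t1 t2 t3 t4 t5, x => sel x t0 t1 t2 t3 t4 t5
  | .nil, _ => .nil
  | .leaf p q x y, _ => .leaf p q x y

def allB (m : ℕ) (K : KK) : Tr → L → Bool
  | .nil, _ => false
  | .leaf p q x y, _ => tst K p q x y
  | .node t0 t1 t2 t3 t4 t5, z =>
    (!tb m z la || allB m K t0 la) && (!tb m z lA || allB m K t1 lA) &&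
    (!tb m z lb || allB m K t2 lb) && (!tb m z lB || allB m K t3 lB) &&
    (!tb m z lc || allB m K t4 lc) && (!tb m z lC || allB m K t5 lC)

def chk (m : ℕ) (A : LD) : Tr → Tr → L → Bool
  | .nil, _, _ => false
  | .leaf p q x y, b, z => allB m (mkK A p q x y) b z
  | .node t0 t1 t2 t3 t4 t5, b, z =>
    (!tb m z la || chk m A t0 (b.ch la) la) && (!tb m z lA || chk m A t1 (b.ch lA) lA) &&
    (!tb m z lb || chk m A t2 (b.ch lb) lb) && (!tb m z lB || chk m A t3 (b.ch lB) lB) &&
    (!tb m z lc || chk m A t4 (b.ch lc) lc) && (!tb m z lC || chk m A t5 (b.ch lC) lC)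

def ldOf (f : Bs) (x : L) : LD := mkLD (wP (f.lw x)) (wE eps (f.lw x))

def certOK (f : Bs) (m : ℕ) (T : Tr) : Bool :=
  lets.all fun x => !(lets.any fun y => tb m x y) || chk m (ldOf f x) (T.ch x) T x

/-- All certificates attached to one triple of words. -/
def grpOK (g : Bs × List (ℕ × Tr)) : Bool := g.2.all fun c => certOK g.1 c.1 c.2

/-! The sixteen symmetries of the reference triple modulo phi. -/

def idB : Bs := ⟨[la], [lb], [lc]⟩

def fin3 : List (Fin 3) := [0, 1, 2]

def kap : List Bs :=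
  [⟨[la], [lb], [lc]⟩,
   ⟨[lb], [lc], [lC, lB, lA]⟩,
   ⟨[lB], [lA], [lC]⟩,
   ⟨[lB, lA, lC], [lc], [lb]⟩,
   ⟨[lb], [lB, lA, lC], [la]⟩,
   ⟨[lC, lB, lA], [la], [lb]⟩,
   ⟨[lc], [lC, lB, lA], [la]⟩,
   ⟨[lC], [lB], [la, lb, lc]⟩,
   ⟨[la, lb, lc], [lC], [lA]⟩,
   ⟨[lb], [la], [lA, lC, lB]⟩,
   ⟨[lc], [lb], [lB, la, lb]⟩,
   ⟨[lC], [lc, la, lb], [lB]⟩,
   ⟨[lc, la, lb], [lB], [lA]⟩,
   ⟨[lA], [la, lb, lc], [lB]⟩,
   ⟨[lA], [lB], [lb, lc, la]⟩,
   ⟨[lC], [lA], [la, lB, lA]⟩]

def kapG (j : ℕ) : Bs := kap.getD j idB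

def genG : ℕ → Bs
  | 0 => phW
  | 1 => phJ
  | g + 2 => kapG g

/-- kap j after gen g equals the conjugate by u of phi ^ k after kap j'. -/
def tabE (j g : ℕ) (e : ℤ × ℕ × List L) : Bool :=
  decide (e.2.1 < 16) && fin3.all fun i =>
    eqW ((kapG j).sub ((genG g).get i))
      (e.2.2 ++ phP e.1 ((kapG e.2.1).get i) ++ FreeGroup.invRev e.2.2)

def ZM.fro (m : ZM) : ℤ :=
  m.ar * m.ar + m.ai * m.ai + m.br * m.br + m.bi * m.bi + m.cr * m.cr + m.ci * m.ci +
    m.dr * m.dr + m.di * m.di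

def symL (w : List L) (cj : Bool) (T : ZM) (x : L) : Bool :=
  decide (1 ≤ w.length) &&
    decide ((((T.mul (bif cj then (wP w).conj else wP w)).mul T.adj).sub
        (ZM.smul (T.detr * DD ^ (w.length - 1)) (T.deti * DD ^ (w.length - 1)) (Ml x))).n1 +
      T.fro * wE eps0 w ≤ T.detr * DD ^ (w.length - 1) * eps)

/-- After conjugation by T (and complex conjugation) the words of f give the reference triple
again. -/
def symOK (f : Bs) (cj : Bool) (T : ZM) : Bool :=
  decide (0 < T.detr) && lets.all fun x => symL (f.lw x) cj T x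

/-! The finite state machine. -/

/-- A relabelling of the letters with its inverse, and a symmetry. -/
structure Lk where
  (p0 p1 p2 q0 q1 q2 : L)
  (k : ℤ)
  (j : ℕ)
  (u : List L)

def Lk.pi (A : Lk) (x : L) : L := sel x A.p0 (iv A.p0) A.p1 (iv A.p1) A.p2 (iv A.p2)
def Lk.pj (A : Lk) (x : L) : L := sel x A.q0 (iv A.q0) A.q1 (iv A.q1) A.q2 (iv A.q2)

def lkOK (src : Bs) (pre : L → List L) (tgt : Bs) (A : Lk) : Bool :=
  decide (A.j < 16) && fin3.all fun i =>
    eqW (src.get i)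
      (A.u ++ phP A.k ((kapG A.j).sub (tgt.sub ((pre (i, true)).map A.pi))) ++
        FreeGroup.invRev A.u)

def permOK (A : Lk) : Bool :=
  lets.all fun x => eqL (A.pj (A.pi x)) x && eqL (A.pi (A.pj x)) x

def row (t : ℕ) (a : L) : ℕ := Nat.mod (Nat.shiftRight t (Nat.mul 6 (cd a))) 64

/-- t is a transitive relation containing R. -/
def trOK (R : L → L → Bool) (t : ℕ) : Bool :=
  (all2 fun a b => !R a b || tb t a b) &&
    all2 fun a b => !tb t a b || Nat.beq (Nat.land (row t b) (row t a)) (row t b)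

def pr (R : L → L → Bool) (t : ℕ) (a b : L) : Bool := R a b && tb t b a

def cutB (v : L) (cm : ℕ) (a b : L) : Bool :=
  eqL (iv a) v || eqL b v || eqB (cb cm (iv a)) (cb cm b)

def mvB (R : L → L → Bool) (v : L) (cm : ℕ) (a b : L) : Bool :=
  bif eqB (cb cm (iv a)) (cb cm b) then R a b
  else bif cb cm (iv a) then R a v && R v b else R a (iv v) && R (iv v) b

def subR (R : L → L → Bool) (A : Lk) (m : ℕ) : Bool :=
  all2 fun a b => !R a b || tb m (A.pi a) (A.pi b)

structure Act where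
  (v : L)
  (cm t1 g kind t2 i1 i2 : ℕ)
  (lk : Lk)

/-- The words are covered by certificate number i2 of group number i1. -/
def leafOK (hs : List (Bs × List (ℕ × Tr))) (src : Bs) (pre : L → List L) (R : L → L → Bool)
    (a : Act) : Bool :=
  match hs[a.i1]? with
  | none => false
  | some g =>
    match g.2[a.i2]? with
    | none => false
    | some c => subR R a.lk c.1 && lkOK src pre g.1 a.lk

/-- The words are sent to state number i1. -/
def nextOK (sts : List (Bs × ℕ)) (src : Bs) (pre : L → List L) (R : L → L → Bool) (A : Lk)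
    (i : ℕ) : Bool :=
  match sts[i]? with
  | none => false
  | some t => permOK A && subR R A t.2 && lkOK src pre t.1 A

def act1 (hs : List (Bs × List (ℕ × Tr))) (sts : List (Bs × ℕ)) (src : Bs) (a : Act)
    (g : L → L → Bool) : Bool :=
  match a.kind with
  | 0 => all2 fun x y => !g x y || eqB (cb a.cm (iv x)) (cb a.cm y)
  | 1 => leafOK hs src (fun x => [x]) g a
  | 2 => trOK (mvB g a.v a.cm) a.t2 && all2 fun x y => !pr (mvB g a.v a.cm) a.t2 x y
  | 3 => trOK (mvB g a.v a.cm) a.t2 &&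
      leafOK hs src (whW a.v (cb a.cm)) (pr (mvB g a.v a.cm) a.t2) a
  | _ => trOK (mvB g a.v a.cm) a.t2 &&
      nextOK sts src (whW a.v (cb a.cm)) (pr (mvB g a.v a.cm) a.t2) a.lk a.i1

def actOK (hs : List (Bs × List (ℕ × Tr))) (sts : List (Bs × ℕ)) (s : Bs × ℕ) (a : Act) : Bool :=
  trOK (fun x y => tb s.2 x y && cutB a.v a.cm x y) a.t1 &&
    (all2 fun x y => !pr (fun x y => tb s.2 x y && cutB a.v a.cm x y) a.t1 x y || tb a.g x y) &&
    (all2 fun x y => !tb a.g x y || (tb s.2 x y && cutB a.v a.cm x y)) &&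
    act1 hs sts s.1 a (tb a.g)

def omR (m : ℕ) (i : Fin 3) (x y : L) : Bool :=
  tb m x y && !Nat.beq x.1.val i.val && !Nat.beq y.1.val i.val

def omOK (hs : List (Bs × List (ℕ × Tr))) (s : Bs × ℕ) (i : Fin 3) (a : Act) : Bool :=
  trOK (omR s.2 i) a.t1 &&
    match a.kind with
    | 0 => all2 fun x y => !pr (omR s.2 i) a.t1 x y
    | _ => leafOK hs s.1 (fun x => [x]) (pr (omR s.2 i) a.t1) a

def brs : List (L × ℕ) :=
  lets.flatMap fun v => ((List.range 64).filter fun cm => !cb cm v && !cb cm (iv v)).map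
    fun cm => (v, cm)

def stOK (hs : List (Bs × List (ℕ × Tr))) (sts : List (Bs × ℕ)) (s : Bs × ℕ)
    (om ac : List Act) : Bool :=
  (all2 fun a b => !tb s.2 a b || !eqL b (iv a)) &&
    (fin3.all fun i => om.any fun a => Nat.beq a.cm i.val && omOK hs s i a) &&
    brs.all fun p => ac.any fun a => Nat.beq a.cm p.2 && eqL a.v p.1 && actOK hs sts s a

def rootOK (sts : List (Bs × ℕ)) (A : Lk) : Bool :=
  nextOK sts idB (fun x => [x]) (fun a b => !eqL b (iv a)) A 0

end Pool.Agent.MP_28624d_gt.L4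

end

section

/-!
The meaning of the checks: definitions.
-/

namespace Pool.Agent.MP_28624d_gt.L4

open Matrix

/-- The Euclidean norm. -/
noncomputable def en (v : Fin 4 → ℝ) : ℝ := Real.sqrt (v 0 ^ 2 + v 1 ^ 2 + v 2 ^ 2 + v 3 ^ 2)

/-- The Euclidean operator norm of A is at most c. -/
def Bd (A : Matrix (Fin 4) (Fin 4) ℝ) (c : ℝ) : Prop := ∀ v, en (A *ᵥ v) ≤ c * en v

/-- A is within e of a unit multiple of m. -/
def Cl (A : Matrix (Fin 4) (Fin 4) ℝ) (m : ZM) (e : ℤ) : Prop :=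
  ∃ u : ℂ, ‖u‖ = 1 ∧ Bd (A - rl (u • m.toC)) e

/-- Up to conjugation the six letters are within e / DD of the reference matrices. -/
def NearI (e : ℤ) (σ : F →* G) : Prop :=
  ∃ g g' : Matrix (Fin 4) (Fin 4) ℝ, g * g' = 1 ∧
    ∀ x : L, Cl ((DD : ℝ) • (g * (σ (FreeGroup.mk [x])).1 * g')) (Ml x) e

/-- All cyclic words with turns in m give, after substitution of f, matrices with a strictly
invariant cone. -/
def Valid (f : Bs) (m : ℕ) : Prop :=
  ∀ σ : F →* G, NearI eps σ → ∀ l : List L, Cyc (fun a b => tb m a b = true) l →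
    Good (σ (f.hom (FreeGroup.mk l))).1

/-- σ is obtained from ρ by an inner automorphism, a power of phi and one of the symmetries. -/
def Fam (ρ σ : F →* G) : Prop :=
  ∃ (k : ℤ) (j : ℕ) (u : F), j < 16 ∧ ∀ w, σ w = ρ (u * (phi ^ k) ((kapG j).hom w) * u⁻¹)

end Pool.Agent.MP_28624d_gt.L4

end
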