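import Pool.Agent.MP_28624d_gt.L4.LA

section

/-!
Soundness of the elementary checks on letters, masks and words.
-/

namespace Pool.Agent.MP_28624d_gt.L4

theorem mem_lets (x : L) : x ∈ lets := by
  revert x
  decide

theorem mem_fin3 (i : Fin 3) : i ∈ fin3 := by
  revert i
  decide

theorem eqL_iff (a b : L) : eqL a b = true ↔ a = b := by
  revert a b
  decide

theorem eqB_iff (a b : Bool) : eqB a b = true ↔ a = b := by
  revert a b
  decide

theorem all1_iff (f : L → Bool) : all1 f = true ↔ ∀ a, f a = true := by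
  have h : all1 f = lets.all f := by simp [all1, lets, Bool.and_assoc]
  rw [h, List.all_eq_true]
  exact ⟨fun h a => h a (mem_lets a), fun h a _ => h a⟩

theorem all2_iff (f : L → L → Bool) : all2 f = true ↔ ∀ a b, f a b = true := by
  simp only [all2, all1_iff]

theorem iv_iv (x : L) : iv (iv x) = x := by
  simp [iv]

theorem wd_bit (m k : ℕ) : bit m k = m.testBit k := by
  change Nat.beq ((m >>> k) &&& 1) 1 = _
  rw [Nat.and_one_is_mod, Nat.shiftRight_eq_div_pow, Nat.testBit_eq_decide_div_mod_eq,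
    Bool.eq_iff_iff]
  simp

theorem wd_cd (x : L) : cd x < 6 := by
  revert x
  decide

theorem wd_tb (t : ℕ) (a c : L) : tb t a c = (row t a).testBit (cd c) := by
  change bit t (6 * cd a + cd c) = ((t >>> (6 * cd a)) % 2 ^ 6).testBit (cd c)
  rw [wd_bit, Nat.testBit_mod_two_pow, Nat.testBit_shiftRight, decide_eq_true (wd_cd c),
    Bool.true_and]

/-- bit is Nat.testBit; tb t a c is bit number cd c of row t a. -/
theorem trOK_sound {R : L → L → Bool} {t : ℕ} (h : trOK R t = true) :
    (∀ a b, R a b = true → tb t a b = true) ∧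
      ∀ a b c, tb t a b = true → tb t b c = true → tb t a c = true := by
  rw [trOK, Bool.and_eq_true, all2_iff, all2_iff] at h
  refine ⟨fun a b hab => by simpa [hab] using h.1 a b, fun a b c hab hbc => ?_⟩
  have h1 : row t b &&& row t a = row t b := by
    have := h.2 a b
    rw [hab, Bool.not_true, Bool.false_or] at this
    exact Nat.eq_of_beq_eq_true this
  rw [wd_tb] at hbc ⊢
  rw [← h1, Nat.testBit_and, Bool.and_eq_true] at hbc
  exact hbc.2

/-- Every set of letters avoiding v and iv v is listed. -/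
theorem exists_brs (v : L) (C : L → Bool) (h1 : C v = false) (h2 : C (iv v) = false) :
    ∃ cm : ℕ, (v, cm) ∈ brs ∧ cb cm = C := by
  have key : ∀ b0 b1 b2 b3 b4 b5 : Bool, ∃ cm ∈ List.range 64, cb cm la = b0 ∧ cb cm lA = b1 ∧
      cb cm lb = b2 ∧ cb cm lB = b3 ∧ cb cm lc = b4 ∧ cb cm lC = b5 := by
    intro b0 b1 b2 b3 b4 b5
    refine ⟨b0.toNat + 2 * b1.toNat + 4 * b2.toNat + 8 * b3.toNat + 16 * b4.toNat + 32 * b5.toNat,
      ?_⟩
    rw [List.mem_range]
    cases b0 <;> cases b1 <;> cases b2 <;> cases b3 <;> cases b4 <;> cases b5 <;>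
      exact ⟨by decide, rfl, rfl, rfl, rfl, rfl, rfl⟩
  obtain ⟨cm, hm, e0, e1, e2, e3, e4, e5⟩ := key (C la) (C lA) (C lb) (C lB) (C lc) (C lC)
  have hC : cb cm = C := by
    funext x
    have hx := mem_lets x
    simp only [lets, List.mem_cons, List.not_mem_nil, or_false] at hx
    rcases hx with rfl | rfl | rfl | rfl | rfl | rfl <;> assumption
  refine ⟨cm, List.mem_flatMap.2 ⟨v, mem_lets v, List.mem_map.2 ⟨cm, List.mem_filter.2 ⟨hm, ?_⟩,
    rfl⟩⟩, hC⟩
  rw [hC, h1, h2]
  rfl

theorem eqW_sound {w w' : List L} (h : eqW w w' = true) : FreeGroup.mk w = FreeGroup.mk w' := by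
  exact FreeGroup.reduce.exact (of_decide_eq_true h)

theorem hom_letter (f : Bs) (x : L) : f.hom (FreeGroup.mk [x]) = FreeGroup.mk (f.lw x) := by
  obtain ⟨i, b⟩ := x
  cases b <;> simp [Bs.hom, Bs.lw, FreeGroup.lift_mk, FreeGroup.inv_mk]

theorem hom_mk (f : Bs) (w : List L) : f.hom (FreeGroup.mk w) = FreeGroup.mk (f.sub w) := by
  induction w with
  | nil => exact map_one _
  | cons x w ih =>
    rw [show FreeGroup.mk (x :: w) = FreeGroup.mk [x] * FreeGroup.mk w from rfl, map_mul, ih,
      hom_letter, FreeGroup.mul_mk]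
    rfl

theorem hom_idB (w : F) : idB.hom w = w := by
  have h : idB.hom = MonoidHom.id F := by
    refine FreeGroup.ext_hom _ _ fun i => ?_
    fin_cases i <;> rfl
  rw [h, MonoidHom.id_apply]

theorem hom_phW (w : F) : phW.hom w = phi w := by
  have h : phW.hom = phiF := by
    refine FreeGroup.ext_hom _ _ fun i => ?_
    rw [Bs.hom, phiF, FreeGroup.lift_apply_of, FreeGroup.lift_apply_of]
    fin_cases i <;> rfl
  rw [h]
  rfl

theorem hom_phJ (w : F) : phJ.hom w = phi⁻¹ w := by
  have h : phJ.hom = phiI := by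
    refine FreeGroup.ext_hom _ _ fun i => ?_
    rw [Bs.hom, phiI, FreeGroup.lift_apply_of, FreeGroup.lift_apply_of]
    fin_cases i <;> rfl
  rw [h]
  rfl

theorem wd_itW {f : Bs} {e : MulAut F} (h : ∀ w, f.hom w = e w) (n : ℕ) (w : List L) :
    (e ^ n) (FreeGroup.mk w) = FreeGroup.mk (itW f n w) := by
  induction n with
  | zero => rfl
  | succ n ih => rw [pow_succ', MulAut.mul_apply, ih, ← h, hom_mk, itW, FreeGroup.reduce.self]

theorem phP_sound (k : ℤ) (w : List L) :
    (phi ^ k) (FreeGroup.mk w) = FreeGroup.mk (phP k w) := by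
  cases k with
  | ofNat n =>
    rw [Int.ofNat_eq_natCast, zpow_natCast]
    exact wd_itW hom_phW n w
  | negSucc n =>
    rw [zpow_negSucc, ← inv_pow]
    exact wd_itW hom_phJ (n + 1) w

theorem pi_iv (A : Lk) (x : L) : A.pi (iv x) = iv (A.pi x) := by
  obtain ⟨i, b⟩ := x
  fin_cases i <;> cases b <;> first | rfl | exact (iv_iv _).symm

theorem wd_lift_mk (π : L → L) (h : ∀ x, π (iv x) = iv (π x)) (l : List L) :
    FreeGroup.lift (fun i => FreeGroup.mk [π (i, true)]) (FreeGroup.mk l) =
      FreeGroup.mk (l.map π) := by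
  induction l with
  | nil => exact map_one _
  | cons x w ih =>
    rw [show FreeGroup.mk (x :: w) = FreeGroup.mk [x] * FreeGroup.mk w from rfl, map_mul, ih,
      List.map_cons, show FreeGroup.mk (π x :: w.map π) =
        FreeGroup.mk [π x] * FreeGroup.mk (w.map π) from rfl]
    congr 1
    obtain ⟨i, b⟩ := x
    cases b
    · have h1 : π (i, false) = iv (π (i, true)) := h (i, true)
      rw [h1, FreeGroup.lift_mk]
      simp [FreeGroup.inv_mk, FreeGroup.invRev, iv]
    · simp [FreeGroup.lift_mk]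

/-- The relabelling as an endomorphism. -/
def Lk.piH (A : Lk) : F →* F := FreeGroup.lift fun i => FreeGroup.mk [A.pi (i, true)]

theorem piH_mk (A : Lk) (l : List L) : A.piH (FreeGroup.mk l) = FreeGroup.mk (l.map A.pi) := by
  exact wd_lift_mk A.pi (pi_iv A) l

theorem permOK_sound {A : Lk} (h : permOK A = true) : ∃ e : F ≃* F, ∀ w, e w = A.piH w := by
  rw [permOK, List.all_eq_true] at h
  have h1 : ∀ x, A.pj (A.pi x) = x ∧ A.pi (A.pj x) = x := fun x => by
    have := h x (mem_lets x)
    rwa [Bool.and_eq_true, eqL_iff, eqL_iff] at this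
  have hj : ∀ x, A.pj (iv x) = iv (A.pj x) := by
    rintro ⟨i, b⟩
    fin_cases i <;> cases b <;> first | rfl | exact (iv_iv _).symm
  refine ⟨MonoidHom.toMulEquiv A.piH (FreeGroup.lift fun i => FreeGroup.mk [A.pj (i, true)])
    (FreeGroup.ext_hom _ _ fun i => ?_) (FreeGroup.ext_hom _ _ fun i => ?_), fun w => rfl⟩
  · rw [MonoidHom.comp_apply, FreeGroup.of, piH_mk, wd_lift_mk A.pj hj]
    simp [(h1 _).1]
  · rw [MonoidHom.comp_apply, FreeGroup.of, wd_lift_mk A.pj hj, piH_mk]
    simp [(h1 _).2]

theorem wd_ext (f g : F →* F) (e : MulAut F) (u : F)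
    (h : ∀ i : Fin 3, f (FreeGroup.of i) = u * e (g (FreeGroup.of i)) * u⁻¹) (w : F) :
    f w = u * e (g w) * u⁻¹ := by
  have h1 : f = ((MulAut.conj u).toMonoidHom.comp e.toMonoidHom).comp g :=
    FreeGroup.ext_hom _ _ h
  rw [h1]
  rfl

/-- Two homomorphisms (the right side is a composition with an inner automorphism) that agree on
the generators. -/
theorem lkOK_sound {src tgt : Bs} {pre : L → List L} {A : Lk} (h : lkOK src pre tgt A = true)
    (ψ : F →* F) (hψ : ∀ i : Fin 3, ψ (FreeGroup.of i) = FreeGroup.mk (pre (i, true))) :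
    A.j < 16 ∧ ∀ w : F, src.hom w = FreeGroup.mk A.u *
      (phi ^ A.k) ((kapG A.j).hom (tgt.hom (A.piH (ψ w)))) * (FreeGroup.mk A.u)⁻¹ := by
  rw [lkOK, Bool.and_eq_true, List.all_eq_true] at h
  refine ⟨of_decide_eq_true h.1, wd_ext src.hom
    ((kapG A.j).hom.comp (tgt.hom.comp (A.piH.comp ψ))) (phi ^ A.k) _ fun i => ?_⟩
  have h1 := eqW_sound (h.2 i (mem_fin3 i))
  simp only [MonoidHom.comp_apply]
  rw [hψ, piH_mk, hom_mk tgt, hom_mk, phP_sound, FreeGroup.inv_mk, FreeGroup.mul_mk,
    FreeGroup.mul_mk, ← h1, Bs.hom, FreeGroup.lift_apply_of]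

theorem tabE_sound {j g : ℕ} {e : ℤ × ℕ × List L} (h : tabE j g e = true) :
    e.2.1 < 16 ∧ ∀ w : F, (kapG j).hom ((genG g).hom w) = FreeGroup.mk e.2.2 *
      (phi ^ e.1) ((kapG e.2.1).hom w) * (FreeGroup.mk e.2.2)⁻¹ := by
  rw [tabE, Bool.and_eq_true, List.all_eq_true] at h
  refine ⟨of_decide_eq_true h.1, wd_ext ((kapG j).hom.comp (genG g).hom)
    (kapG e.2.1).hom (phi ^ e.1) _ fun i => ?_⟩
  have h1 := eqW_sound (h.2 i (mem_fin3 i))
  have h2 : ∀ f : Bs, f.hom (FreeGroup.of i) = FreeGroup.mk (f.get i) := fun f => by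
    rw [Bs.hom, FreeGroup.lift_apply_of]
  rw [MonoidHom.comp_apply, h2, h2, hom_mk, phP_sound, FreeGroup.inv_mk, FreeGroup.mul_mk,
    FreeGroup.mul_mk, ← h1]

end Pool.Agent.MP_28624d_gt.L4

end

section

/-!
Cyclic words and the effect of a Whitehead move.
-/

namespace Pool.Agent.MP_28624d_gt.L4

open FreeGroup

theorem mv_cyc_iff {R : L → L → Prop} {c : L} {t : List L} :
    Cyc R (c :: t) ↔ List.IsChain R (c :: t ++ [c]) := by
  unfold Cyc
  rw [List.isChain_split]
  constructor
  · exact fun h => h.2.1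
  · exact fun h => ⟨List.cons_ne_nil _ _, h, h.left_of_append⟩

theorem cyc_mono {R S : L → L → Prop} (h : ∀ a b, R a b → S a b) {l : List L} (hl : Cyc R l) :
    Cyc S l := by
  exact ⟨hl.1, hl.2.imp fun a b hab => h a b hab⟩

theorem cyc_and {R S : L → L → Prop} {l : List L} (h1 : Cyc R l) (h2 : Cyc S l) :
    Cyc (fun a b => R a b ∧ S a b) l := by
  refine ⟨h1.1, ?_⟩
  have k1 := List.isChain_iff_getElem.1 h1.2
  have k2 := List.isChain_iff_getElem.1 h2.2
  exact List.isChain_iff_getElem.2 fun i hi => ⟨k1 i hi, k2 i hi⟩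

theorem cyc_mem {R : L → L → Prop} {l : List L} (h : Cyc R l) :
    Cyc (fun a b => R a b ∧ a ∈ l ∧ b ∈ l) l := by
  refine ⟨h.1, (List.IsChain.iff_mem.1 h.2).imp fun a b hab => ⟨hab.2.2, ?_, ?_⟩⟩
  · simpa using hab.1
  · simpa using hab.2.1

theorem cyc_rot {R : L → L → Prop} {p q : List L} (h : Cyc R (p ++ q)) : Cyc R (q ++ p) := by
  rcases q with _ | ⟨c, q⟩
  · simpa using h
  · rw [List.cons_append, mv_cyc_iff]
    have h2 := h.2
    have e : (p ++ c :: q) ++ (p ++ c :: q) = (p ++ (c :: (q ++ p) ++ [c])) ++ q := by simp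
    rw [e] at h2
    exact h2.left_of_append.right_of_append

theorem cyc_map {R S : L → L → Prop} (f : L → L) (h : ∀ a b, R a b → S (f a) (f b)) {l : List L}
    (hl : Cyc R l) : Cyc S (l.map f) := by
  refine ⟨by simpa using hl.1, ?_⟩
  rw [← List.map_append]
  exact List.isChain_map_of_isChain f h hl.2

/-- A relation without any allowed turn carries no cyclic word. -/
theorem cyc_exists {R : L → L → Prop} {l : List L} (h : Cyc R l) : ∃ a b, R a b := by
  rcases l with _ | ⟨c, t⟩
  · exact absurd rfl h.1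
  · have h2 := mv_cyc_iff.1 h
    rcases t with _ | ⟨d, t⟩
    · exact ⟨c, c, by simpa using h2⟩
    · exact ⟨c, d, (List.isChain_cons_cons.1 h2).1⟩

/-- In a cyclic word every letter can be reached from every letter. -/
theorem cyc_prune {R T : L → L → Prop} (hRT : ∀ a b, R a b → T a b)
    (hT : ∀ a b c, T a b → T b c → T a c) {l : List L} (hl : Cyc R l) :
    Cyc (fun a b => R a b ∧ T b a) l := by
  have : Trans T T T := ⟨fun {a b c} h1 h2 => hT a b c h1 h2⟩
  have hp : List.Pairwise T (l ++ l) := (hl.2.imp fun a b hab => hRT a b hab).pairwise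
  have hall := (List.pairwise_append.1 hp).2.2
  exact cyc_mono (fun a b hab => ⟨hab.1, hall b hab.2.2 a hab.2.1⟩) (cyc_mem hl)

/-- The periodic sequence of a cyclic word. -/
theorem cyc_getD {R : L → L → Prop} {l : List L} (hl : Cyc R l) (k : ℕ) :
    R (l.getD (k % l.length) (0, true)) (l.getD ((k + 1) % l.length) (0, true)) := by
  have hn : 0 < l.length := List.length_pos_iff.2 hl.1
  have hi : k % l.length < l.length := Nat.mod_lt _ hn
  have hj : (k + 1) % l.length < l.length := Nat.mod_lt _ hn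
  have h := hl.2.getElem (k % l.length) (by rw [List.length_append]; omega)
  rw [List.getD_eq_getElem _ _ hi, List.getD_eq_getElem _ _ hj]
  rw [List.getElem_append_left hi] at h
  by_cases hc : k % l.length + 1 < l.length
  · rw [List.getElem_append_left hc] at h
    have e : (k + 1) % l.length = k % l.length + 1 := by
      rw [Nat.add_mod, Nat.mod_eq_of_lt (show 1 < l.length by omega), Nat.mod_eq_of_lt hc]
    simpa only [e] using h
  · rw [List.getElem_append_right (by omega)] at h
    have e : (k + 1) % l.length = k % l.length + 1 - l.length := by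
      have e1 : k % l.length + 1 = l.length := by omega
      rw [← Nat.mod_add_mod, e1, Nat.mod_self, Nat.sub_self]
    simpa only [e] using h

/-- Cyclic reduction (Mathlib: FreeGroup.reduceCyclically, IsCyclicallyReduced). -/
theorem exists_cyc {w : F} (hw : w ≠ 1) : ∃ l : List L, Cyc Rd l ∧ IsConj w (FreeGroup.mk l) := by
  have hc := FreeGroup.reduceCyclically.isCyclicallyReduced
    (FreeGroup.isReduced_toWord (x := w))
  have he := FreeGroup.reduceCyclically.conj_conjugator_reduceCyclically w.toWord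
  have hw2 : w = FreeGroup.mk (FreeGroup.reduceCyclically.conjugator w.toWord) *
      FreeGroup.mk (FreeGroup.reduceCyclically w.toWord) *
        (FreeGroup.mk (FreeGroup.reduceCyclically.conjugator w.toWord))⁻¹ := by
    rw [FreeGroup.inv_mk, FreeGroup.mul_mk, FreeGroup.mul_mk, he, FreeGroup.mk_toWord]
  refine ⟨FreeGroup.reduceCyclically w.toWord, ⟨fun h0 => hw ?_, ?_⟩, ?_⟩
  · rw [hw2, h0, ← FreeGroup.one_eq_mk, mul_one, mul_inv_cancel]
  · have h2 : List.IsChain (fun a b : L => a.1 = b.1 → a.2 = b.2)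
        (FreeGroup.reduceCyclically w.toWord ++ FreeGroup.reduceCyclically w.toWord) :=
      List.IsChain.append hc.1 hc.1 hc.2
    refine h2.imp fun a b hab hb => ?_
    subst hb
    simpa [iv] using hab rfl
  · refine (isConj_iff.2 ⟨FreeGroup.mk (FreeGroup.reduceCyclically.conjugator w.toWord), ?_⟩).symm
    exact hw2.symm

theorem whH_letter (v : L) (C : L → Bool) (x : L) :
    whH v C (FreeGroup.mk [x]) = FreeGroup.mk (whW v C x) := by
  obtain ⟨i, b⟩ := x
  cases b
  · have e : FreeGroup.mk [(i, false)] = (FreeGroup.of i : F)⁻¹ := by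
      rw [FreeGroup.of, FreeGroup.inv_mk]
      rfl
    rw [e, MonoidHom.map_inv, whH, FreeGroup.lift_apply_of, FreeGroup.inv_mk]
    congr 1
    cases h1 : C (i, true) <;> cases h2 : C (i, false) <;>
      simp [whW, iv, h1, h2, FreeGroup.invRev]
  · exact FreeGroup.lift_apply_of

theorem mv_iv_iv (x : L) : iv (iv x) = x := by
  simp [iv]

theorem mv_iv_ne (x : L) : iv x ≠ x := by
  obtain ⟨i, b⟩ := x
  cases b <;> simp [iv]

theorem mv_mk_iv (x : L) : (FreeGroup.mk [iv x] : F) = (FreeGroup.mk [x])⁻¹ := by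
  rw [FreeGroup.inv_mk]
  rfl

/-- The letter v or nothing. -/
def mvE (v : L) (b : Bool) : F := if b then FreeGroup.mk [v] else 1

theorem mv_letter (v : L) (C : L → Bool) (x : L) :
    whH v C (FreeGroup.mk [x]) = mvE v (C x) * FreeGroup.mk [x] * (mvE v (C (iv x)))⁻¹ := by
  rw [whH_letter]
  cases h1 : C x <;> cases h2 : C (iv x) <;>
    simp [whW, mvE, h1, h2, FreeGroup.mul_mk, FreeGroup.invRev] <;> rfl

theorem mv_cons (v : L) (C : L → Bool) (x : L) (s : List L) :
    whH v C (FreeGroup.mk (x :: s)) =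
      mvE v (C x) * FreeGroup.mk [x] * (mvE v (C (iv x)))⁻¹ * whH v C (FreeGroup.mk s) := by
  rw [← mv_letter, ← MonoidHom.map_mul, FreeGroup.mul_mk]
  rfl

theorem mv_mk_cons (x : L) (s : List L) :
    (FreeGroup.mk (x :: s) : F) = FreeGroup.mk [x] * FreeGroup.mk s := by
  rw [FreeGroup.mul_mk]
  rfl

theorem mv_comp {v : L} {C : L → Bool} (h1 : C v = false) (h2 : C (iv v) = false) :
    (whH (iv v) C).comp (whH v C) = MonoidHom.id F := by
  have hE : ∀ b, whH (iv v) C (mvE v b) = mvE v b := by
    intro b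
    cases b
    · simp [mvE]
    · have : mvE v true = FreeGroup.mk [v] := rfl
      rw [this, mv_letter, h1, h2]
      simp [mvE]
  have hI : ∀ b, mvE (iv v) b = (mvE v b)⁻¹ := by
    intro b
    cases b
    · simp [mvE]
    · exact mv_mk_iv v
  ext i
  have e : (FreeGroup.of i : F) = FreeGroup.mk [(i, true)] := rfl
  rw [MonoidHom.comp_apply, MonoidHom.id_apply, e, mv_letter, MonoidHom.map_mul, MonoidHom.map_mul,
    MonoidHom.map_inv, hE, hE,
    mv_letter, hI, hI]
  group

/-- The inverse is whH (iv v) C. -/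
theorem exists_whE {v : L} {C : L → Bool} (h1 : C v = false) (h2 : C (iv v) = false) :
    ∃ e : F ≃* F, ∀ w, e w = whH v C w := by
  refine ⟨MonoidHom.toMulEquiv (whH v C) (whH (iv v) C) (mv_comp h1 h2) ?_, fun w => rfl⟩
  have h := mv_comp (v := iv v) (C := C) h2 (by rw [mv_iv_iv]; exact h1)
  rwa [mv_iv_iv] at h

theorem mv_lin {R : L → L → Prop} {v : L} {C : L → Bool} (h1 : C v = false)
    (h2 : C (iv v) = false) (hR : ∀ a b, R a b → Rd a b ∧ Cut v C a b) {z : L} (hz1 : z ≠ v)
    (hz2 : z ≠ iv v) (n : ℕ) : ∀ (a : L) (s : List L), s.length ≤ n →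
      List.IsChain R (a :: s) → (a :: s).getLast? = some z →
      (a = iv v → ∀ b ∈ s.head?, C b = false) →
      ∃ s' : List L, (s ≠ [] → s' ≠ []) ∧ (a :: s').getLast? = some z ∧
        List.IsChain (Mv R v C) (a :: s') ∧ s'.length ≤ s.length ∧
        (¬ List.IsChain (Same C) (a :: s) → s'.length < s.length) ∧
        whH v C (FreeGroup.mk (a :: s)) =
          mvE v (C a) * FreeGroup.mk (a :: s') * (mvE v (C (iv z)))⁻¹ := by
  have base : ∀ a : L, [a].getLast? = some z →
      ∃ s' : List L, (([] : List L) ≠ [] → s' ≠ []) ∧ (a :: s').getLast? = some z ∧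
        List.IsChain (Mv R v C) (a :: s') ∧ s'.length ≤ ([] : List L).length ∧
        (¬ List.IsChain (Same C) [a] → s'.length < ([] : List L).length) ∧
        whH v C (FreeGroup.mk [a]) =
          mvE v (C a) * FreeGroup.mk (a :: s') * (mvE v (C (iv z)))⁻¹ := by
    intro a ha
    have haz : a = z := by simpa using ha
    subst haz
    exact ⟨[], id, ha, List.isChain_singleton _, le_rfl,
      fun h => absurd (List.isChain_singleton _) h, mv_letter v C a⟩
  have hv : whH v C (FreeGroup.mk [v]) = FreeGroup.mk [v] := by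
    rw [mv_letter, h1, h2]
    simp [mvE]
  induction n with
  | zero =>
    intro a s hs _ hlast _
    have : s = [] := List.length_eq_zero_iff.1 (by omega)
    subst this
    exact base a hlast
  | succ n ih =>
    intro a s hs hch hlast hhead
    rcases s with _ | ⟨b, s2⟩
    · exact base a hlast
    obtain ⟨hab, hch2⟩ := List.isChain_cons_cons.1 hch
    rw [List.getLast?_cons_cons] at hlast
    have hs2 : s2.length ≤ n := by simpa using hs
    by_cases hS : Same C a b
    · by_cases hdel : b = iv v ∧ ∃ c s3, s2 = c :: s3 ∧ C c = true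
      · obtain ⟨rfl, c, s3, rfl, hc⟩ := hdel
        obtain ⟨hbc, hch3⟩ := List.isChain_cons_cons.1 hch2
        rw [List.getLast?_cons_cons] at hlast
        have hCa : C (iv a) = false := by
          unfold Same at hS
          rw [hS, h2]
        obtain ⟨s', -, k2, k3, k4, -, k6⟩ := ih c s3 (by simp at hs2; omega) hch3 hlast
          (fun h => by rw [h, h2] at hc; exact absurd hc (by simp))
        refine ⟨c :: s', fun _ => List.cons_ne_nil _ _, by rwa [List.getLast?_cons_cons],
          List.isChain_cons_cons.2 ⟨Or.inr (Or.inr ⟨hCa, hc, hab, hbc⟩), k3⟩,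
          by simp; omega, fun _ => by simp; omega, ?_⟩
        rw [mv_cons, mv_cons, k6, hCa, hc, h2, mv_iv_iv, h1, mv_mk_iv, mv_mk_cons a (c :: s')]
        simp only [mvE, if_true, Bool.false_eq_true, if_false]
        group
      · obtain ⟨s', -, k2, k3, k4, k5, k6⟩ := ih b s2 hs2 hch2 hlast (by
          intro hb c hc
          by_contra hcc
          rcases s2 with _ | ⟨c', s3⟩
          · simp at hc
          · have : c' = c := by simpa using hc
            subst this
            exact hdel ⟨hb, c', s3, rfl, by simpa using hcc⟩)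
        refine ⟨b :: s', fun _ => List.cons_ne_nil _ _, by rwa [List.getLast?_cons_cons],
          List.isChain_cons_cons.2 ⟨Or.inl ⟨hS, hab⟩, k3⟩, by simp; omega, fun hn => ?_, ?_⟩
        · have := k5 fun h => hn (List.isChain_cons_cons.2 ⟨hS, h⟩)
          simpa using this
        · unfold Same at hS
          rw [mv_cons, k6, hS, mv_mk_cons a (b :: s')]
          group
    · have hbv : b = v := by
        rcases (hR a b hab).2 with h | h | h
        · exfalso
          apply hS
          have ha : a = iv v := by rw [← h, mv_iv_iv]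
          unfold Same
          rw [h, h1, hhead ha b (by simp)]
        · exact h
        · exact absurd h hS
      subst hbv
      have hCa : C (iv a) = true := by
        unfold Same at hS
        rw [h1] at hS
        simpa using hS
      rcases s2 with _ | ⟨d, s3⟩
      · exact absurd (by simpa using hlast.symm) hz1
      obtain ⟨hbd, hch3⟩ := List.isChain_cons_cons.1 hch2
      rw [List.getLast?_cons_cons] at hlast
      have hd : d ≠ iv b := (hR b d hbd).1
      have hCd : C d = false := by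
        rcases (hR b d hbd).2 with h | h | h
        · exact absurd h (mv_iv_ne b)
        · rw [h, h1]
        · unfold Same at h
          rw [← h, h2]
      obtain ⟨s', -, k2, k3, k4, -, k6⟩ := ih d s3 (by simp at hs2; omega) hch3 hlast
        (fun h => absurd h hd)
      refine ⟨d :: s', fun _ => List.cons_ne_nil _ _, by rwa [List.getLast?_cons_cons],
        List.isChain_cons_cons.2 ⟨Or.inr (Or.inl ⟨hCa, hCd, hab, hbd⟩), k3⟩,
        by simp; omega, fun _ => by simp; omega, ?_⟩
      rw [mv_cons, mv_cons, k6, hCa, hCd, h1, h2, mv_mk_cons a (d :: s')]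
      simp only [mvE, if_true, Bool.false_eq_true, if_false]
      group

/-- Plan. The new word is l with some letters deleted: v when the previous letter a has
C (iv a) = true, and iv v when the next letter b has C b = true. Rotate l so that it starts with a
letter c different from v and iv v (one exists because some turn is not Same C) and work with the
linear word l ++ [c]. Linear statement, by strong induction on the length: if a :: t is an R-chain
whose last letter z differs from v, iv v, and not (a = iv v and C (head t) = true), then there is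
t' with a :: t' an (Mv R v C)-chain with the same last letter, t'.length ≤ t.length, strictly if
a :: t is not a (Same C)-chain, and whH (mk (a :: t)) = v^[C a] * mk (a :: t') * v^-[C (iv z)].
Cases: t = []; C (iv a) and t = v :: d :: t3; t = iv v :: c :: t3 with C c; otherwise. -/
theorem move {R : L → L → Prop} {v : L} {C : L → Bool} (h1 : C v = false) (h2 : C (iv v) = false)
    (hR : ∀ a b, R a b → Rd a b ∧ Cut v C a b) {l : List L} (hl : Cyc R l)
    (hn : ¬ Cyc (Same C) l) :
    ∃ l' : List L, l'.length < l.length ∧ Cyc (Mv R v C) l' ∧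
      IsConj (whH v C (FreeGroup.mk l)) (FreeGroup.mk l') := by
  obtain ⟨c, hc, hcv⟩ : ∃ c ∈ l, c ≠ v ∧ c ≠ iv v := by
    by_contra hcon
    push Not at hcon
    have hall : ∀ x ∈ l, C x = false ∧ C (iv x) = false := by
      intro x hx
      by_cases hxv : x = v
      · subst hxv
        exact ⟨h1, h2⟩
      · rw [hcon x hx hxv, mv_iv_iv]
        exact ⟨h2, h1⟩
    refine hn (cyc_mono (fun a b hab => ?_) (cyc_mem hl))
    unfold Same
    rw [(hall a hab.2.1).2, (hall b hab.2.2).1]
  obtain ⟨p, q, rfl⟩ := List.append_of_mem hc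
  have hl2 : Cyc R (c :: (q ++ p)) := cyc_rot hl
  have hn2 : ¬ Cyc (Same C) (c :: (q ++ p)) := fun h =>
    hn (cyc_rot (p := c :: q) (q := p) h)
  rw [mv_cyc_iff] at hl2 hn2
  obtain ⟨s', hne, hlast, hch, -, hlt, heq⟩ := mv_lin h1 h2 hR hcv.1 hcv.2 _ c (q ++ p ++ [c])
    le_rfl hl2 (by rw [← List.cons_append, List.getLast?_append]; simp)
    (fun h => absurd h hcv.2)
  have hne' : s' ≠ [] := hne (by simp)
  obtain ⟨t', z, rfl⟩ := List.eq_nil_or_concat' s' |>.resolve_left hne'
  have hz : z = c := by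
    rw [← List.cons_append, List.getLast?_append] at hlast
    simpa using hlast
  subst hz
  refine ⟨z :: t', ?_, mv_cyc_iff.2 hch, ?_⟩
  · have := hlt hn2
    simp only [List.length_append, List.length_cons, List.length_nil] at this ⊢
    omega
  · rw [← List.cons_append, ← List.cons_append (bs := [z]), ← FreeGroup.mul_mk (L₂ := [z]),
      ← FreeGroup.mul_mk (L₂ := [z]), MonoidHom.map_mul, mv_letter] at heq
    have h3 : whH v C (FreeGroup.mk (z :: (q ++ p))) =
        mvE v (C z) * FreeGroup.mk (z :: t') * (mvE v (C z))⁻¹ := by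
      have h4 : whH v C (FreeGroup.mk (z :: (q ++ p))) =
          (mvE v (C z) * (FreeGroup.mk (z :: t') * FreeGroup.mk [z]) * (mvE v (C (iv z)))⁻¹) *
            (mvE v (C z) * FreeGroup.mk [z] * (mvE v (C (iv z)))⁻¹)⁻¹ := by
        rw [← heq, mul_inv_cancel_right]
      rw [h4]
      group
    have h5 : IsConj (whH v C (FreeGroup.mk (p ++ z :: q)))
        (whH v C (FreeGroup.mk (z :: (q ++ p)))) := by
      rw [← List.cons_append, ← FreeGroup.mul_mk, ← FreeGroup.mul_mk, MonoidHom.map_mul,
        MonoidHom.map_mul]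
      exact isConj_iff.2 ⟨(whH v C (FreeGroup.mk p))⁻¹, by group⟩
    refine h5.trans ?_
    rw [h3]
    exact (isConj_iff.2 ⟨mvE v (C z), rfl⟩).symm

end Pool.Agent.MP_28624d_gt.L4

end

section

/-!
Elements of proper free factors satisfy Sep; invariance of Sep.
-/

namespace Pool.Agent.MP_28624d_gt.L4

open FreeGroup

/-- Take the image of Y. -/
theorem sep_map (e : F ≃* F) {w : F} (h : Sep w) : Sep (e w) := by
  obtain ⟨Y, h1, h2, h3, h4⟩ := h
  have hs : ∀ s : Set F, s ⊆ Set.range e.symm := fun s x _ => e.symm.surjective x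
  refine ⟨e.symm ⁻¹' Y, fun t => ?_, h2.preimage (hs _), h3.preimage (hs _), fun g => ?_⟩
  · refine ((h1 (e.symm t)).preimage e.symm.injective.injOn).subset fun g hg => ?_
    simpa using hg
  · simpa using h4 (e.symm g)

/-- Special case of sep_map with an inner automorphism. -/
theorem sep_conj {w w' : F} (hc : IsConj w w') (h : Sep w) : Sep w' := by
  obtain ⟨c, rfl⟩ := isConj_iff.1 hc
  exact sep_map (MulAut.conj c) h

/-- Left translation of functions. -/
def sfL : F →* Equiv.Perm (F → ℤ) where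
  toFun g := ⟨fun f x => f (g⁻¹ * x), fun f x => f (g * x), fun f => by simp, fun f => by simp⟩
  map_one' := by ext f x; simp
  map_mul' g h := by ext f x; simp [mul_assoc]

/-- The same action with the origin moved by the indicator function of the unit. -/
def sfR : F →* Equiv.Perm (F → ℤ) :=
  (MulAut.conj (Equiv.subRight (Pi.single 1 1))).toMonoidHom.comp sfL

theorem sfL_apply (g : F) (f : F → ℤ) (x : F) : sfL g f x = f (g⁻¹ * x) := rfl

theorem sfR_apply (g : F) (f : F → ℤ) (x : F) :
    sfR g f x = f (g⁻¹ * x) + ((Pi.single 1 1 : F → ℤ) (g⁻¹ * x) - (Pi.single 1 1 : F → ℤ) x) := by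
  simp [sfR, sfL_apply, Equiv.Perm.inv_def, add_sub_assoc]

theorem sf_inf {a : F} (ha : a ≠ 1) {s : Set F} (h : ∀ n : ℕ, a ^ (n + 1) ∈ s) : s.Infinite :=
  Set.infinite_of_injective_forall_mem (f := fun n : ℕ => a ^ (n + 1))
    (fun m n e => by
      have := injective_pow_iff_not_isOfFinOrder.2 (not_isOfFinOrder_of_isMulTorsionFree ha) e
      omega) h

/-- An affine action that agrees with one of the two actions on each generator. -/
theorem sf_main (ρ : F →* Equiv.Perm (F → ℤ))
    (hg : Subgroup.closure {g | ρ g = sfL g ∨ ρ g = sfR g} = ⊤) {a b w : F} (ha : a ≠ 1)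
    (ha' : ρ a = sfL a) (hb : b ≠ 1) (hb' : ρ b = sfR b) (hw : ρ w = sfL w) : Sep w := by
  have key : ∀ g : F, ∃ d : F → ℤ, (Function.support d).Finite ∧
      ∀ f x, ρ g f x = f (g⁻¹ * x) + d x := by
    have sh : ∀ (g : F) (d : F → ℤ), (Function.support d).Finite →
        (Function.support fun x => d (g * x)).Finite := fun g d hd =>
      hd.preimage (mul_right_injective g).injOn
    have s1 : (Function.support (Pi.single 1 1 : F → ℤ)).Finite :=
      (Set.finite_singleton _).subset Pi.support_single_subset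
    intro g
    have : g ∈ Subgroup.closure {g | ρ g = sfL g ∨ ρ g = sfR g} := hg ▸ Subgroup.mem_top g
    induction this using Subgroup.closure_induction with
    | mem g h =>
      rcases h with h | h
      · exact ⟨0, by simp, fun f x => by simp [h, sfL_apply]⟩
      · exact ⟨_, ((sh g⁻¹ _ s1).union s1).subset (Function.support_sub _ _),
          fun f x => by rw [h, sfR_apply]⟩
    | one => exact ⟨0, by simp, fun f x => by simp⟩
    | mul g h _ _ h1 h2 =>
      obtain ⟨d, hd, e⟩ := h1
      obtain ⟨d', hd', e'⟩ := h2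
      exact ⟨fun x => d' (g⁻¹ * x) + d x, ((sh g⁻¹ _ hd').union hd).subset (Function.support_add _ _),
        fun f x => by simp [e, e', mul_assoc, add_assoc]⟩
    | inv g _ h1 =>
      obtain ⟨d, hd, e⟩ := h1
      refine ⟨fun x => -d (g * x), by simpa using sh g _ hd, fun f x => ?_⟩
      have := e (ρ g⁻¹ f) (g * x)
      rw [← Equiv.Perm.mul_apply, ← ρ.map_mul, mul_inv_cancel, ρ.map_one, inv_mul_cancel_left] at this
      rw [inv_inv]
      exact (eq_add_neg_iff_add_eq.2 this.symm)
  have co : ∀ g t : F, ρ (g * t) 0 1 = ρ t 0 g⁻¹ + ρ g 0 1 := fun g t => by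
    obtain ⟨d, -, e⟩ := key g
    simp [e]
  refine ⟨{g | ρ g 0 1 ≠ 0}, fun t => ?_, sf_inf hb fun n => ?_, sf_inf ha fun n => ?_, fun g => ?_⟩
  · obtain ⟨d, hd, e⟩ := key t
    refine (hd.preimage inv_injective.injOn).subset fun g h h0 => h ?_
    simp only [Set.mem_ofPred_eq, co, e]
    simp [show d g⁻¹ = 0 from h0]
  · have : (b ^ (n + 1))⁻¹ ≠ 1 := inv_ne_one.2 fun e =>
      not_isOfFinOrder_of_isMulTorsionFree hb (isOfFinOrder_iff_pow_eq_one.2 ⟨n + 1, by omega, e⟩)
    simp only [Set.mem_ofPred_eq]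
    rw [map_pow, hb', ← map_pow, sfR_apply]
    simp [Pi.single_eq_of_ne this]
  · simp only [Set.mem_compl_iff, Set.mem_ofPred_eq, not_not]
    rw [map_pow, ha', ← map_pow, sfL_apply]
    rfl
  · simp only [Set.mem_ofPred_eq, co, hw, sfL_apply]
    simp

/-- F acts on integer functions by translation on A and by translation with moved origin on B;
Y is the set of g for which the image of the zero function does not vanish at the unit. -/
theorem sep_of_factor {A : Subgroup F} (hA : IsFreeFactor A) (hne : A ≠ ⊤) {w : F} (hw : w ∈ A) :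
    Sep w := by
  by_cases h0 : A = ⊥
  · obtain rfl : w = 1 := by simpa [h0] using hw
    refine sf_main (FreeGroup.lift fun i => if i = 0 then sfL (of i) else sfR (of i)) ?_
      (a := of 0) (b := of 1) (of_ne_one _) (by simp) (of_ne_one _) (by simp) (by simp)
    rw [eq_top_iff, ← FreeGroup.closure_range_of]
    refine Subgroup.closure_mono ?_
    rintro _ ⟨i, rfl⟩
    by_cases h : i = 0 <;> simp [h]
  obtain ⟨B, hB⟩ := hA
  have top : A ⊔ B = ⊤ := by
    simpa [Monoid.Coprod.range_lift] using MonoidHom.range_eq_top.2 hB.2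
  have h1 : B ≠ ⊥ := fun h => hne (by simpa [h] using top)
  obtain ⟨⟨a, ha⟩, ha'⟩ := (Subgroup.ne_bot_iff_exists_ne_one.1 h0)
  obtain ⟨⟨b, hb⟩, hb'⟩ := (Subgroup.ne_bot_iff_exists_ne_one.1 h1)
  let e := MulEquiv.ofBijective _ hB
  let ρ : F →* Equiv.Perm (F → ℤ) :=
    (Monoid.Coprod.lift (sfL.comp A.subtype) (sfR.comp B.subtype)).comp e.symm.toMonoidHom
  have rA : ∀ g ∈ A, ρ g = sfL g := fun g hg => by
    have : e.symm g = Monoid.Coprod.inl ⟨g, hg⟩ := e.symm_apply_eq.2 (by simp [e])
    simp [ρ, this]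
  have rB : ∀ g ∈ B, ρ g = sfR g := fun g hg => by
    have : e.symm g = Monoid.Coprod.inr ⟨g, hg⟩ := e.symm_apply_eq.2 (by simp [e])
    simp [ρ, this]
  refine sf_main ρ ?_ (fun h => ha' (Subtype.ext h)) (rA a ha) (fun h => hb' (Subtype.ext h))
    (rB b hb) (rA w hw)
  rw [eq_top_iff, ← top, Subgroup.sup_eq_closure]
  exact Subgroup.closure_mono fun g hg => hg.imp (rA g) (rB g)

end Pool.Agent.MP_28624d_gt.L4

end

section

/-!
The cut vertex lemma of Whitehead.
-/

namespace Pool.Agent.MP_28624d_gt.L4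

open FreeGroup

/-- All long enough reduced continuations of u are in Y exactly when s holds. -/
def wh_A (Y : Set F) (u : List L) (s : Prop) : Prop :=
  ∃ n : ℕ, ∀ t : List L, List.IsChain Rd (u ++ t) → n ≤ t.length →
    (FreeGroup.mk (u ++ t) ∈ Y ↔ s)

theorem wh_rd (a b : L) : Rd a b ↔ (a.1 = b.1 → a.2 = b.2) := by
  unfold Rd iv
  revert a b
  decide

theorem wh_red (u : List L) : List.IsChain Rd u ↔ FreeGroup.IsReduced u := by
  unfold FreeGroup.IsReduced
  exact ⟨fun h => h.imp fun a b hab => (wh_rd a b).1 hab,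
    fun h => h.imp fun a b hab => (wh_rd a b).2 hab⟩

theorem wh_toWord {u : List L} (h : List.IsChain Rd u) : (FreeGroup.mk u).toWord = u := by
  rw [toWord_mk, ((wh_red u).1 h).reduce_eq]

theorem wh_ivv (x : L) : iv (iv x) = x := by
  unfold iv
  simp

theorem wh_iv_ne (x : L) : iv x ≠ x := by
  revert x
  unfold iv
  decide

theorem wh_same_gen {x y : L} (h : y.1 = x.1) : y = x ∨ y = iv x := by
  revert x y
  unfold iv
  decide

theorem wh_ball (n : ℕ) : {g : F | g.toWord.length < n}.Finite := by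
  have h := List.finite_length_lt L n
  exact Set.Finite.of_finite_image (f := fun g : F => g.toWord)
    (h.subset (by rintro _ ⟨g, hg, rfl⟩; exact hg)) toWord_injective.injOn

theorem wh_long {Y : Set F} (hY : ∀ t : F, {g | ¬ (g ∈ Y ↔ g * t ∈ Y)}.Finite) :
    ∃ N : ℕ, ∀ u : List L, List.IsChain Rd u → N ≤ u.length → ∃ s : Prop, wh_A Y u s := by
  have hE : (⋃ x : L, {g | ¬ (g ∈ Y ↔ g * FreeGroup.mk [x] ∈ Y)}).Finite :=
    Set.finite_iUnion fun x => hY _
  obtain ⟨N, hN⟩ := (hE.image fun g : F => g.toWord.length).bddAbove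
  refine ⟨N + 1, fun u _ hu => ⟨FreeGroup.mk u ∈ Y, 0, fun t ht _ => ?_⟩⟩
  induction t using List.reverseRecOn with
  | nil => simp
  | append_singleton t x ih =>
    have hc : List.IsChain Rd (u ++ t) := by
      rw [← List.append_assoc] at ht
      exact ht.left_of_append
    rw [← ih hc (Nat.zero_le _), ← List.append_assoc, ← mul_mk]
    by_contra hne
    have hm : (FreeGroup.mk (u ++ t) : F) ∈
        ⋃ x : L, {g | ¬ (g ∈ Y ↔ g * FreeGroup.mk [x] ∈ Y)} :=
      Set.mem_iUnion.2 ⟨x, fun h => hne h.symm⟩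
    have := hN (Set.mem_image_of_mem _ hm)
    simp only [wh_toWord hc, List.length_append] at this
    omega

theorem wh_nil {Y : Set F} (h1 : Y.Infinite) (h2 : Yᶜ.Infinite) : ¬ ∃ s : Prop, wh_A Y [] s := by
  rintro ⟨s, n, hn⟩
  have key : ∀ g : F, ¬ g.toWord.length < n → (g ∈ Y ↔ s) := fun g hg => by
    have := hn g.toWord (by simpa using (wh_red _).2 isReduced_toWord) (by omega)
    simpa [mk_toWord] using this
  by_cases hs : s
  · refine h2 ((wh_ball n).subset fun g hg => ?_)
    by_contra hc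
    exact hg ((key g hc).2 hs)
  · refine h1 ((wh_ball n).subset fun g hg => ?_)
    by_contra hc
    exact hs ((key g hc).1 hg)

theorem wh_max {Y : Set F} (hY : ∀ t : F, {g | ¬ (g ∈ Y ↔ g * t ∈ Y)}.Finite)
    (h1 : Y.Infinite) (h2 : Yᶜ.Infinite) :
    ∃ u : List L, List.IsChain Rd u ∧ (¬ ∃ s : Prop, wh_A Y u s) ∧
      ∀ x : L, List.IsChain Rd (u ++ [x]) → ∃ s : Prop, wh_A Y (u ++ [x]) s := by
  obtain ⟨N, hN⟩ := wh_long hY
  by_contra hc
  have key : ∀ k : ℕ, ∃ u : List L, List.IsChain Rd u ∧ u.length = k ∧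
      ¬ ∃ s : Prop, wh_A Y u s := by
    intro k
    induction k with
    | zero => exact ⟨[], List.isChain_nil, rfl, wh_nil h1 h2⟩
    | succ k ih =>
      obtain ⟨u, hu, hk, hp⟩ := ih
      by_contra hd
      refine hc ⟨u, hu, hp, fun x hx => ?_⟩
      by_contra he
      exact hd ⟨u ++ [x], hx, by simp [hk], he⟩
  obtain ⟨u, hu, hk, hp⟩ := key N
  exact hp (hN u hu hk.ge)

theorem wh_join {Y : Set F} {u : List L} {s : Prop}
    (h : ∀ x : L, List.IsChain Rd (u ++ [x]) → wh_A Y (u ++ [x]) s) : wh_A Y u s := by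
  classical
  have h' : ∀ x : L, ∃ n : ℕ, List.IsChain Rd (u ++ [x]) → ∀ t : List L,
      List.IsChain Rd (u ++ [x] ++ t) → n ≤ t.length →
        (FreeGroup.mk (u ++ [x] ++ t) ∈ Y ↔ s) := fun x => by
    by_cases hx : List.IsChain Rd (u ++ [x])
    · obtain ⟨n, hn⟩ := h x hx
      exact ⟨n, fun _ => hn⟩
    · exact ⟨0, fun h => absurd h hx⟩
  choose n hn using h'
  refine ⟨Finset.univ.sup n + 1, fun t ht hl => ?_⟩
  cases t with
  | nil => simp at hl
  | cons x t =>
    have e : u ++ x :: t = u ++ [x] ++ t := by simp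
    rw [e] at ht ⊢
    refine hn x ht.left_of_append t ht ?_
    have : n x ≤ Finset.univ.sup n := Finset.le_sup (Finset.mem_univ x)
    simp only [List.length_cons] at hl
    omega

theorem wh_shift {Y : Set F} {u : List L} {x : L} {s : Prop} (hx : List.IsChain Rd (u ++ [x]))
    (h : wh_A Y (u ++ [x]) s) : wh_A {g | FreeGroup.mk u * g ∈ Y} [x] s := by
  obtain ⟨n, hn⟩ := h
  refine ⟨n, fun t ht hl => ?_⟩
  have := hn t (hx.append_overlap ht (by simp)) hl
  rw [List.append_assoc] at this
  rw [Set.mem_ofPred_eq, mul_mk]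
  exact this

theorem wh_six (σ : L → Bool) (x y : L) (hx : σ x = true) (hy : σ y = false) :
    ∃ v : L, (∃ x, x ≠ v ∧ σ x = true) ∧ ∃ y, y ≠ v ∧ σ y = false := by
  have : ∃ v : L, v ≠ x ∧ v ≠ y := by
    clear hx hy
    revert x y
    decide
  obtain ⟨v, h1, h2⟩ := this
  exact ⟨v, ⟨x, h1.symm, hx⟩, y, h2.symm, hy⟩

/-- Step (1). -/
theorem wh_one {w : F} (hs : Sep w) :
    ∃ (Y : Set F) (v : L) (σ : L → Bool), (∀ g : F, g ∈ Y ↔ g * w ∈ Y) ∧
      (∀ x, x ≠ v → wh_A Y [x] (σ x = true)) ∧ (∃ x, x ≠ v ∧ σ x = true) ∧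
        ∃ y, y ≠ v ∧ σ y = false := by
  classical
  obtain ⟨Y, hY, h1, h2, hw⟩ := hs
  obtain ⟨u, hu, hp, hx⟩ := wh_max hY h1 h2
  have h' : ∀ x : L, ∃ b : Bool, List.IsChain Rd (u ++ [x]) → wh_A Y (u ++ [x]) (b = true) :=
    fun x => by
      by_cases hc : List.IsChain Rd (u ++ [x])
      · obtain ⟨s, hs⟩ := hx x hc
        exact ⟨decide s, fun _ => by simpa using hs⟩
      · exact ⟨true, fun h => absurd h hc⟩
  choose σ hσ using h'
  have ht : ∃ x, List.IsChain Rd (u ++ [x]) ∧ σ x = true := by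
    by_contra hc
    refine hp ⟨False, wh_join fun x hx => ?_⟩
    have := hσ x hx
    have e : ¬ σ x = true := fun h => hc ⟨x, hx, h⟩
    simpa [e] using this
  have hf : ∃ x, List.IsChain Rd (u ++ [x]) ∧ σ x = false := by
    by_contra hc
    refine hp ⟨True, wh_join fun x hx => ?_⟩
    have := hσ x hx
    have e : σ x = true := by
      by_contra h
      exact hc ⟨x, hx, by simpa using h⟩
    simpa [e] using this
  obtain ⟨x, hx1, hx2⟩ := ht
  obtain ⟨y, hy1, hy2⟩ := hf
  have hinv : ∀ g : F, g ∈ {g | FreeGroup.mk u * g ∈ Y} ↔ g * w ∈ {g | FreeGroup.mk u * g ∈ Y} :=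
    fun g => by
      simp only [Set.mem_ofPred_eq, ← mul_assoc]
      exact hw _
  rcases List.eq_nil_or_concat u with rfl | ⟨u', a, rfl⟩
  · obtain ⟨v, hv1, hv2⟩ := wh_six σ x y hx2 hy2
    exact ⟨_, v, σ, hinv, fun z _ => wh_shift (by simp) (hσ z (by simp)), hv1, hv2⟩
  · rw [List.concat_eq_append] at *
    have hval : ∀ z : L, List.IsChain Rd (u' ++ [a] ++ [z]) ↔ z ≠ iv a := fun z => by
      rw [List.append_assoc, List.singleton_append, List.isChain_append_cons_cons]
      simp [hu, Rd]
    exact ⟨_, iv a, σ, hinv, fun z hz => wh_shift ((hval z).2 hz) (hσ z ((hval z).2 hz)),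
      ⟨x, (hval x).1 hx1, hx2⟩, y, (hval y).1 hy1, hy2⟩

/-- The n-th power of a word. -/
def wh_pw (l : List L) : ℕ → List L
  | 0 => []
  | n + 1 => l ++ wh_pw l n

theorem wh_pw_comm (l : List L) (n : ℕ) : wh_pw l n ++ l = l ++ wh_pw l n := by
  induction n with
  | zero => simp [wh_pw]
  | succ n ih => simp only [wh_pw, List.append_assoc, ih]

theorem wh_pw_mk (l : List L) (n : ℕ) : (FreeGroup.mk (wh_pw l n) : F) = FreeGroup.mk l ^ n := by
  induction n with
  | zero => rfl
  | succ n ih => rw [wh_pw, ← mul_mk, ih, pow_succ']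

theorem wh_pw_len {l : List L} (hl : l ≠ []) (n : ℕ) : n ≤ (wh_pw l n).length := by
  induction n with
  | zero => simp
  | succ n ih =>
    have := List.length_pos_of_ne_nil hl
    simp only [wh_pw, List.length_append]
    omega

theorem wh_pw_chain {l : List L} (hl : Cyc Rd l) (n : ℕ) : List.IsChain Rd (l ++ wh_pw l n) := by
  induction n with
  | zero => simpa [wh_pw] using hl.2.left_of_append
  | succ n ih =>
    rw [wh_pw, ← List.append_assoc]
    exact hl.2.append_overlap ih hl.1

theorem wh_invRev {u : List L} (h : List.IsChain Rd u) : List.IsChain Rd (invRev u) := by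
  unfold invRev
  rw [List.isChain_reverse, List.isChain_map]
  refine h.imp fun a b hab => ?_
  revert a b
  unfold Rd iv
  decide

theorem wh_pow {Y : Set F} {w : F} (hw : ∀ g : F, g ∈ Y ↔ g * w ∈ Y) (g : F) (n : ℕ) :
    g ∈ Y ↔ g * w ^ n ∈ Y := by
  induction n with
  | zero => simp
  | succ n ih => rw [ih, pow_succ, ← mul_assoc, ← hw]

/-- Step (2). -/
theorem wh_two {l : List L} (hl : Cyc Rd l) {Y : Set F}
    (hw : ∀ g : F, g ∈ Y ↔ g * FreeGroup.mk l ∈ Y) {a b : L} {p q : List L}
    (e : l ++ l = p ++ a :: b :: q) {s s' : Prop} (h1 : wh_A Y [iv a] s) (h2 : wh_A Y [b] s') :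
    s ↔ s' := by
  obtain ⟨n, hn⟩ := h1
  obtain ⟨m, hm⟩ := h2
  have e2 : (FreeGroup.mk l : F) ^ 2 = FreeGroup.mk (p ++ [a]) * FreeGroup.mk (b :: q) := by
    rw [pow_two, mul_mk, mul_mk, e]
    simp
  have c1 : List.IsChain Rd ([b] ++ (q ++ wh_pw l m)) := by
    have := wh_pw_chain hl (m + 1)
    rw [wh_pw, ← List.append_assoc, e] at this
    refine this.suffix ⟨p ++ [a], by simp⟩
  have c2 : List.IsChain Rd (wh_pw l n ++ p ++ [a]) := by
    have := wh_pw_chain hl (n + 1)
    rw [wh_pw, ← wh_pw_comm, ← List.append_assoc, ← wh_pw_comm, List.append_assoc, e] at this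
    have e' : wh_pw l n ++ (p ++ a :: b :: q) = wh_pw l n ++ p ++ [a] ++ b :: q := by simp
    rw [e'] at this
    exact this.left_of_append
  have e3 : invRev (wh_pw l n ++ p ++ [a]) = [iv a] ++ invRev (wh_pw l n ++ p) := by
    rw [invRev_append]
    rfl
  have k1 := hm _ c1 (by have := wh_pw_len hl.1 m; simp only [List.length_append]; omega)
  have k2 := hn _ (e3 ▸ wh_invRev c2)
    (by have := wh_pw_len hl.1 n; simp only [invRev_length, List.length_append]; omega)
  rw [← e3, ← inv_mk, List.append_assoc, ← mul_mk, wh_pw_mk, wh_pow hw _ n] at k2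
  rw [← List.append_assoc, ← mul_mk, wh_pw_mk, List.singleton_append] at k1
  have e4 : (FreeGroup.mk (b :: q) : F) = (FreeGroup.mk (p ++ [a]))⁻¹ * FreeGroup.mk l ^ 2 := by
    rw [e2]
    group
  rw [e4, ← wh_pow hw, ← wh_pow hw] at k1
  rw [mul_inv_rev, mul_assoc, inv_mul_cancel, mul_one] at k2
  exact k2.symm.trans k1

theorem wh_turn_right {R : L → L → Prop} {l : List L} (hl : Cyc R l) {x : L} (hx : x ∈ l) :
    ∃ b p q, l ++ l = p ++ x :: b :: q := by
  obtain ⟨s, t, e⟩ := List.append_of_mem hx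
  have hne : t ++ l ≠ [] := by simp [hl.1]
  obtain ⟨b, q, e2⟩ := List.exists_cons_of_ne_nil hne
  refine ⟨b, s, q, ?_⟩
  rw [← e2]
  nth_rewrite 1 [e]
  simp

theorem wh_turn_left {R : L → L → Prop} {l : List L} (hl : Cyc R l) {x : L} (hx : x ∈ l) :
    ∃ a p q, l ++ l = p ++ a :: x :: q := by
  obtain ⟨s, t, e⟩ := List.append_of_mem hx
  rcases List.eq_nil_or_concat (l ++ s) with h | ⟨p, a, h⟩
  · exact absurd (List.append_eq_nil_iff.1 h).1 hl.1
  · refine ⟨a, p, t, ?_⟩
    nth_rewrite 2 [e]
    rw [← List.append_assoc, h]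
    simp

theorem wh_const (C : L → Bool) {a : L} {t : List L}
    (h : List.IsChain (fun a b => C a = C b) (a :: t)) : ∀ y ∈ a :: t, C y = C a := by
  induction t generalizing a with
  | nil => simp
  | cons b t ih =>
    rw [List.isChain_cons_cons] at h
    intro y hy
    rcases List.mem_cons.1 hy with rfl | hy
    · rfl
    · rw [ih h.2 y hy, h.1]

/-- Step (3). -/
theorem wh_three {l : List L} (hl : Cyc Rd l) {v x0 : L} {C : L → Bool} (hv : C v = false)
    (hv' : C (iv v) = false) (h0 : C x0 = true) (hs : Cyc (Same C) l) :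
    (∃ i : Fin 3, ∀ x ∈ l, x.1 ≠ i) ∨
      ∃ (v : L) (C : L → Bool), C v = false ∧ C (iv v) = false ∧ Cyc (Cut v C) l ∧
        ¬ Cyc (Same C) l := by
  have hr := List.isChain_iff_forall_rel_of_append_cons_cons.1 hl.2
  have hq := List.isChain_iff_forall_rel_of_append_cons_cons.1 hs.2
  by_cases hA : ∃ x, C x = true ∧ C (iv x) = false
  · obtain ⟨x, hx, hx'⟩ := hA
    by_cases ho : ∀ y ∈ l, y.1 ≠ x.1
    · exact Or.inl ⟨x.1, ho⟩
    · right
      refine ⟨x, fun y => C y && decide (y ≠ x), by simp, by simp [hx'],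
        ⟨hl.1, hs.2.imp fun a b hab => ?_⟩, fun hn => ?_⟩
      · by_cases h1 : iv a = x
        · exact Or.inl h1
        by_cases h2 : b = x
        · exact Or.inr (Or.inl h2)
        refine Or.inr (Or.inr ?_)
        unfold Same at hab ⊢
        simp [h1, h2, hab]
      · have hn' := List.isChain_iff_forall_rel_of_append_cons_cons.1 hn.2
        push Not at ho
        obtain ⟨y, hy, hyx⟩ := ho
        rcases wh_same_gen hyx with rfl | rfl
        · obtain ⟨a, p, q, e⟩ := wh_turn_left hl hy
          have k1 : y ≠ iv a := hr e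
          have k2 : C (iv a) = C y := hq e
          have k3 := hn' e
          unfold Same at k3
          simp [k2, hx, k1.symm] at k3
        · obtain ⟨b, p, q, e⟩ := wh_turn_right hl hy
          have k1 : b ≠ iv (iv x) := hr e
          have k2 : C (iv (iv x)) = C b := hq e
          have k3 := hn' e
          unfold Same at k3
          rw [wh_ivv] at k1 k2 k3
          simp [← k2, hx, k1] at k3
  · have hc : ∀ x, C (iv x) = C x := fun x => by
      have k1 : ¬ (C x = true ∧ C (iv x) = false) := fun h => hA ⟨x, h⟩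
      have k2 : ¬ (C (iv x) = true ∧ C (iv (iv x)) = false) := fun h => hA ⟨iv x, h⟩
      rw [wh_ivv] at k2
      cases h1 : C x <;> cases h2 : C (iv x) <;> simp_all
    obtain ⟨a, t, rfl⟩ := List.exists_cons_of_ne_nil hl.1
    have hk := wh_const C (a := a) (t := t)
      (hs.2.left_of_append.imp fun a b hab => by rw [← hc a]; exact hab)
    left
    cases h : C a
    · refine ⟨x0.1, fun y hy hyx => ?_⟩
      have k := hk y hy
      rcases wh_same_gen hyx with rfl | rfl
      · simp [h, h0] at k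
      · simp [h, h0, hc] at k
    · refine ⟨v.1, fun y hy hyx => ?_⟩
      have k := hk y hy
      rcases wh_same_gen hyx with rfl | rfl
      · simp [h, hv] at k
      · simp [h, hv'] at k

/-- Plan. Let Cone u be the set of g whose reduced word starts with the reduced word u; call a set
pure if it is contained in Y or in the complement of Y up to a finite set. Since only finitely
many edges g, g x of the Cayley tree have exactly one end in Y, Cone u is pure for all long u.
(1) There are a vertex u and a letter v such that the five half trees u * Cone [x], x ≠ v, are pure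
with both signs occurring: take a longest u with Cone u not pure (v the inverse of its last
letter), or, if all six Cone [x] are pure, u = 1 and v in a sign class with at least two letters.
Replace Y by u⁻¹ Y. Let C0 be the sign class among the five letters that does not contain iv v.
(2) For a turn a, b of l rotate l to l' = b :: ... ++ [a]; mk l' = q⁻¹ w q, and the points
(mk l')^n q⁻¹, n in Z, are all in Y or all outside; for large n they are pairwise different points
of Cone [b], for large -n of Cone [iv a]. So every turn satisfies Cut v C0.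
(3) If some turn is not Same C0 we are done. Otherwise all turns are Same C0: if some x has
C0 x = true, C0 (iv x) = false and the generator of x occurs in l, use v' = x and C0 without x
(then x or iv x occurs, both occur in the sense that the Whitehead vertex x has an edge because
the word is cyclic); if it does not occur we are in the first case; if C0 is closed under iv, all
letters of l are on one side and a generator of the other side is omitted. -/
theorem whitehead {l : List L} (hl : Cyc Rd l) (hs : Sep (FreeGroup.mk l)) :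
    (∃ i : Fin 3, ∀ x ∈ l, x.1 ≠ i) ∨
      ∃ (v : L) (C : L → Bool), C v = false ∧ C (iv v) = false ∧ Cyc (Cut v C) l ∧
        ¬ Cyc (Same C) l := by
  obtain ⟨Y, v, σ, hw, hA, ⟨x, hx, hx'⟩, y, hy, hy'⟩ := wh_one hs
  set C : L → Bool := fun z => decide (z ≠ v) && decide (σ z ≠ σ (iv v)) with hC
  have hv : C v = false := by simp [hC]
  have hv' : C (iv v) = false := by simp [hC]
  have h0 : ∃ z, C z = true := by
    cases h : σ (iv v)
    · exact ⟨x, by simp [hC, h, hx, hx']⟩
    · exact ⟨y, by simp [hC, h, hy, hy']⟩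
  obtain ⟨x0, h0⟩ := h0
  by_cases hsame : Cyc (Same C) l
  · exact wh_three hl hv hv' h0 hsame
  · refine Or.inr ⟨v, C, hv, hv', ⟨hl.1, ?_⟩, hsame⟩
    rw [List.isChain_iff_forall_rel_of_append_cons_cons]
    intro a b p q e
    by_cases h1 : iv a = v
    · exact Or.inl h1
    by_cases h2 : b = v
    · exact Or.inr (Or.inl h2)
    refine Or.inr (Or.inr ?_)
    have k := wh_two hl hw e (hA _ h1) (hA _ h2)
    have k' : σ (iv a) = σ b := by
      cases h3 : σ (iv a) <;> cases h4 : σ b <;> simp_all
    unfold Same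
    simp [hC, h1, h2, k']

end Pool.Agent.MP_28624d_gt.L4

end

section

/-!
Soundness of the finite state machine.
-/

namespace Pool.Agent.MP_28624d_gt.L4

open Matrix

theorem good_conj {g : G} (a : G) (h : Good g.1) : Good (a * g * a⁻¹ : G).1 := by
  obtain ⟨p, q, x, y, b, b', hb, hpq, hv⟩ := h
  have h1 : (a⁻¹ : G).1 * a.1 = 1 := by
    rw [← Matrix.SpecialLinearGroup.coe_mul, inv_mul_cancel, Matrix.SpecialLinearGroup.coe_one]
  refine ⟨p, q, x, y, b * (a⁻¹ : G).1, a.1 * b', ?_, hpq, fun v h0 hq => ?_⟩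
  · rw [Matrix.mul_assoc, ← Matrix.mul_assoc _ a.1, h1, Matrix.one_mul, hb]
  · have e : b * (a⁻¹ : G).1 * (a * g * a⁻¹ : G).1 * (a.1 * b') = b * g.1 * b' := by
      rw [Matrix.SpecialLinearGroup.coe_mul, Matrix.SpecialLinearGroup.coe_mul]
      calc b * (a⁻¹ : G).1 * (a.1 * g.1 * (a⁻¹ : G).1) * (a.1 * b')
          = b * ((a⁻¹ : G).1 * a.1) * g.1 * ((a⁻¹ : G).1 * a.1) * b' := by
            simp only [Matrix.mul_assoc]
        _ = b * g.1 * b' := by rw [h1, Matrix.mul_one, Matrix.mul_one]
    rw [e]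
    exact hv v h0 hq

theorem st_conj (σ : F →* G) {w w' : F} (hc : IsConj w' w) (h : Good (σ w').1) :
    Good (σ w).1 := by
  obtain ⟨c, rfl⟩ := isConj_iff.1 hc
  rw [map_mul, map_mul, map_inv]
  exact good_conj _ h

theorem st_link {P : (F →* G) → Prop}
    (hP : ∀ σ, P σ → ∀ (k : ℤ) (j : ℕ), j < 16 →
      P ((σ.comp (phi ^ k).toMonoidHom).comp (kapG j).hom))
    {src tgt : Bs} {pre : L → List L} {A : Lk} (h : lkOK src pre tgt A = true)
    (ψ : F →* F) (hψ : ∀ i : Fin 3, ψ (FreeGroup.of i) = FreeGroup.mk (pre (i, true)))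
    {σ : F →* G} (hσ : P σ) {w : F} {l' : List L} (hc : IsConj (ψ w) (FreeGroup.mk l'))
    (hg : ∀ τ, P τ → Good (τ (tgt.hom (FreeGroup.mk (l'.map A.pi)))).1) :
    Good (σ (src.hom w)).1 := by
  obtain ⟨hj, hw⟩ := lkOK_sound h ψ hψ
  rw [hw w, map_mul, map_mul, map_inv]
  refine good_conj _ ?_
  have h1 := hg _ (hP σ hσ A.k A.j hj)
  rw [← piH_mk] at h1
  exact st_conj ((σ.comp (phi ^ A.k).toMonoidHom).comp (kapG A.j).hom)
    (tgt.hom.map_isConj (A.piH.map_isConj hc.symm)) h1

theorem st_sub {R : L → L → Bool} {A : Lk} {m : ℕ} (h : subR R A m = true) {l : List L}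
    (hl : Cyc (fun a b => R a b = true) l) :
    Cyc (fun a b => tb m a b = true) (l.map A.pi) := by
  refine cyc_map A.pi (fun a b hab => ?_) hl
  have h1 := (all2_iff _).1 h a b
  simpa [hab] using h1

theorem st_prune {R : L → L → Bool} {t : ℕ} (h : trOK R t = true) {l : List L}
    (hl : Cyc (fun a b => R a b = true) l) : Cyc (fun a b => pr R t a b = true) l := by
  obtain ⟨h1, h2⟩ := trOK_sound h
  refine cyc_mono (fun a b hab => ?_) (cyc_prune (T := fun a b => tb t a b = true) h1 h2 hl)
  simp [pr, hab.1, hab.2]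

theorem st_empty {R : L → L → Bool} (h : (all2 fun x y => !R x y) = true) {l : List L}
    (hl : Cyc (fun a b => R a b = true) l) : False := by
  obtain ⟨a, b, hab⟩ := cyc_exists hl
  have h1 := (all2_iff _).1 h a b
  simp [hab] at h1

theorem st_leaf {P : (F →* G) → Prop} (hN : ∀ σ, P σ → NearI eps σ)
    (hP : ∀ σ, P σ → ∀ (k : ℤ) (j : ℕ), j < 16 →
      P ((σ.comp (phi ^ k).toMonoidHom).comp (kapG j).hom))
    {hs : List (Bs × List (ℕ × Tr))} (hv : ∀ g ∈ hs, ∀ c ∈ g.2, Valid g.1 c.1)
    {src : Bs} {pre : L → List L} {R : L → L → Bool} {a : Act}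
    (h : leafOK hs src pre R a = true)
    (ψ : F →* F) (hψ : ∀ i : Fin 3, ψ (FreeGroup.of i) = FreeGroup.mk (pre (i, true)))
    {σ : F →* G} (hσ : P σ) {w : F} {l' : List L} (hc : IsConj (ψ w) (FreeGroup.mk l'))
    (hl : Cyc (fun a b => R a b = true) l') : Good (σ (src.hom w)).1 := by
  unfold leafOK at h
  split at h
  · exact absurd h (by simp)
  · rename_i g hg
    split at h
    · exact absurd h (by simp)
    · rename_i c hc'
      rw [Bool.and_eq_true] at h
      exact st_link hP h.2 ψ hψ hσ hc fun τ hτ =>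
        hv g (List.mem_of_getElem? hg) c (List.mem_of_getElem? hc') τ (hN τ hτ) _ (st_sub h.1 hl)

theorem st_next {sts : List (Bs × ℕ)} {src : Bs} {pre : L → List L} {R : L → L → Bool} {A : Lk}
    {i : ℕ} (h : nextOK sts src pre R A i = true) :
    ∃ t ∈ sts, permOK A = true ∧ subR R A t.2 = true ∧ lkOK src pre t.1 A = true := by
  unfold nextOK at h
  split at h
  · exact absurd h (by simp)
  · rename_i t ht
    rw [Bool.and_eq_true, Bool.and_eq_true] at h
    exact ⟨t, List.mem_of_getElem? ht, h.1.1, h.1.2, h.2⟩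

theorem st_sep {A : Lk} (h : permOK A = true) {l : List L} (hs : Sep (FreeGroup.mk l)) :
    Sep (FreeGroup.mk (l.map A.pi)) := by
  obtain ⟨e, he⟩ := permOK_sound h
  rw [← piH_mk, ← he]
  exact sep_map e hs

theorem st_mv {g : L → L → Bool} {v : L} {cm : ℕ} {a b : L}
    (h : Mv (fun x y => g x y = true) v (cb cm) a b) : mvB g v cm a b = true := by
  unfold mvB
  rcases h with ⟨h1, h2⟩ | ⟨h1, h2, h3, h4⟩ | ⟨h1, h2, h3, h4⟩
  · rw [(eqB_iff _ _).2 h1]
    exact h2
  · simp [h1, h2, h3, h4, eqB]
  · simp [h1, h2, h3, h4, eqB]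

theorem st_cut (v : L) (cm : ℕ) (a b : L) : cutB v cm a b = true ↔ Cut v (cb cm) a b := by
  unfold cutB Cut Same
  rw [Bool.or_eq_true, Bool.or_eq_true, eqL_iff, eqL_iff, eqB_iff, or_assoc]

theorem st_main {P : (F →* G) → Prop} (hN : ∀ σ, P σ → NearI eps σ)
    (hP : ∀ σ, P σ → ∀ (k : ℤ) (j : ℕ), j < 16 →
      P ((σ.comp (phi ^ k).toMonoidHom).comp (kapG j).hom))
    {hs : List (Bs × List (ℕ × Tr))} (hv : ∀ g ∈ hs, ∀ c ∈ g.2, Valid g.1 c.1)
    {sts : List (Bs × ℕ)} (hst : ∀ s ∈ sts, ∃ om ac, stOK hs sts s om ac = true) (n : ℕ) :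
    ∀ l : List L, l.length < n → ∀ s ∈ sts, Cyc (fun a b => tb s.2 a b = true) l →
      Sep (FreeGroup.mk l) → ∀ σ, P σ → Good (σ (s.1.hom (FreeGroup.mk l))).1 := by
  induction n with
  | zero => exact fun l hl => absurd hl (Nat.not_lt_zero _)
  | succ n ih =>
    intro l hlen s hsm hl hsep σ hσ
    obtain ⟨om, ac, hok⟩ := hst s hsm
    unfold stOK at hok
    rw [Bool.and_eq_true, Bool.and_eq_true] at hok
    obtain ⟨⟨k1, k2⟩, k3⟩ := hok
    have hRd : ∀ a b, tb s.2 a b = true → Rd a b := by
      intro a b hab hb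
      have h1 := (all2_iff _).1 k1 a b
      rw [hab, (eqL_iff _ _).2 hb] at h1
      simp at h1
    have hid : ∀ i : Fin 3, MonoidHom.id F (FreeGroup.of i) =
        FreeGroup.mk ((fun x : L => [x]) (i, true)) := fun i => rfl
    rcases whitehead (cyc_mono hRd hl) hsep with ⟨i, hi⟩ | ⟨v, C, h1, h2, hcut, hns⟩
    · obtain ⟨a, -, ha⟩ := List.any_eq_true.1 (List.all_eq_true.1 k2 i (mem_fin3 i))
      rw [Bool.and_eq_true] at ha
      have hom := ha.2
      unfold omOK at hom
      rw [Bool.and_eq_true] at hom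
      have hl2 : Cyc (fun x y => omR s.2 i x y = true) l := by
        refine cyc_mono (fun x y hxy => ?_) (cyc_mem hl)
        have e1 : Nat.beq x.1.val i.val = false :=
          Bool.eq_false_iff.2 fun h => hi x hxy.2.1 (Fin.ext (Nat.eq_of_beq_eq_true h))
        have e2 : Nat.beq y.1.val i.val = false :=
          Bool.eq_false_iff.2 fun h => hi y hxy.2.2 (Fin.ext (Nat.eq_of_beq_eq_true h))
        unfold omR
        rw [hxy.1, e1, e2]
        rfl
      have hl3 := st_prune hom.1 hl2
      have hom2 := hom.2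
      split at hom2
      · exact (st_empty hom2 hl3).elim
      · exact st_leaf hN hP hv hom2 (MonoidHom.id F) hid hσ (IsConj.refl _) hl3
    · obtain ⟨cm, hcm, rfl⟩ := exists_brs v C h1 h2
      obtain ⟨a, -, ha⟩ := List.any_eq_true.1 (List.all_eq_true.1 k3 _ hcm)
      rw [Bool.and_eq_true, Bool.and_eq_true] at ha
      obtain ⟨⟨e1, e2⟩, hact⟩ := ha
      have e1' : a.cm = cm := Nat.eq_of_beq_eq_true e1
      have e2' : a.v = v := (eqL_iff _ _).1 e2
      subst e1' e2'
      unfold actOK at hact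
      rw [Bool.and_eq_true, Bool.and_eq_true, Bool.and_eq_true] at hact
      obtain ⟨⟨⟨t1, t2⟩, t3⟩, t4⟩ := hact
      have hl2 : Cyc (fun x y => (tb s.2 x y && cutB a.v a.cm x y) = true) l := by
        refine cyc_mono (fun x y hxy => ?_) (cyc_and hl hcut)
        rw [Bool.and_eq_true]
        exact ⟨hxy.1, (st_cut _ _ _ _).2 hxy.2⟩
      have hl3 : Cyc (fun x y => tb a.g x y = true) l := by
        refine cyc_mono (fun x y hxy => ?_) (st_prune t1 hl2)
        have h3 := (all2_iff _).1 t2 x y
        rw [hxy] at h3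
        simpa using h3
      have hR : ∀ x y, tb a.g x y = true → Rd x y ∧ Cut a.v (cb a.cm) x y := by
        intro x y hxy
        have h3 := (all2_iff _).1 t3 x y
        rw [hxy, Bool.not_true, Bool.false_or, Bool.and_eq_true] at h3
        exact ⟨hRd x y h3.1, (st_cut _ _ _ _).1 h3.2⟩
      obtain ⟨l', hlt, hmv, hcj⟩ := move h1 h2 hR hl3 hns
      have hmv2 : Cyc (fun x y => mvB (tb a.g) a.v a.cm x y = true) l' :=
        cyc_mono (fun x y hxy => st_mv hxy) hmv
      have hwh : ∀ i : Fin 3, whH a.v (cb a.cm) (FreeGroup.of i) =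
          FreeGroup.mk (whW a.v (cb a.cm) (i, true)) := fun i => whH_letter a.v (cb a.cm) (i, true)
      unfold act1 at t4
      split at t4
      · refine absurd (cyc_mono (fun x y hxy => ?_) hl3) hns
        have h3 := (all2_iff _).1 t4 x y
        rw [hxy, Bool.not_true, Bool.false_or] at h3
        exact (eqB_iff _ _).1 h3
      · exact st_leaf hN hP hv t4 (MonoidHom.id F) hid hσ (IsConj.refl _) hl3
      · rw [Bool.and_eq_true] at t4
        exact (st_empty t4.2 (st_prune t4.1 hmv2)).elim
      · rw [Bool.and_eq_true] at t4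
        exact st_leaf hN hP hv t4.2 _ hwh hσ hcj (st_prune t4.1 hmv2)
      · rw [Bool.and_eq_true] at t4
        obtain ⟨t, ht, p1, p2, p3⟩ := st_next t4.2
        obtain ⟨e, he⟩ := exists_whE h1 h2
        have hsep2 : Sep (FreeGroup.mk l') := sep_conj hcj (he _ ▸ sep_map e hsep)
        exact st_link hP p3 _ hwh hσ hcj fun τ hτ =>
          ih _ (by rw [List.length_map]; omega) t ht (st_sub p2 (st_prune t4.1 hmv2))
            (st_sep p1 hsep2) τ hτ

/-- Plan. By strong induction on the length n: for every state s in sts, every l with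
l.length ≤ n, Cyc (tb s.2) l and Sep (mk l), and every σ with P σ, Good (σ (s.1.hom (mk l))).
Apply whitehead (tb s.2 implies Rd). If a generator is omitted use the action of om (cyc_mem,
cyc_prune with trOK_sound, then cyc_exists or a leaf). Otherwise take cm from exists_brs and the
action a; Cyc (tb a.g) l by cyc_and and cyc_prune. Kind 0 contradicts ¬ Cyc (Same C) l. Kind 1:
lkOK_sound with ψ the identity, cyc_map along a.lk.pi, hP, hN, hv, good_conj. Kinds 2, 3, 4:
move gives l' (Mv implies mvB), prune again; lkOK_sound with ψ = whH v C; IsConj is transported by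
homomorphisms and absorbed by good_conj; in kind 4 the word l'.map a.lk.pi is shorter and Sep by
exists_whE, sep_map, sep_conj, permOK_sound. For the root use exists_cyc and ψ the identity. -/
theorem good_of_check (P : (F →* G) → Prop) (hN : ∀ σ, P σ → NearI eps σ)
    (hP : ∀ σ, P σ → ∀ (k : ℤ) (j : ℕ), j < 16 →
      P ((σ.comp (phi ^ k).toMonoidHom).comp (kapG j).hom))
    {hs : List (Bs × List (ℕ × Tr))} (hv : ∀ g ∈ hs, ∀ c ∈ g.2, Valid g.1 c.1)
    {sts : List (Bs × ℕ)} (hst : ∀ s ∈ sts, ∃ om ac, stOK hs sts s om ac = true)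
    {A : Lk} (hr : rootOK sts A = true) {σ : F →* G} (hσ : P σ) {w : F} (hw : w ≠ 1)
    (hs' : Sep w) : Good (σ w).1 := by
  obtain ⟨l, hl, hc⟩ := exists_cyc hw
  obtain ⟨t, ht, p1, p2, p3⟩ := st_next hr
  have hl2 : Cyc (fun a b => (!eqL b (iv a)) = true) l := by
    refine cyc_mono (fun a b hab => ?_) hl
    rw [Bool.not_eq_true']
    exact Bool.eq_false_iff.2 fun h => hab ((eqL_iff _ _).1 h)
  rw [← hom_idB w]
  exact st_link hP p3 (MonoidHom.id F) (fun i => rfl) hσ hc fun τ hτ =>
    st_main hN hP hv hst _ _ (Nat.lt_succ_self _) t ht (st_sub p2 hl2)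
      (st_sep p1 (sep_conj hc hs')) τ hτ

end Pool.Agent.MP_28624d_gt.L4

end
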