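import Pool.Agent.MP_28624d_gt.L4.LA
import Pool.Agent.MP_28624d_gt.L4.LB

section

/-!
A matrix with a non-real pair of eigenvalues of middle modulus has no strictly invariant cone of
signature (2,2).
-/

namespace Pool.Agent.MP_28624d_gt.L4

open Matrix

theorem nc_rec (w : Circle) (lam : ℝ) (h0 : 0 ≤ lam) (h1 : lam < 1) (Φ : ℂ × ℝ → ℝ)
    (hΦ : Continuous Φ) (hpos : 0 < Φ (1, 0)) :
    ∃ n : ℕ, 0 < Φ ((w : ℂ) ^ (n + 1), lam ^ (n + 1)) := by
  have hU : {p : ℂ × ℝ | 0 < Φ p} ∈ nhds ((1 : ℂ), (0 : ℝ)) :=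
    (isOpen_lt continuous_const hΦ).mem_nhds hpos
  obtain ⟨u, hu, v, hv, huv⟩ := mem_nhds_prod_iff.mp hU
  have hc : MapClusterPt (1 : Circle) Filter.atTop (fun n : ℕ => w ^ n) :=
    mapClusterPt_one_atTop_pow w
  have hcont : Continuous (fun x : Circle => (x : ℂ)) := continuous_subtype_val
  have hu' : ∀ᶠ y : Circle in nhds 1, (y : ℂ) ∈ u := by
    apply hcont.continuousAt.eventually_mem
    simpa using hu
  have hf := hc.frequently hu'
  have he : ∀ᶠ n : ℕ in Filter.atTop, lam ^ n ∈ v :=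
    (tendsto_pow_atTop_nhds_zero_of_lt_one h0 h1).eventually_mem hv
  obtain ⟨n, hn1, hn2, hn3⟩ :=
    (hf.and_eventually (he.and (Filter.eventually_ge_atTop 1))).exists
  obtain ⟨m, rfl⟩ : ∃ m, n = m + 1 := ⟨n - 1, by omega⟩
  refine ⟨m, huv (Set.mk_mem_prod ?_ hn2)⟩
  simpa using hn1

theorem nc_core {V : Type} [NormedAddCommGroup V] [NormedSpace ℝ V] (Q : V → ℝ)
    (hQ : Continuous Q) (hQ0 : Q 0 = 0) (T : V →ₗ[ℝ] V) (E : ℂ → V) (hEc : Continuous E)
    (w : Circle) (hE : ∀ z, T (E z) = E (w * z)) (hinj : ∀ z, z ≠ 0 → E z ≠ 0)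
    (H : ∀ v, v ≠ 0 → Q v ≤ 0 → Q (T v) < 0)
    (e4 : V) (lam : ℝ) (hl0 : 0 ≤ lam) (hl1 : lam < 1) (h4 : T e4 = lam • e4)
    (z4 : ℂ) (hz4 : z4 ≠ 0) (d4 : ℝ) (hq4 : Q (E z4 + d4 • e4) < 0)
    (e1 : V) (mu : ℝ) (hm0 : 0 < mu) (hm1 : mu < 1) (h1 : T e1 = mu⁻¹ • e1)
    (z1 : ℂ) (hz1 : z1 ≠ 0) (d1 : ℝ) (hq1 : 0 < Q (E z1 + d1 • e1)) : False := by
  have hw : (w : ℂ) ≠ 0 := w.coe_ne_zero
  have H' : ∀ v, Q v < 0 → Q (T v) < 0 := by
    intro v hv
    refine H v ?_ hv.le
    rintro rfl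
    rw [hQ0] at hv
    exact lt_irrefl _ hv
  have hA : ∀ z, z ≠ 0 → Q (E z) ≤ 0 → ∀ n : ℕ, Q (E ((w : ℂ) ^ n * z)) ≤ 0 := by
    intro z hz hq n
    induction n with
    | zero => simpa using hq
    | succ n ih =>
      have := H _ (hinj _ (mul_ne_zero (pow_ne_zero n hw) hz)) ih
      rw [hE] at this
      have e : (w : ℂ) ^ (n + 1) * z = w * ((w : ℂ) ^ n * z) := by ring
      rw [e]
      exact this.le
  have hB : ∀ z, z ≠ 0 → Q (E z) ≤ 0 → Q (E z) < 0 := by
    intro z hz hq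
    have h2 : Q (E ((w : ℂ)⁻¹ * z)) ≤ 0 := by
      by_contra hc
      push Not at hc
      obtain ⟨n, hn⟩ := nc_rec w 0 le_rfl zero_lt_one
        (fun p => Q (E (p.1 * ((w : ℂ)⁻¹ * z)))) (by fun_prop) (by simpa using hc)
      have e : (w : ℂ) ^ (n + 1) * ((w : ℂ)⁻¹ * z) = (w : ℂ) ^ n * z := by
        field_simp
        ring
      simp only [e] at hn
      exact absurd (hA z hz hq n) (not_le.mpr hn)
    have := H _ (hinj _ (mul_ne_zero (inv_ne_zero hw) hz)) h2
    rw [hE] at this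
    have e : (w : ℂ) * ((w : ℂ)⁻¹ * z) = z := by field_simp
    rwa [e] at this
  have hC : Q (E z4) ≤ 0 := by
    by_contra hc
    push Not at hc
    obtain ⟨n, hn⟩ := nc_rec w lam hl0 hl1
      (fun p => Q (E (p.1 * z4) + (p.2 * d4) • e4)) (by fun_prop) (by simpa using hc)
    have hk : ∀ k : ℕ, Q (E ((w : ℂ) ^ k * z4) + (lam ^ k * d4) • e4) < 0 := by
      intro k
      induction k with
      | zero => simpa using hq4
      | succ k ih =>
        have := H' _ ih
        rw [map_add, hE, map_smul, h4, smul_smul] at this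
        have e1 : (w : ℂ) ^ (k + 1) * z4 = w * ((w : ℂ) ^ k * z4) := by ring
        have e2 : lam ^ (k + 1) * d4 = lam ^ k * d4 * lam := by ring
        rw [e1, e2]
        exact this
    exact absurd (hk (n + 1)) (not_lt.mpr hn.le)
  have hD : 0 ≤ Q (E z1) := by
    by_contra hc
    push Not at hc
    obtain ⟨n, hn⟩ := nc_rec w⁻¹ mu hm0.le hm1
      (fun p => -Q (E (p.1 * z1) + (p.2 * d1) • e1)) (by fun_prop) (by simpa using hc)
    have hk : ∀ k : ℕ, 0 ≤ Q (E (((w⁻¹ : Circle) : ℂ) ^ k * z1) + (mu ^ k * d1) • e1) := by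
      intro k
      induction k with
      | zero => simpa using hq1.le
      | succ k ih =>
        by_contra hc2
        push Not at hc2
        have := H' _ hc2
        rw [map_add, hE, map_smul, h1, smul_smul] at this
        have e1 : (w : ℂ) * (((w⁻¹ : Circle) : ℂ) ^ (k + 1) * z1) =
            ((w⁻¹ : Circle) : ℂ) ^ k * z1 := by
          rw [Circle.coe_inv, pow_succ', mul_assoc, mul_inv_cancel_left₀ hw]
        have e2 : mu ^ (k + 1) * d1 * mu⁻¹ = mu ^ k * d1 := by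
          field_simp
          ring
        rw [e1, e2] at this
        exact absurd ih (not_le.mpr this)
    have := hk (n + 1)
    simp only at hn
    linarith
  have hpre : IsPreconnected ({(0 : ℂ)}ᶜ : Set ℂ) :=
    (isConnected_compl_singleton_of_one_lt_rank (by simp) 0).isPreconnected
  have hiv := hpre.intermediate_value (a := z4) (b := z1) (by simpa using hz4) (by simpa using hz1)
    (f := fun z => Q (E z)) (hQ.comp hEc).continuousOn
  obtain ⟨z, hz, hz0⟩ := hiv (show (0 : ℝ) ∈ Set.Icc (Q (E z4)) (Q (E z1)) from ⟨hC, hD⟩)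
  have hz' : z ≠ 0 := by simpa using hz
  simp only at hz0
  have := hB z hz' hz0.le
  rw [hz0] at this
  exact lt_irrefl _ this

theorem nc_cont (p q x y : ℝ) : Continuous (QF p q x y) := by
  unfold QF
  fun_prop

theorem nc_neg (p q x y : ℝ) (h : p * q < x ^ 2 + y ^ 2) : ∃ w, QF p q x y w < 0 := by
  rcases lt_trichotomy p 0 with hp | hp | hp
  · exact ⟨![1, 0, 0, 0], by simpa [QF] using hp⟩
  · subst hp
    have hs : 0 < x ^ 2 + y ^ 2 := by simpa using h
    refine ⟨![-((|q| + 1) / (x ^ 2 + y ^ 2)) * x, -((|q| + 1) / (x ^ 2 + y ^ 2)) * y, 1, 0], ?_⟩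
    have e : QF 0 q x y ![-((|q| + 1) / (x ^ 2 + y ^ 2)) * x,
        -((|q| + 1) / (x ^ 2 + y ^ 2)) * y, 1, 0] = q - 2 * (|q| + 1) := by
      simp [QF]
      field_simp
      ring
    rw [e]
    have := le_abs_self q
    have := abs_nonneg q
    linarith
  · refine ⟨![-x / p, -y / p, 1, 0], ?_⟩
    have e : QF p q x y ![-x / p, -y / p, 1, 0] = (p * q - (x ^ 2 + y ^ 2)) / p := by
      simp [QF]
      field_simp
      ring
    rw [e]
    exact div_neg_of_neg_of_pos (by linarith) hp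

theorem nc_exists (p q x y : ℝ) (h : p * q < x ^ 2 + y ^ 2) (u u1 e : Fin 4 → ℝ)
    (hind : ∀ a b d : ℝ, a • u + b • u1 + d • e = 0 → a = 0 ∧ b = 0 ∧ d = 0) :
    ∃ z : ℂ, z ≠ 0 ∧ ∃ d : ℝ, QF p q x y (z.re • u + z.im • u1 + d • e) < 0 := by
  obtain ⟨w, hw⟩ := nc_neg p q x y h
  obtain ⟨Jw, hJ⟩ : ∃ Jw : Fin 4 → ℝ, Jw = ![-w 1, w 0, -w 3, w 2] := ⟨_, rfl⟩
  have hnl : ¬ LinearIndependent ℝ ![w, Jw, u, u1, e] := by
    intro hl
    have := hl.fintype_card_le_finrank
    simp at this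
  obtain ⟨c, hc, i, hi⟩ := Fintype.not_linearIndependent_iff.mp hnl
  simp only [Fin.sum_univ_five] at hc
  have hc' : c 0 • w + c 1 • Jw + c 2 • u + c 3 • u1 + c 4 • e = 0 := hc
  have hab : 0 < c 0 ^ 2 + c 1 ^ 2 := by
    by_contra hn
    have h0 : c 0 = 0 := by nlinarith [sq_nonneg (c 0), sq_nonneg (c 1)]
    have h1 : c 1 = 0 := by nlinarith [sq_nonneg (c 0), sq_nonneg (c 1)]
    rw [h0, h1, zero_smul, zero_smul, zero_add, zero_add] at hc'
    obtain ⟨h2, h3, h4⟩ := hind (c 2) (c 3) (c 4) hc'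
    apply hi
    fin_cases i
    · exact h0
    · exact h1
    · exact h2
    · exact h3
    · exact h4
  have hv : c 2 • u + c 3 • u1 + c 4 • e = -(c 0 • w + c 1 • Jw) := by
    rw [eq_neg_iff_add_eq_zero, ← hc']
    abel
  have hq : QF p q x y (c 2 • u + c 3 • u1 + c 4 • e) < 0 := by
    have e : QF p q x y (-(c 0 • w + c 1 • Jw)) = (c 0 ^ 2 + c 1 ^ 2) * QF p q x y w := by
      have j0 : Jw 0 = -w 1 := by rw [hJ]; rfl
      have j1 : Jw 1 = w 0 := by rw [hJ]; rfl
      have j2 : Jw 2 = -w 3 := by rw [hJ]; rfl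
      have j3 : Jw 3 = w 2 := by rw [hJ]; rfl
      simp only [QF, Pi.neg_apply, Pi.add_apply, Pi.smul_apply, smul_eq_mul, j0, j1, j2, j3]
      ring
    rw [hv, e]
    exact mul_neg_of_pos_of_neg hab hw
  have hcont : Continuous (fun z : ℂ => QF p q x y (z.re • u + z.im • u1 + c 4 • e)) :=
    (nc_cont p q x y).comp (by fun_prop)
  have hop : IsOpen {z : ℂ | QF p q x y (z.re • u + z.im • u1 + c 4 • e) < 0} :=
    isOpen_lt hcont continuous_const
  have hne : ({z : ℂ | QF p q x y (z.re • u + z.im • u1 + c 4 • e) < 0}).Nonempty :=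
    ⟨⟨c 2, c 3⟩, hq⟩
  obtain ⟨z, hz1, hz2⟩ := (dense_compl_singleton (0 : ℂ)).inter_open_nonempty _ hop hne
  exact ⟨z, by simpa using hz2, c 4, hz1⟩

theorem nc_conj {g a a' : Matrix (Fin 4) (Fin 4) ℝ} (ha : a * a' = 1) (h : EigData g) :
    EigData (a * g * a') := by
  obtain ⟨l1, l4, t, s, e1, e4, u, h1, h4, hu, g1, g4, gu, r⟩ := h
  have ha' : a' * a = 1 := mul_eq_one_comm.mp ha
  have hv : ∀ v, a' *ᵥ (a *ᵥ v) = v := by
    intro v
    rw [mulVec_mulVec, ha', one_mulVec]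
  have hn : ∀ v : Fin 4 → ℝ, v ≠ 0 → a *ᵥ v ≠ 0 := by
    intro v hv0 h0
    apply hv0
    rw [← hv v, h0, mulVec_zero]
  have hg : ∀ v, (a * g * a') *ᵥ (a *ᵥ v) = a *ᵥ (g *ᵥ v) := by
    intro v
    rw [← mulVec_mulVec, hv, ← mulVec_mulVec]
  refine ⟨l1, l4, t, s, a *ᵥ e1, a *ᵥ e4, a *ᵥ u, hn _ h1, hn _ h4, hn _ hu, ?_, ?_, ?_, r⟩
  · rw [hg, g1, mulVec_smul]
  · rw [hg, g4, mulVec_smul]
  · rw [hg, hg, gu, mulVec_sub, mulVec_smul, mulVec_smul]

theorem nc_main {g : Matrix (Fin 4) (Fin 4) ℝ} (h : EigData g) (p q x y : ℝ)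
    (hpq : p * q < x ^ 2 + y ^ 2)
    (H : ∀ v : Fin 4 → ℝ, v ≠ 0 → QF p q x y v ≤ 0 → QF p q x y (g *ᵥ v) < 0) : False := by
  obtain ⟨l1, l4, t, s, e1, e4, u, h1, h4, hu, g1, g4, gu, ht, hl4, hl1, hs4, hs1⟩ := h
  have hs : 0 < s := by nlinarith [sq_nonneg t]
  obtain ⟨r, hr, hr2⟩ : ∃ r : ℝ, 0 < r ∧ r ^ 2 = s :=
    ⟨Real.sqrt s, Real.sqrt_pos.mpr hs, Real.sq_sqrt hs.le⟩
  obtain ⟨k, hk, hk2⟩ : ∃ k : ℝ, 0 < k ∧ k ^ 2 = s - t ^ 2 / 4 :=
    ⟨Real.sqrt (s - t ^ 2 / 4), Real.sqrt_pos.mpr (by linarith), Real.sq_sqrt (by linarith)⟩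
  obtain ⟨u1, hu1⟩ : ∃ u1 : Fin 4 → ℝ, g *ᵥ u = (t / 2) • u + k • u1 := by
    refine ⟨k⁻¹ • (g *ᵥ u - (t / 2) • u), ?_⟩
    rw [smul_smul, mul_inv_cancel₀ hk.ne', one_smul]
    abel
  have hu2 : g *ᵥ u1 = (-k) • u + (t / 2) • u1 := by
    have e : k • (g *ᵥ u1) = k • ((-k) • u + (t / 2) • u1) := by
      have e1 : g *ᵥ (g *ᵥ u) = (t / 2) • (g *ᵥ u) + k • (g *ᵥ u1) := by
        conv_lhs => rw [hu1]
        rw [mulVec_add, mulVec_smul, mulVec_smul]
      have e2 : k • (g *ᵥ u1) = (t / 2) • (g *ᵥ u) - s • u := by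
        rw [gu] at e1
        have : k • (g *ᵥ u1) = t • (g *ᵥ u) - s • u - (t / 2) • (g *ᵥ u) := by
          rw [e1]
          abel
        rw [this]
        module
      rw [e2, hu1]
      have e3 : s = k ^ 2 + t ^ 2 / 4 := by linarith
      rw [e3]
      module
    exact smul_right_injective _ hk.ne' e
  have hind2 : ∀ a b : ℝ, a • u + b • u1 = 0 → a = 0 ∧ b = 0 := by
    intro a b hab
    have e1 : g *ᵥ (a • u + b • u1) = 0 := by rw [hab, mulVec_zero]
    rw [mulVec_add, mulVec_smul, mulVec_smul, hu1, hu2] at e1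
    have e2 : (k * (a ^ 2 + b ^ 2)) • u =
        (a * k + b * (t / 2)) • (a • u + b • u1) -
          b • (a • ((t / 2) • u + k • u1) + b • ((-k) • u + (t / 2) • u1)) := by module
    rw [hab, e1, smul_zero, smul_zero, sub_zero] at e2
    have e3 : a ^ 2 + b ^ 2 = 0 := by
      rcases smul_eq_zero.mp e2 with h0 | h0
      · exact (mul_eq_zero.mp h0).resolve_left hk.ne'
      · exact absurd h0 hu
    constructor <;> nlinarith [sq_nonneg a, sq_nonneg b]
  have hind : ∀ (e : Fin 4 → ℝ) (l : ℝ), e ≠ 0 → g *ᵥ e = l • e →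
      ∀ a b d : ℝ, a • u + b • u1 + d • e = 0 → a = 0 ∧ b = 0 ∧ d = 0 := by
    intro e l he hge a b d habd
    have e1 : g *ᵥ (a • u + b • u1 + d • e) = 0 := by rw [habd, mulVec_zero]
    rw [mulVec_add, mulVec_add, mulVec_smul, mulVec_smul, mulVec_smul, hu1, hu2, hge] at e1
    have e2 : (a * (t / 2 - l) - b * k) • u + (a * k + b * (t / 2 - l)) • u1 =
        (a • ((t / 2) • u + k • u1) + b • ((-k) • u + (t / 2) • u1) + d • l • e) -
          l • (a • u + b • u1 + d • e) := by module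
    rw [habd, e1, smul_zero, sub_zero] at e2
    obtain ⟨f1, f2⟩ := hind2 _ _ e2
    have hpos : 0 < (t / 2 - l) ^ 2 + k ^ 2 := by positivity
    have ha : a = 0 := by
      have : a * ((t / 2 - l) ^ 2 + k ^ 2) = 0 := by
        linear_combination (t / 2 - l) * f1 + k * f2
      exact (mul_eq_zero.mp this).resolve_right hpos.ne'
    have hb : b = 0 := by
      have : b * ((t / 2 - l) ^ 2 + k ^ 2) = 0 := by
        linear_combination (t / 2 - l) * f2 - k * f1
      exact (mul_eq_zero.mp this).resolve_right hpos.ne'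
    refine ⟨ha, hb, ?_⟩
    rw [ha, hb] at habd
    have : d • e = 0 := by simpa using habd
    exact (smul_eq_zero.mp this).resolve_right he
  obtain ⟨z4, hz4, d4, hq4⟩ := nc_exists p q x y hpq u u1 e4 (hind e4 l4 h4 g4)
  obtain ⟨z1, hz1, d1, hq1⟩ := nc_exists (-p) (-q) (-x) (-y) (by simpa using hpq) u u1 e1
    (hind e1 l1 h1 g1)
  have hq1' : 0 < QF p q x y (z1.re • u + z1.im • u1 + d1 • e1) := by
    have e : ∀ v, QF (-p) (-q) (-x) (-y) v = -QF p q x y v := by
      intro v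
      unfold QF
      ring
    rw [e] at hq1
    linarith
  have hwn : (⟨t / 2 / r, k / r⟩ : ℂ) ∈ Submonoid.unitSphere ℂ := by
    rw [Submonoid.unitSphere, Submonoid.mem_mk, Subsemigroup.mem_mk, mem_sphere_zero_iff_norm,
      Complex.norm_def, Complex.normSq_mk, Real.sqrt_eq_one]
    field_simp
    linarith
  have hl4r : l4 < r := by nlinarith
  have hl1r : r < l1 := by nlinarith
  refine nc_core (QF p q x y) (nc_cont p q x y) (by simp [QF]) (r⁻¹ • Matrix.mulVecLin g)
    (fun z => z.re • u + z.im • u1) (by fun_prop) ⟨⟨t / 2 / r, k / r⟩, hwn⟩ ?_ ?_ ?_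
    e4 (l4 / r) (by positivity) ((div_lt_one hr).mpr hl4r) ?_ z4 hz4 d4 hq4
    e1 (r / l1) (by positivity) ((div_lt_one hl1).mpr hl1r) ?_ z1 hz1 d1 hq1'
  · intro z
    simp only [LinearMap.smul_apply, Matrix.mulVecLin_apply, mulVec_add, mulVec_smul, hu1, hu2,
      Complex.mul_re, Complex.mul_im, div_eq_mul_inv]
    module
  · intro z hz h0
    obtain ⟨f1, f2⟩ := hind2 _ _ h0
    exact hz (Complex.ext f1 f2)
  · intro v hv hq
    have := H v hv hq
    have e : QF p q x y ((r⁻¹ • Matrix.mulVecLin g) v) = r⁻¹ ^ 2 * QF p q x y (g *ᵥ v) := by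
      simp only [LinearMap.smul_apply, Matrix.mulVecLin_apply, QF, Pi.smul_apply, smul_eq_mul]
      ring
    rw [e]
    exact mul_neg_of_pos_of_neg (by positivity) this
  · simp only [LinearMap.smul_apply, Matrix.mulVecLin_apply, g4, smul_smul]
    congr 1
    ring
  · simp only [LinearMap.smul_apply, Matrix.mulVecLin_apply, g1, smul_smul]
    congr 1
    field_simp


/-- Plan. EigData is invariant under conjugation, so take a = a' = 1. Write Q for the form.
(0) From p q < x^2 + y^2 there is w with Q w < 0 and w' with Q w' > 0; with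
J v = (-v1, v0, -v3, v2) one has Q (a v + b J v) = (a^2 + b^2) Q v, so Q < 0 on the plane P spanned
by w, J w and Q > 0 on the plane P' spanned by w', J w' (nonzero vectors).
(1) With r = sqrt s, cos th = t / (2 r), u1 = (g u - (t/2) u) / (r sin th) and
e(f) = cos f • u + sin f • u1 one has g e(f) = r e(f + th); u, u1 are independent. The set
S = {f | Q (e f) ≤ 0} is closed and 2 pi periodic and S + th lies in {Q (e f) < 0}. By recurrence
(mapClusterPt_one_atTop_pow in Circle, or mapClusterPt_zero_atTop_nsmul in AddCircle, or invariance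
of the measure) S equals {Q (e f) < 0}, so S is clopen: empty or everything.
(2) S is not empty: u, g u, e4 are independent and P is a plane in a space of dimension four, so
some nonzero v = c e(f) + d e4 has Q v < 0; perturbing (Q is continuous) we may take c ≠ 0; the
vectors g^n v / r^n = c e(f + n th) + d (l4/r)^n e4 have Q ≤ 0, while Q (e f) ≥ m > 0 for all f if
S were empty. Hence Q (e f) ≤ -m < 0 for all f.
(3) In the same way some v = c e(f) + d e1 with c ≠ 0 has Q v > 0; its preimages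
v_n = c r^-n e(f - n th) + d l1^-n e1 have Q v_n > 0 (contrapositive of the invariance), but
r^n v_n tends to the circle on which Q ≤ -m c^2. -/
theorem not_good_of_eig {g : Matrix (Fin 4) (Fin 4) ℝ} (h : EigData g) : ¬ Good g := by
  rintro ⟨p, q, x, y, a, a', ha, hpq, H⟩
  exact nc_main (nc_conj ha h) p q x y hpq H

theorem not_eig_one : ¬ EigData 1 := by
  rintro ⟨l1, l4, t, s, e1, e4, u, h1, h4, -, g1, g4, -, -, -, -, hs4, hs1⟩
  rw [one_mulVec] at g1 g4
  have f : ∀ (e : Fin 4 → ℝ) (l : ℝ), e ≠ 0 → e = l • e → l = 1 := by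
    intro e l he hl
    have : (l - 1) • e = 0 := by rw [sub_smul, one_smul, ← hl, sub_self]
    have := (smul_eq_zero.mp this).resolve_right he
    linarith
  rw [f e1 l1 h1 g1] at hs1
  rw [f e4 l4 h4 g4] at hs4
  linarith

end Pool.Agent.MP_28624d_gt.L4

end

section

/-!
An open set of matrices with a non-real pair of eigenvalues of middle modulus.
-/

namespace Pool.Agent.MP_28624d_gt.L4

open Matrix

/-- The value of the characteristic polynomial. -/
noncomputable def ouC (g : Matrix (Fin 4) (Fin 4) ℝ) (t : ℝ) : ℝ :=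
  (t • (1 : Matrix (Fin 4) (Fin 4) ℝ) - g).det

theorem ou_poly (g : Matrix (Fin 4) (Fin 4) ℝ) (hg : g.det = 1) :
    ∃ a2 a1 : ℝ, (∀ t, ouC g t = t ^ 4 - g.trace * t ^ 3 + a2 * t ^ 2 + a1 * t + 1) ∧
      g ^ 4 - g.trace • g ^ 3 + a2 • g ^ 2 + a1 • g + 1 = 0 := by
  have hd : g.charpoly.natDegree = 4 := by simp
  have h4 : g.charpoly.coeff 4 = 1 := by
    have := g.charpoly_monic
    rw [Polynomial.Monic, Polynomial.leadingCoeff, hd] at this
    exact this
  have h3 : g.charpoly.coeff 3 = - g.trace := by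
    have := Matrix.trace_eq_neg_charpoly_coeff g
    simp only [Fintype.card_fin] at this
    rw [this]; simp
  have h0 : g.charpoly.coeff 0 = 1 := by
    have := Matrix.det_eq_sign_charpoly_coeff g
    simp only [Fintype.card_fin] at this
    rw [hg] at this
    linarith
  refine ⟨g.charpoly.coeff 2, g.charpoly.coeff 1, fun t => ?_, ?_⟩
  · have h1 : ouC g t = g.charpoly.eval t := by
      rw [Matrix.eval_charpoly, ouC, Matrix.scalar_apply, Matrix.smul_one_eq_diagonal]
    rw [h1, Polynomial.eval_eq_sum_range, hd]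
    simp only [Finset.sum_range_succ, Finset.sum_range_zero, h4, h3, h0]
    ring
  · have h1 := Matrix.aeval_self_charpoly g
    rw [Polynomial.aeval_eq_sum_range, hd] at h1
    simp only [Finset.sum_range_succ, Finset.sum_range_zero, h4, h3, h0] at h1
    rw [← h1]
    simp only [pow_zero, pow_one, one_smul, neg_smul]
    abel

theorem ou_eig (g : Matrix (Fin 4) (Fin 4) ℝ) (l : ℝ) (h : ouC g l = 0) :
    ∃ e : Fin 4 → ℝ, e ≠ 0 ∧ g *ᵥ e = l • e := by
  obtain ⟨e, he, h2⟩ := Matrix.exists_mulVec_eq_zero_iff.mpr h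
  refine ⟨e, he, ?_⟩
  rw [Matrix.sub_mulVec, Matrix.smul_mulVec, Matrix.one_mulVec, sub_eq_zero] at h2
  exact h2.symm

theorem ou_main (g : Matrix (Fin 4) (Fin 4) ℝ) (hg : g.det = 1)
    (h1 : ouC g (19 / 10) < 0) (h2 : 0 < ouC g (21 / 10)) (h3 : ouC g (11 / 20) < 0)
    (h4 : 0 < ouC g (9 / 20)) (h5 : |g.trace - 5 / 2| < 1 / 100) (h6 : |(g * g) 2 1| < 1 / 100)
    (h7 : |g 2 1 - 1| < 1 / 100) : EigData g := by
  obtain ⟨a2, a1, hc, hm⟩ := ou_poly g hg
  have hcont : Continuous (ouC g) := by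
    have : ouC g = fun t => t ^ 4 - g.trace * t ^ 3 + a2 * t ^ 2 + a1 * t + 1 := funext hc
    rw [this]; fun_prop
  obtain ⟨l1, hl1, e1⟩ : ∃ l ∈ Set.Icc (19 / 10 : ℝ) (21 / 10), ouC g l = 0 :=
    intermediate_value_Icc (by norm_num) hcont.continuousOn ⟨h1.le, h2.le⟩
  obtain ⟨l4, hl4, e4⟩ : ∃ l ∈ Set.Icc (9 / 20 : ℝ) (11 / 20), ouC g l = 0 :=
    intermediate_value_Icc' (by norm_num) hcont.continuousOn ⟨h3.le, h4.le⟩
  obtain ⟨v1, hv1, hv1'⟩ := ou_eig g l1 e1
  obtain ⟨v4, hv4, hv4'⟩ := ou_eig g l4 e4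
  obtain ⟨a, b⟩ := hl1
  obtain ⟨c, d⟩ := hl4
  rw [hc] at e1 e4
  set T := g.trace with hT
  obtain ⟨t, ht⟩ : ∃ t, t = T - l1 - l4 := ⟨_, rfl⟩
  obtain ⟨s, hs⟩ : ∃ s, s = a2 - l1 * l4 - t * (l1 + l4) := ⟨_, rfl⟩
  have hT' : T = t + l1 + l4 := by linarith
  have ha2 : a2 = s + l1 * l4 + t * (l1 + l4) := by linarith
  have hne : l1 - l4 ≠ 0 := (show (0:ℝ) < l1 - l4 by linarith).ne'
  have ha1 : a1 = -((l1 + l4) * s) - t * (l1 * l4) := by
    apply mul_left_cancel₀ hne
    rw [hT', ha2] at e1 e4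
    linear_combination e1 - e4
  have hprod : l1 * l4 * s = 1 := by
    rw [hT', ha2, ha1] at e1
    linear_combination - e1
  have hp1 : 171 / 200 ≤ l1 * l4 := by nlinarith only [a, c]
  have hp2 : l1 * l4 ≤ 231 / 200 := by nlinarith only [a, b, c, d]
  have hs0 : 0 < s := by
    by_contra h
    push Not at h
    nlinarith only [h, hp1, hprod]
  have hs1 : 4 / 5 < s := by nlinarith only [hs0, hp2, hprod]
  have hs2 : s < 2 := by nlinarith only [hs0, hp1, hprod]
  have h5' := abs_lt.mp h5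
  have h6' := abs_lt.mp h6
  have h7' := abs_lt.mp h7
  let M : Matrix (Fin 4) (Fin 4) ℝ := g * g - (l1 + l4) • g + (l1 * l4) • 1
  have hM : g * (g * M) = t • (g * M) - s • M := by
    have h9 : g * (g * M) - (t • (g * M) - s • M) =
        g ^ 4 - T • g ^ 3 + a2 • g ^ 2 + a1 • g + (l1 * l4 * s) • 1 := by
      rw [hT', ha2, ha1]
      simp only [M, mul_add, mul_sub, Matrix.mul_smul, mul_one, pow_succ, pow_zero, one_mul,
        mul_assoc]
      module
    rw [hprod, one_smul, hm, sub_eq_zero] at h9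
    exact h9
  refine ⟨l1, l4, t, s, v1, v4, M *ᵥ Pi.single 1 1, hv1, hv4, ?_, hv1', hv4', ?_, ?_, ?_, ?_,
    ?_, ?_⟩
  · intro h
    have h10 := congrFun h 2
    simp only [Matrix.mulVec_single_one, Matrix.col_apply, M, Matrix.add_apply, Matrix.sub_apply,
      Matrix.smul_apply, smul_eq_mul, Pi.zero_apply] at h10
    rw [Matrix.one_apply_ne (by decide)] at h10
    nlinarith only [h10, h6'.2, h7'.1, a, c]
  · simp only [Matrix.mulVec_mulVec]
    rw [hM, Matrix.sub_mulVec, Matrix.smul_mulVec, Matrix.smul_mulVec]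
  · have i1 : -(1 / 5) < t := by linarith only [h5'.1, ht, b, d]
    have i2 : t < 1 / 5 := by linarith only [h5'.2, ht, a, c]
    nlinarith only [i1, i2, hs1]
  · linarith only [c]
  · linarith only [a]
  · nlinarith only [c, d, hs1]
  · nlinarith only [a, hs2]

/-- Plan. g0 = !![2,0,0,0; 0,0,-1,0; 0,1,0,0; 0,0,0,1/2]. With c(t) = det (t • 1 - g) let U be given
by c(1.9) < 0 < c(2.1), c(0.55) < 0 < c(0.45), |trace g - 5/2| < 1/100, |(g*g) 2 1| < 1/100,
|g 2 1 - 1| < 1/100. The intermediate value theorem gives roots l1, l4 and eigenvectors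
(Matrix.exists_mulVec_eq_zero_iff). The characteristic polynomial is
(X - l1) (X - l4) (X^2 - t X + s) with t = trace g - l1 - l4, s = 1/(l1 l4); by Cayley-Hamilton
u = (g - l1) (g - l4) e with e = Pi.single 1 1 satisfies g g u = t g u - s u, and its coordinate 2
is (g*g) 2 1 - (l1 + l4) g 2 1, which is not zero. -/
theorem exists_open_eig : ∃ U : Set G, IsOpen U ∧ U.Nonempty ∧ ∀ g ∈ U, EigData g.1 := by
  have hv : Continuous fun g : G => g.1 := continuous_subtype_val
  have hC : ∀ t, Continuous fun g : G => ouC g.1 t := fun t =>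
    (continuous_const.sub hv).matrix_det
  refine ⟨{g | ouC g.1 (19 / 10) < 0} ∩ {g | 0 < ouC g.1 (21 / 10)} ∩ {g | ouC g.1 (11 / 20) < 0} ∩
    {g | 0 < ouC g.1 (9 / 20)} ∩ {g | |g.1.trace - 5 / 2| < 1 / 100} ∩
    {g | |(g.1 * g.1) 2 1| < 1 / 100} ∩ {g | |g.1 2 1 - 1| < 1 / 100}, ?_, ?_, ?_⟩
  · refine IsOpen.inter (IsOpen.inter (IsOpen.inter (IsOpen.inter (IsOpen.inter (IsOpen.inter
      ?_ ?_) ?_) ?_) ?_) ?_) ?_
    · exact isOpen_lt (hC _) continuous_const
    · exact isOpen_lt continuous_const (hC _)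
    · exact isOpen_lt (hC _) continuous_const
    · exact isOpen_lt continuous_const (hC _)
    · exact isOpen_lt (hv.matrix_trace.sub continuous_const).abs continuous_const
    · exact isOpen_lt ((hv.matrix_mul hv).matrix_elem 2 1).abs continuous_const
    · exact isOpen_lt ((hv.matrix_elem 2 1).sub continuous_const).abs continuous_const
  · have hdet : ∀ a b c d e f : ℝ,
        (!![a, 0, 0, 0; 0, b, c, 0; 0, d, e, 0; 0, 0, 0, f] : Matrix (Fin 4) (Fin 4) ℝ).det =
          a * (b * e - c * d) * f := by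
      intro a b c d e f
      rw [Matrix.det_succ_row_zero]
      simp [Fin.sum_univ_succ, Matrix.det_fin_three, Matrix.submatrix, Fin.succAbove]
      ring
    have hc : ∀ t : ℝ, ouC !![2, 0, 0, 0; 0, 0, -1, 0; 0, 1, 0, 0; 0, 0, 0, 1 / 2] t =
        (t - 2) * (t * t + 1) * (t - 1 / 2) := by
      intro t
      have : t • (1 : Matrix (Fin 4) (Fin 4) ℝ) -
          !![2, 0, 0, 0; 0, 0, -1, 0; 0, 1, 0, 0; 0, 0, 0, 1 / 2] =
          !![t - 2, 0, 0, 0; 0, t, 1, 0; 0, -1, t, 0; 0, 0, 0, t - 1 / 2] := by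
        ext i j
        fin_cases i <;> fin_cases j <;> simp
      rw [ouC, this, hdet]
      ring
    refine ⟨⟨!![2, 0, 0, 0; 0, 0, -1, 0; 0, 1, 0, 0; 0, 0, 0, 1 / 2], by rw [hdet]; norm_num⟩, ?_⟩
    simp only [Set.mem_inter_iff, Set.mem_setOf_eq, hc]
    refine ⟨⟨⟨⟨⟨⟨by norm_num, by norm_num⟩, by norm_num⟩, by norm_num⟩, ?_⟩, ?_⟩, ?_⟩
    · simp [Matrix.trace, Fin.sum_univ_four]
      norm_num
    · simp [Matrix.mul_apply, Fin.sum_univ_four]
    · simp
  · rintro g ⟨⟨⟨⟨⟨⟨h1, h2⟩, h3⟩, h4⟩, h5⟩, h6⟩, h7⟩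
    exact ou_main g.1 g.2 h1 h2 h3 h4 h5 h6 h7

end Pool.Agent.MP_28624d_gt.L4

end

section

/-!
Geodesic segments of the symmetric space and an upper bound for the distance.
-/

namespace Pool.Agent.MP_28624d_gt.L4

open Matrix

theorem gd_diag {P : Matrix (Fin 4) (Fin 4) ℝ} (hP : P.PosDef) :
    ∃ (U : Matrix (Fin 4) (Fin 4) ℝ) (d : Fin 4 → ℝ), U * Uᵀ = 1 ∧ Uᵀ * U = 1 ∧
      (∀ i, 0 < d i) ∧ P = U * diagonal d * Uᵀ := by
  refine ⟨hP.1.eigenvectorUnitary, hP.1.eigenvalues, ?_, ?_, hP.eigenvalues_pos, ?_⟩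
  · have h := (Matrix.mem_unitaryGroup_iff).1 hP.1.eigenvectorUnitary.2
    simpa [Matrix.star_eq_conjTranspose] using h
  · have h := (Matrix.mem_unitaryGroup_iff').1 hP.1.eigenvectorUnitary.2
    simpa [Matrix.star_eq_conjTranspose] using h
  · have h := hP.1.spectral_theorem
    rw [Unitary.conjStarAlgAut_apply] at h
    simpa [Matrix.star_eq_conjTranspose] using h

theorem gd_conj {Q b b' : Matrix (Fin 4) (Fin 4) ℝ} (hQ : Q.PosDef) (h : b * b' = 1) :
    (b * Q * bᵀ).PosDef := by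
  have hu : IsUnit b := (Matrix.isUnit_iff_isUnit_det _).2 (Matrix.isUnit_det_of_right_inverse h)
  have h := (Matrix.IsUnit.posDef_star_right_conjugate_iff (x := Q) hu).2 hQ
  simpa [Matrix.star_eq_conjTranspose] using h

theorem gd_sim {P Q : Matrix (Fin 4) (Fin 4) ℝ} (hP : P.PosDef) (hQ : Q.PosDef) :
    ∃ (a a' : Matrix (Fin 4) (Fin 4) ℝ) (d : Fin 4 → ℝ), a * a' = 1 ∧ a' * a = 1 ∧
      (∀ i, 0 < d i) ∧ P = a * aᵀ ∧ Q = a * diagonal d * aᵀ := by
  obtain ⟨U, d, hU1, hU2, hd, hPe⟩ := gd_diag hP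
  set s : Fin 4 → ℝ := fun i => Real.sqrt (d i) with hs
  have hs0 : ∀ i, s i ≠ 0 := fun i => (Real.sqrt_pos.2 (hd i)).ne'
  have hss : diagonal s * diagonal s = diagonal d := by
    rw [diagonal_mul_diagonal]
    congr 1
    funext i
    exact Real.mul_self_sqrt (hd i).le
  have h1 : diagonal s * diagonal (fun i => (s i)⁻¹) = (1 : Matrix (Fin 4) (Fin 4) ℝ) := by
    rw [diagonal_mul_diagonal, ← diagonal_one]
    congr 1
    funext i
    exact mul_inv_cancel₀ (hs0 i)
  set b := U * diagonal s with hb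
  set b' := diagonal (fun i => (s i)⁻¹) * Uᵀ with hb'
  have hbb : b * b' = 1 := by
    rw [hb, hb', Matrix.mul_assoc, ← Matrix.mul_assoc (diagonal s), h1, Matrix.one_mul, hU1]
  have hbb' : b' * b = 1 := mul_eq_one_comm.1 hbb
  have hPb : P = b * bᵀ := by
    rw [hb, transpose_mul, diagonal_transpose, Matrix.mul_assoc, ← Matrix.mul_assoc (diagonal s),
      hss, ← Matrix.mul_assoc]
    exact hPe
  obtain ⟨V, e, hV1, hV2, he, hQe⟩ := gd_diag (gd_conj hQ hbb')
  have hab : b * V * (Vᵀ * b') = 1 := by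
    rw [Matrix.mul_assoc, ← Matrix.mul_assoc V, hV1, Matrix.one_mul, hbb]
  refine ⟨b * V, Vᵀ * b', e, hab, mul_eq_one_comm.1 hab, he, ?_, ?_⟩
  · rw [transpose_mul, Matrix.mul_assoc, ← Matrix.mul_assoc V, hV1, Matrix.one_mul]
    exact hPb
  · have ht : b'ᵀ * bᵀ = 1 := by rw [← transpose_mul, hbb, transpose_one]
    have : b * (b' * Q * b'ᵀ) * bᵀ = Q := by
      calc b * (b' * Q * b'ᵀ) * bᵀ = (b * b') * Q * (b'ᵀ * bᵀ) := by
            simp only [Matrix.mul_assoc]
        _ = Q := by rw [hbb, ht, Matrix.one_mul, Matrix.mul_one]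
    rw [← this, hQe, transpose_mul b V]
    simp only [Matrix.mul_assoc]

theorem gd_dist (P Q : X) {a a' : Matrix (Fin 4) (Fin 4) ℝ} {d e : Fin 4 → ℝ}
    (h1 : a * a' = 1) (h2 : a' * a = 1) (hd : ∀ i, 0 < d i) (he : ∀ i, 0 < e i)
    (hP : P.1 = a * diagonal d * aᵀ) (hQ : Q.1 = a * diagonal e * aᵀ) :
    dX P Q = Real.sqrt (∑ i, (Real.log (e i) - Real.log (d i)) ^ 2) := by
  have ht1 : aᵀ * a'ᵀ = 1 := by rw [← transpose_mul, h2, transpose_one]
  have ht2 : a'ᵀ * aᵀ = 1 := by rw [← transpose_mul, h1, transpose_one]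
  have hdd : diagonal (fun i => (d i)⁻¹) * diagonal d = (1 : Matrix (Fin 4) (Fin 4) ℝ) := by
    rw [diagonal_mul_diagonal, ← diagonal_one]
    congr 1
    funext i
    exact inv_mul_cancel₀ (hd i).ne'
  have hinv : P.1⁻¹ = a'ᵀ * diagonal (fun i => (d i)⁻¹) * a' := by
    apply Matrix.inv_eq_left_inv
    rw [hP]
    calc a'ᵀ * diagonal (fun i => (d i)⁻¹) * a' * (a * diagonal d * aᵀ)
        = a'ᵀ * (diagonal (fun i => (d i)⁻¹) * ((a' * a) * diagonal d)) * aᵀ := by
          simp only [Matrix.mul_assoc]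
      _ = 1 := by rw [h2, Matrix.one_mul, hdd, Matrix.mul_one, ht2]
  have hprod : P.1⁻¹ * Q.1 = a'ᵀ * (diagonal (fun i => (d i)⁻¹ * e i) * aᵀ) := by
    rw [hinv, hQ, ← diagonal_mul_diagonal]
    calc a'ᵀ * diagonal (fun i => (d i)⁻¹) * a' * (a * diagonal e * aᵀ)
        = a'ᵀ * (diagonal (fun i => (d i)⁻¹) * ((a' * a) * diagonal e) * aᵀ) := by
          simp only [Matrix.mul_assoc]
      _ = _ := by rw [h2, Matrix.one_mul]
  have hch : (P.1⁻¹ * Q.1).charpoly =
      ((Finset.univ.val.map fun i => (d i)⁻¹ * e i).map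
        fun t => Polynomial.X - Polynomial.C t).prod := by
    rw [hprod, charpoly_mul_comm, Matrix.mul_assoc, ht1, Matrix.mul_one, charpoly_diagonal,
      Multiset.map_map]
    rfl
  unfold dX
  rw [hch, Polynomial.roots_multiset_prod_X_sub_C, Multiset.map_map]
  congr 1
  refine Finset.sum_congr rfl fun i _ => ?_
  simp only [Function.comp]
  rw [Real.log_mul (inv_ne_zero (hd i).ne') (he i).ne', Real.log_inv]
  ring

theorem gd_eig {A : Matrix (Fin 4) (Fin 4) ℝ} {b t : ℝ} (h : ∀ i j, |A i j| ≤ b)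
    {v : Fin 4 → ℝ} (hv : v ≠ 0) (he : A *ᵥ v = t • v) : |t| ≤ 4 * b := by
  obtain ⟨i, -, hi⟩ := Finset.exists_max_image Finset.univ (fun i => |v i|) Finset.univ_nonempty
  have hpos : 0 < |v i| := by
    by_contra hc
    apply hv
    funext j
    have := hi j (Finset.mem_univ j)
    have h0 : |v j| ≤ 0 := le_trans this (not_lt.1 hc)
    exact abs_nonpos_iff.1 h0
  have h1 : t * v i = ∑ j, A i j * v j := by
    have := congrFun he i
    simp only [mulVec, dotProduct, Pi.smul_apply, smul_eq_mul] at this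
    exact this.symm
  have h2 : |t| * |v i| ≤ 4 * b * |v i| := by
    rw [← abs_mul, h1]
    calc |∑ j, A i j * v j| ≤ ∑ j, |A i j * v j| := Finset.abs_sum_le_sum_abs _ _
      _ ≤ ∑ _j : Fin 4, b * |v i| := by
          refine Finset.sum_le_sum fun j _ => ?_
          rw [abs_mul]
          exact mul_le_mul (h i j) (hi j (Finset.mem_univ j)) (abs_nonneg _)
            (le_trans (abs_nonneg _) (h i j))
      _ = 4 * b * |v i| := by simp; ring
  exact le_of_mul_le_mul_right h2 hpos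

/-- Plan. Simultaneous diagonalisation: P = a aᵀ, Q = a D aᵀ with a invertible, D = diagonal d,
d i > 0 (P = b bᵀ by the square root or LDL, then the spectral theorem for b⁻¹ Q b⁻¹ᵀ). Put
c r = a * diagonal (d i ^ r) * aᵀ; (c r)⁻¹ * c s is conjugate to diagonal (d i ^ (s - r)), whose
characteristic polynomial has the roots d i ^ (s - r). -/
theorem exists_seg (P Q : X) : ∃ c : ℝ → X, c 0 = P ∧ c 1 = Q ∧
    ∀ r s : ℝ, dX (c r) (c s) = |r - s| * dX P Q := by
  obtain ⟨a, a', d, h1, h2, hd, hP, hQ⟩ := gd_sim P.2.1 Q.2.1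
  have hda : a.det * a.det = 1 := by
    have := P.2.2
    rwa [hP, det_mul, det_transpose] at this
  have hdd : ∏ i, d i = 1 := by
    have := Q.2.2
    rw [hQ, det_mul, det_mul, det_transpose, det_diagonal] at this
    calc ∏ i, d i = (a.det * a.det) * ∏ i, d i := by rw [hda, one_mul]
      _ = 1 := by rw [← this]; ring
  let c : ℝ → X := fun r => ⟨a * diagonal (fun i => d i ^ r) * aᵀ,
    gd_conj (Matrix.PosDef.diagonal fun i => Real.rpow_pos_of_pos (hd i) r) h1, by
      rw [det_mul, det_mul, det_transpose, det_diagonal,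
        Real.finsetProd_rpow _ _ (fun i _ => (hd i).le), hdd, Real.one_rpow, mul_one, hda]⟩
  have hc0 : c 0 = P := by
    apply Subtype.ext
    show a * diagonal (fun i => d i ^ (0 : ℝ)) * aᵀ = P.1
    simp only [Real.rpow_zero, diagonal_one, Matrix.mul_one]
    exact hP.symm
  have hc1 : c 1 = Q := by
    apply Subtype.ext
    show a * diagonal (fun i => d i ^ (1 : ℝ)) * aᵀ = Q.1
    simp only [Real.rpow_one]
    exact hQ.symm
  have key : ∀ r s : ℝ, dX (c r) (c s) = |r - s| * Real.sqrt (∑ i, Real.log (d i) ^ 2) := by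
    intro r s
    rw [gd_dist (c r) (c s) h1 h2 (fun i => Real.rpow_pos_of_pos (hd i) r)
      (fun i => Real.rpow_pos_of_pos (hd i) s) rfl rfl, ← Real.sqrt_sq_eq_abs,
      ← Real.sqrt_mul (sq_nonneg _), Finset.mul_sum]
    congr 1
    refine Finset.sum_congr rfl fun i _ => ?_
    rw [Real.log_rpow (hd i), Real.log_rpow (hd i)]
    ring
  refine ⟨c, hc0, hc1, fun r s => ?_⟩
  have h01 := key 0 1
  rw [hc0, hc1] at h01
  rw [key, h01]
  norm_num

/-- f t = c (floor t) (fract t). -/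
theorem exists_geodExt (p : ℤ → X) : ∃ f : ℝ → X, IsGeodExt p f := by
  choose c hc0 hc1 hc using fun k : ℤ => exists_seg (p k) (p (k + 1))
  have key : ∀ (k : ℤ) (r : ℝ), r ∈ Set.Icc (0 : ℝ) 1 →
      c ⌊(k : ℝ) + r⌋ (Int.fract ((k : ℝ) + r)) = c k r := by
    intro k r hr
    rcases eq_or_lt_of_le hr.2 with h | h
    · subst h
      have e : (k : ℝ) + 1 = ((k + 1 : ℤ) : ℝ) := by push_cast; rfl
      rw [e, Int.floor_intCast, Int.fract_intCast, hc0, hc1]
    · have hf : ⌊r⌋ = 0 := Int.floor_eq_zero_iff.2 ⟨hr.1, h⟩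
      rw [Int.floor_intCast_add, Int.fract_intCast_add, hf, add_zero,
        Int.fract_eq_self.2 ⟨hr.1, h⟩]
  refine ⟨fun t => c ⌊t⌋ (Int.fract t), fun k => ?_, fun k r s hr hs => ?_⟩
  · simp only [Int.floor_intCast, Int.fract_intCast, hc0]
  · simp only [key k r hr, key k s hs, hc]

/-- Plan. A root t of the characteristic polynomial of A = P⁻¹ Q is an eigenvalue, so |t| ≤ 4 b and
|t⁻¹| ≤ 4 b (eigenvalue of A⁻¹ = Q⁻¹ P); Real.log t = log |t|; there are at most four roots. -/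
theorem dX_le (P Q : X) {b : ℝ} (hb : 1 ≤ b) (h1 : ∀ i j, |(P.1⁻¹ * Q.1) i j| ≤ b)
    (h2 : ∀ i j, |(Q.1⁻¹ * P.1) i j| ≤ b) : dX P Q ≤ 2 * Real.log (4 * b) := by
  have hL : 0 ≤ Real.log (4 * b) := Real.log_nonneg (by linarith)
  have hPu : IsUnit P.1.det := by rw [P.2.2]; exact isUnit_one
  have hQu : IsUnit Q.1.det := by rw [Q.2.2]; exact isUnit_one
  have hBA : (Q.1⁻¹ * P.1) * (P.1⁻¹ * Q.1) = 1 := by
    rw [Matrix.mul_assoc, ← Matrix.mul_assoc P.1, mul_nonsing_inv _ hPu, Matrix.one_mul,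
      nonsing_inv_mul _ hQu]
  have hroot : ∀ t ∈ (P.1⁻¹ * Q.1).charpoly.roots,
      Real.log t ^ 2 ≤ Real.log (4 * b) ^ 2 := by
    intro t ht
    have h0 : (P.1⁻¹ * Q.1).charpoly.eval t = 0 := (Polynomial.mem_roots'.1 ht).2
    rw [eval_charpoly, ← Matrix.exists_mulVec_eq_zero_iff] at h0
    obtain ⟨v, hv, hv0⟩ := h0
    have he : (P.1⁻¹ * Q.1) *ᵥ v = t • v := by
      rw [sub_mulVec, sub_eq_zero] at hv0
      rw [← hv0]
      funext i
      simp [Matrix.scalar_apply, mulVec_diagonal]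
    have hv1 : v = t • ((Q.1⁻¹ * P.1) *ᵥ v) := by
      rw [← mulVec_smul, ← he, mulVec_mulVec, hBA, one_mulVec]
    have ht0 : t ≠ 0 := by
      rintro rfl
      exact hv (by rw [hv1, zero_smul])
    have he' : (Q.1⁻¹ * P.1) *ᵥ v = t⁻¹ • v := by
      conv_rhs => rw [hv1]
      rw [smul_smul, inv_mul_cancel₀ ht0, one_smul]
    have b1 := gd_eig h1 hv he
    have b2 := gd_eig h2 hv he'
    have c1 : Real.log t ≤ Real.log (4 * b) := by
      rw [← Real.log_abs]
      exact Real.log_le_log (abs_pos.2 ht0) b1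
    have c2 : -Real.log t ≤ Real.log (4 * b) := by
      rw [← Real.log_inv, ← Real.log_abs]
      exact Real.log_le_log (abs_pos.2 (inv_ne_zero ht0)) b2
    exact sq_le_sq' (by linarith) c1
  have hcard : Multiset.card (P.1⁻¹ * Q.1).charpoly.roots ≤ 4 := by
    have := Polynomial.card_roots' (P.1⁻¹ * Q.1).charpoly
    rwa [charpoly_natDegree_eq_dim, Fintype.card_fin] at this
  have hsum : ((P.1⁻¹ * Q.1).charpoly.roots.map fun t => Real.log t ^ 2).sum ≤
      (2 * Real.log (4 * b)) ^ 2 := by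
    have h := Multiset.sum_le_card_nsmul
      ((P.1⁻¹ * Q.1).charpoly.roots.map fun t => Real.log t ^ 2) (Real.log (4 * b) ^ 2) (by
        intro x hx
        obtain ⟨t, ht, rfl⟩ := Multiset.mem_map.1 hx
        exact hroot t ht)
    rw [Multiset.card_map, nsmul_eq_mul] at h
    have h4 : ((Multiset.card (P.1⁻¹ * Q.1).charpoly.roots : ℕ) : ℝ) ≤ 4 := by
      exact_mod_cast hcard
    have := mul_le_mul_of_nonneg_right h4 (sq_nonneg (Real.log (4 * b)))
    nlinarith
  unfold dX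
  exact Real.sqrt_le_iff.2 ⟨by linarith, hsum⟩

end Pool.Agent.MP_28624d_gt.L4

end

section

/-!
Axes, primitive elements, and the growth of the cyclic length of phi^k (a b).
-/

namespace Pool.Agent.MP_28624d_gt.L4

open FreeGroup

theorem prim_of_equiv (e : F ≃* F) (i : Fin 3) : IsPrimitive (e (of i)) := by
  have hinj : Function.Injective fun j : Fin 3 => e (of j) := fun a b h =>
    FreeGroup.of_injective (e.injective h)
  refine ⟨Set.range fun j : Fin 3 => e (of j), ⟨i, rfl⟩, ?_⟩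
  let σ := Equiv.ofInjective _ hinj
  have key : ∀ w : F, FreeGroup.lift
      (fun s : Set.range (fun j : Fin 3 => e (of j)) => (s : F)) (freeGroupCongr σ w) = e w := by
    intro w
    have : (FreeGroup.lift (fun s : Set.range (fun j : Fin 3 => e (of j)) => (s : F))).comp
        (freeGroupCongr σ).toMonoidHom = e.toMonoidHom := by
      ext j
      simp [σ]
    exact DFunLike.congr_fun this w
  have h2 : ⇑(FreeGroup.lift (fun s : Set.range (fun j : Fin 3 => e (of j)) => (s : F))) =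
      e ∘ (freeGroupCongr σ).symm := by
    funext w
    rw [Function.comp_apply, ← key, MulEquiv.apply_symm_apply]
  rw [h2]
  exact e.bijective.comp (freeGroupCongr σ).symm.bijective

/-- The automorphism a, b, c to a b, b, c. -/
def ax_psi : F ≃* F :=
  MonoidHom.toMulEquiv (FreeGroup.lift ![of 0 * of 1, of 1, of 2])
    (FreeGroup.lift ![of 0 * (of 1)⁻¹, of 1, of 2])
    (by
      ext i
      fin_cases i <;> simp)
    (by
      ext i
      fin_cases i <;> simp)

/-- a b is the image of a under the automorphism a, b, c to a b, b, c. -/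
theorem prim_phi (k : ℕ) : IsPrimitive ((phi ^ k) (of 0 * of 1)) := by
  have h := prim_of_equiv (ax_psi.trans (phi ^ k)) 0
  have e : ax_psi (of 0) = of 0 * of 1 := by simp [ax_psi]
  rwa [MulEquiv.trans_apply, e] at h

/-- The word of the letters number j, ..., j + n - 1 of a sequence. -/
def ax_W (s : ℤ → L) : ℕ → ℤ → List L
  | 0, _ => []
  | n + 1, j => s j :: ax_W s n (j + 1)

theorem ax_W_length (s : ℤ → L) : ∀ (n : ℕ) (j : ℤ), (ax_W s n j).length = n
  | 0, _ => rfl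
  | n + 1, j => by simp [ax_W, ax_W_length s n]

theorem ax_W_red (s : ℤ → L) (hs : ∀ j, Rd (s j) (s (j + 1))) :
    ∀ (n : ℕ) (j : ℤ), IsReduced (ax_W s n j)
  | 0, _ => IsReduced.nil
  | 1, _ => IsReduced.singleton
  | n + 2, j => by
    have ih := ax_W_red s hs (n + 1) (j + 1)
    simp only [ax_W] at ih ⊢
    refine List.isChain_cons_cons.mpr ⟨fun h => ?_, ih⟩
    have h1 := hs j
    by_contra h2
    apply h1
    refine Prod.ext h.symm ?_
    simp only [iv]
    revert h2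
    cases (s j).2 <;> cases (s (j + 1)).2 <;> simp

theorem ax_W_mul (s : ℤ → L) (u : ℤ → F) (hu : ∀ k, u (k + 1) = u k * FreeGroup.mk [s k]) :
    ∀ (n : ℕ) (j : ℤ), u (j + n) = u j * FreeGroup.mk (ax_W s n j)
  | 0, j => by
    have : FreeGroup.mk ([] : List L) = 1 := rfl
    simp [ax_W, this]
  | n + 1, j => by
    have ih := ax_W_mul s u hu n (j + 1)
    rw [hu j, mul_assoc, mul_mk] at ih
    rw [show j + ((n + 1 : ℕ) : ℤ) = j + 1 + n by push_cast; ring, ih]
    rfl

theorem ax_norm (s : ℤ → L) (hs : ∀ j, Rd (s j) (s (j + 1))) (u : ℤ → F)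
    (hu : ∀ k, u (k + 1) = u k * FreeGroup.mk [s k]) (j k : ℤ) :
    FreeGroup.norm ((u j)⁻¹ * u k) = (j - k).natAbs := by
  have key : ∀ (n : ℕ) (j : ℤ), FreeGroup.norm ((u j)⁻¹ * u (j + n)) = n := by
    intro n j
    rw [ax_W_mul s u hu n j, inv_mul_cancel_left, FreeGroup.norm, toWord_mk,
      (ax_W_red s hs n j).reduce_eq, ax_W_length]
  rcases le_total j k with h | h
  · obtain ⟨n, rfl⟩ := Int.le.dest h
    rw [key]
    omega
  · obtain ⟨n, rfl⟩ := Int.le.dest h
    rw [← norm_inv_eq, mul_inv_rev, inv_inv, key]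
    omega

/-- Plan. g = p * mk l * p⁻¹ with Cyc Rd l (exists_cyc), m = l.length, and
u k = p * (mk l)^(k / m) * mk (l.take (k % m).toNat). For j ≤ k the element (u j)⁻¹ * u k is given
by the reduced word of the letters number j, ..., k - 1 of the periodic sequence (cyc_getD). -/
theorem exists_axis {g : F} (hg : g ≠ 1) : ∃ u : ℤ → F, IsAxis g u := by
  obtain ⟨l, hl, hc⟩ := exists_cyc hg
  obtain ⟨c, hc⟩ := isConj_iff.mp hc
  have hm : 0 < l.length := List.length_pos_iff.mpr hl.1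
  have hm' : (0 : ℤ) < l.length := by exact_mod_cast hm
  let s : ℤ → L := fun k => l.getD (k % l.length).toNat (0, true)
  let u : ℤ → F := fun k =>
    c⁻¹ * (FreeGroup.mk l) ^ (k / l.length) * FreeGroup.mk (l.take (k % l.length).toNat)
  have hdiv : ∀ k : ℤ, ∃ r : ℕ, r < l.length ∧ k % l.length = r ∧
      ((r + 1 < l.length ∧ (k + 1) / l.length = k / l.length ∧ (k + 1) % l.length = (r + 1 : ℕ)) ∨
        (r + 1 = l.length ∧ (k + 1) / l.length = k / l.length + 1 ∧ (k + 1) % l.length = 0)) := by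
    intro k
    have h0 := Int.emod_nonneg k hm'.ne'
    have h1 := Int.emod_lt_of_pos k hm'
    have h2 := Int.emod_add_mul_ediv k l.length
    obtain ⟨r, hr⟩ := Int.eq_ofNat_of_zero_le h0
    refine ⟨r, by omega, hr, ?_⟩
    by_cases h : r + 1 < l.length
    · left
      have := (Int.ediv_emod_unique (a := k + 1) (r := ((r + 1 : ℕ) : ℤ)) (q := k / l.length) hm').2
        ⟨by push_cast; linarith, by omega, by omega⟩
      exact ⟨h, this.1, this.2⟩
    · right
      have h3 : r + 1 = l.length := by omega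
      have h4 : (r : ℤ) + 1 = l.length := by exact_mod_cast h3
      have := (Int.ediv_emod_unique (a := k + 1) (r := 0) (q := k / l.length + 1) hm').2
        ⟨by rw [mul_add]; linarith, le_rfl, hm'⟩
      exact ⟨h3, this.1, this.2⟩
  have hs : ∀ j, Rd (s j) (s (j + 1)) := by
    intro j
    obtain ⟨r, h1, h2, h3⟩ := hdiv j
    have h4 := cyc_getD hl r
    rw [Nat.mod_eq_of_lt h1] at h4
    simp only [s, h2, Int.toNat_natCast]
    rcases h3 with ⟨h5, _, h6⟩ | ⟨h5, _, h6⟩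
    · rw [Nat.mod_eq_of_lt h5] at h4
      rw [h6, Int.toNat_natCast]
      exact h4
    · rw [h5, Nat.mod_self] at h4
      rw [h6]
      exact h4
  have hu : ∀ k, u (k + 1) = u k * FreeGroup.mk [s k] := by
    intro k
    obtain ⟨r, h1, h2, h3⟩ := hdiv k
    have h4 : l.take (r + 1) = l.take r ++ [l.getD r (0, true)] := by
      rw [List.take_succ_eq_append_getElem h1, List.getD_eq_getElem _ _ h1]
    simp only [s, u, h2, Int.toNat_natCast]
    rcases h3 with ⟨_, h5, h6⟩ | ⟨h7, h5, h6⟩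
    · rw [h5, h6, Int.toNat_natCast, h4, ← mul_mk]
      simp only [mul_assoc]
    · have h8 : FreeGroup.mk (l.take (0 : ℤ).toNat) = 1 := rfl
      rw [h7, List.take_length] at h4
      rw [h5, h6, h8, mul_one, zpow_add_one, mul_assoc, mul_assoc, mul_mk, ← h4]
  refine ⟨u, ax_norm s hs u hu, l.length, hm'.ne', fun k => ?_⟩
  have h1 : (k + l.length) / l.length = k / l.length + 1 := by
    have := Int.add_mul_ediv_right k 1 hm'.ne'
    rwa [one_mul] at this
  simp only [u, h1, Int.add_emod_right]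
  have h2 : g * c⁻¹ = c⁻¹ * FreeGroup.mk l := by rw [← hc]; group
  rw [add_comm, zpow_add, zpow_one, ← mul_assoc, ← mul_assoc, h2]
  simp only [mul_assoc]

/-- The action of F on the integers by the reflections x to c i - x. -/
def ax_act (c : Fin 3 → ℤ) : F →* Equiv.Perm ℤ := FreeGroup.lift fun i => Equiv.subLeft (c i)

/-- The effect of phi on the centres. -/
def ax_T (c : Fin 3 → ℤ) : Fin 3 → ℤ := ![2 * c 0 - c 1, c 2, 2 * c 2 - c 0]

theorem ax_of (c : Fin 3 → ℤ) (i : Fin 3) (x : ℤ) : ax_act c (of i) x = c i - x := by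
  simp [ax_act]

theorem ax_of_inv (c : Fin 3 → ℤ) (i : Fin 3) (x : ℤ) : (ax_act c (of i))⁻¹ x = c i - x := by
  rw [Equiv.Perm.inv_eq_iff_eq, ax_of]
  ring

theorem ax_phi (c : Fin 3 → ℤ) (w : F) : ax_act c (phi w) = ax_act (ax_T c) w := by
  have : (ax_act c).comp phiF = ax_act (ax_T c) := by
    refine FreeGroup.ext_hom _ _ fun i => ?_
    refine Equiv.ext fun x => ?_
    rw [ax_of]
    fin_cases i <;>
      simp [phiF, ax_T, Equiv.Perm.mul_apply, ax_of, ax_of_inv] <;> ring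
  exact DFunLike.congr_fun this w

theorem ax_pow (c : Fin 3 → ℤ) (k : ℕ) (w : F) :
    ax_act c ((phi ^ k) w) = ax_act (ax_T^[k] c) w := by
  induction k generalizing w with
  | zero => rfl
  | succ k ih => rw [pow_succ, MulAut.mul_apply, ih, ax_phi, Function.iterate_succ_apply']

theorem ax_iso (c : Fin 3 → ℤ) (w : F) : ∀ x y, |ax_act c w x - ax_act c w y| = |x - y| := by
  induction w using FreeGroup.induction_on with
  | C1 => simp
  | of i =>
    intro x y
    rw [ax_of, ax_of, abs_sub_comm x y]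
    congr 1
    ring
  | inv_of i _ =>
    intro x y
    rw [MonoidHom.map_inv, ax_of_inv, ax_of_inv, abs_sub_comm x y]
    congr 1
    ring
  | mul a b ha hb =>
    intro x y
    rw [MonoidHom.map_mul, Equiv.Perm.mul_apply, Equiv.Perm.mul_apply, ha, hb]

theorem ax_len (c : Fin 3 → ℤ) (hc : ∀ i, |c i| ≤ 1) (l : List L) :
    |ax_act c (FreeGroup.mk l) 0| ≤ l.length := by
  induction l with
  | nil =>
    have : FreeGroup.mk ([] : List L) = 1 := rfl
    simp [this]
  | cons x l ih =>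
    have h1 : FreeGroup.mk (x :: l) = FreeGroup.mk [x] * FreeGroup.mk l := by rw [mul_mk]; rfl
    have h2 : ∀ y, ax_act c (FreeGroup.mk [x]) y = c x.1 - y := by
      intro y
      obtain ⟨i, b⟩ := x
      cases b
      · have : FreeGroup.mk [(i, false)] = (of i)⁻¹ := rfl
        rw [this, MonoidHom.map_inv, ax_of_inv]
      · exact ax_of c i y
    rw [h1, MonoidHom.map_mul, Equiv.Perm.mul_apply, h2, List.length_cons]
    have h3 := abs_sub (c x.1) (ax_act c (FreeGroup.mk l) 0)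
    have h4 := hc x.1
    push_cast
    linarith

theorem ax_grow (k : ℕ) : (k : ℤ) + 1 ≤ (ax_T^[k] ![1, 0, 0]) 0 - (ax_T^[k] ![1, 0, 0]) 1 ∧
    0 ≤ (ax_T^[k] ![1, 0, 0]) 1 - (ax_T^[k] ![1, 0, 0]) 2 := by
  induction k with
  | zero => simp
  | succ k ih =>
    rw [Function.iterate_succ_apply']
    generalize ax_T^[k] ![1, 0, 0] = c at ih ⊢
    simp only [ax_T, Matrix.cons_val_zero, Matrix.cons_val_one, Matrix.cons_val]
    push_cast
    omega

/-- Plan. Let F act on the integers by the reflections x to 2 p i - x (any p : Fin 3 → ℤ), for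
instance through a homomorphism to Equiv.Perm ℤ or to 2 x 2 integer matrices. Composing with phi
replaces (p0, p1, p2) by (2 p0 - p1, p2, 2 p2 - p0); the differences U = p0 - p1, V = p1 - p2 go to
(2 U + V, U + V). So with p = (1, 0, 0) the element phi^k (a b) acts as a translation by 2 U_k with
U_k ≥ k + 1; a conjugate acts as the translation by plus or minus 2 U_k, and a word of length n
moves 0 by at most 2 n. -/
theorem growth (B : ℕ) :
    ∃ k : ℕ, ∀ p : F, B ≤ FreeGroup.norm (p⁻¹ * (phi ^ k) (of 0 * of 1) * p) := by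
  refine ⟨B, fun p => ?_⟩
  have h1 := ax_len ![1, 0, 0] (fun i => by fin_cases i <;> simp)
    (p⁻¹ * (phi ^ B) (of 0 * of 1) * p).toWord
  rw [mk_toWord] at h1
  have h2 := (ax_grow B).1
  have h3 := ax_iso ![1, 0, 0] p⁻¹ (ax_act ![1, 0, 0] ((phi ^ B) (of 0 * of 1) * p) 0)
    (ax_act ![1, 0, 0] p 0)
  rw [← Equiv.Perm.mul_apply, ← Equiv.Perm.mul_apply (ax_act _ p⁻¹), ← MonoidHom.map_mul, ← MonoidHom.map_mul,
    inv_mul_cancel, MonoidHom.map_one, Equiv.Perm.one_apply, sub_zero, ← mul_assoc,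
    MonoidHom.map_mul _ ((phi ^ B) (of 0 * of 1)), Equiv.Perm.mul_apply, ax_pow, MonoidHom.map_mul _ (of 0),
    Equiv.Perm.mul_apply, ax_of, ax_of] at h3
  rw [h3] at h1
  have h4 := le_abs_self ((ax_T^[B] ![1, 0, 0]) 0 - ((ax_T^[B] ![1, 0, 0]) 1 -
    ax_act ![1, 0, 0] p 0) - ax_act ![1, 0, 0] p 0)
  unfold FreeGroup.norm
  omega

end Pool.Agent.MP_28624d_gt.L4

end

section

/-!
Triples in W are not primitive stable; W is measurable.
-/

namespace Pool.Agent.MP_28624d_gt.L4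

open FreeGroup Matrix

/-- All entries are bounded by b. -/
def np_Bd (A : Matrix (Fin 4) (Fin 4) ℝ) (b : ℝ) : Prop := ∀ i j, |A i j| ≤ b

theorem np_mul {A B : Matrix (Fin 4) (Fin 4) ℝ} {a b : ℝ} (hA : np_Bd A a) (hB : np_Bd B b) :
    np_Bd (A * B) (4 * a * b) := by
  intro i j
  rw [Matrix.mul_apply]
  refine (Finset.abs_sum_le_sum_abs _ _).trans ?_
  have : ∀ k ∈ (Finset.univ : Finset (Fin 4)), |A i k * B k j| ≤ a * b := fun k _ => by
    rw [abs_mul]
    exact mul_le_mul (hA i k) (hB k j) (abs_nonneg _) ((abs_nonneg _).trans (hA i k))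
  have h := Finset.sum_le_card_nsmul _ _ _ this
  simp only [Finset.card_univ, Fintype.card_fin, nsmul_eq_mul, Nat.cast_ofNat] at h
  linarith

theorem np_mono {A : Matrix (Fin 4) (Fin 4) ℝ} {a b : ℝ} (hA : np_Bd A a) (h : a ≤ b) :
    np_Bd A b := fun i j => (hA i j).trans h

theorem np_tr {A : Matrix (Fin 4) (Fin 4) ℝ} {a : ℝ} (hA : np_Bd A a) : np_Bd Aᵀ a :=
  fun i j => hA j i

theorem np_pow {A : Matrix (Fin 4) (Fin 4) ℝ} {a : ℝ} (hA : np_Bd A a) (j : ℕ) :
    np_Bd (A ^ j) ((4 * a) ^ j) := by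
  induction j with
  | zero =>
    intro i k
    rw [pow_zero, pow_zero, Matrix.one_apply]
    split_ifs <;> simp
  | succ j ih =>
    rw [pow_succ, pow_succ]
    exact np_mono (np_mul ih hA) (le_of_eq (by ring))

theorem np_adj {A : Matrix (Fin 4) (Fin 4) ℝ} {a : ℝ} (hA : np_Bd A a) (ha : 1 ≤ a) :
    np_Bd A.adjugate (24 * a ^ 4) := by
  intro i j
  rw [adjugate_apply]
  have h := Matrix.det_le (A := A.updateRow j (Pi.single i 1)) (abv := AbsoluteValue.abs) (x := a)
    (fun p q => by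
      rw [AbsoluteValue.abs_apply, updateRow_apply]
      split_ifs
      · rw [Pi.single_apply]
        split_ifs
        · simpa using ha
        · simp only [abs_zero]; linarith
      · exact hA p q)
  rw [AbsoluteValue.abs_apply] at h
  refine h.trans (le_of_eq ?_)
  simp [Nat.factorial]

theorem np_ex (A : Matrix (Fin 4) (Fin 4) ℝ) : ∃ b, 1 ≤ b ∧ np_Bd A b := by
  refine ⟨1 + ∑ i, ∑ j, |A i j|, ?_, fun i j => ?_⟩
  · have : 0 ≤ ∑ i, ∑ j, |A i j| := by positivity
    linarith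
  · have h1 : |A i j| ≤ ∑ j, |A i j| :=
      Finset.single_le_sum (f := fun j => |A i j|) (fun _ _ => abs_nonneg _) (Finset.mem_univ j)
    have h2 : ∑ j, |A i j| ≤ ∑ i, ∑ j, |A i j| :=
      Finset.single_le_sum (f := fun i => ∑ j, |A i j|) (fun _ _ => by positivity)
        (Finset.mem_univ i)
    linarith

theorem np_act_mul (g h : G) (x : X) : act (g * h) x = act g (act h x) := by
  apply Subtype.ext
  simp only [act, Matrix.SpecialLinearGroup.coe_mul, Matrix.transpose_mul, Matrix.mul_assoc]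

theorem np_dist (T : G) (y : X) {β t : ℝ} (hβ : 1 ≤ β) (ht : 1 ≤ t) (h1 : np_Bd y.1 β)
    (h2 : np_Bd y.1⁻¹ β) (h3 : np_Bd T.1 t) (h4 : np_Bd (T⁻¹ : G).1 t) :
    dX y (act T y) ≤ 2 * Real.log (4 * (64 * β ^ 2 * t ^ 2)) := by
  have hy : y.1⁻¹ * y.1 = 1 :=
    Matrix.nonsing_inv_mul _ (by rw [y.2.2]; exact isUnit_one)
  have hT : (T⁻¹ : G).1 * T.1 = 1 := by
    rw [← Matrix.SpecialLinearGroup.coe_mul, inv_mul_cancel]
    rfl
  have hT' : T.1 * (T⁻¹ : G).1 = 1 := by
    rw [← Matrix.SpecialLinearGroup.coe_mul, mul_inv_cancel]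
    rfl
  have hinv : (act T y).1⁻¹ = (T⁻¹ : G).1ᵀ * y.1⁻¹ * (T⁻¹ : G).1 := by
    apply Matrix.inv_eq_left_inv
    show (T⁻¹ : G).1ᵀ * y.1⁻¹ * (T⁻¹ : G).1 * (T.1 * y.1 * T.1ᵀ) = 1
    calc (T⁻¹ : G).1ᵀ * y.1⁻¹ * (T⁻¹ : G).1 * (T.1 * y.1 * T.1ᵀ)
        = (T⁻¹ : G).1ᵀ * (y.1⁻¹ * (((T⁻¹ : G).1 * T.1) * y.1)) * T.1ᵀ := by
          simp only [Matrix.mul_assoc]
      _ = 1 := by
          rw [hT, Matrix.one_mul, hy, Matrix.mul_one, ← Matrix.transpose_mul, hT',
            Matrix.transpose_one]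
  refine dX_le y (act T y) ?_ ?_ ?_
  · have a1 : 1 ≤ β ^ 2 := one_le_pow₀ hβ
    have a2 : 1 ≤ t ^ 2 := one_le_pow₀ ht
    nlinarith
  · exact np_mono (np_mul h2 (np_mul (np_mul h3 h1) (np_tr h3))) (le_of_eq (by ring))
  · rw [hinv]
    exact np_mono (np_mul (np_mul (np_mul (np_tr h4) h2) h4) h1) (le_of_eq (by ring))

theorem np_orbit (g h : G) (y : X) {N : ℝ} (hN : 1 ≤ N) (h1 : np_Bd h.1 N)
    (h2 : np_Bd (h⁻¹ : G).1 N) :
    ∃ D : ℝ, ∀ j : ℕ, dX y (act ((g⁻¹ * h * g) ^ j) y) ≤ D + 4 * Real.log (4 * N) * j := by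
  obtain ⟨b1, a1, c1⟩ := np_ex y.1
  obtain ⟨b2, a2, c2⟩ := np_ex y.1⁻¹
  obtain ⟨b3, a3, c3⟩ := np_ex g.1
  obtain ⟨b4, a4, c4⟩ := np_ex (g⁻¹ : G).1
  set β := b1 + b2 + b3 + b4 with hβ
  have hβ1 : 1 ≤ β := by linarith
  have d3 : np_Bd g.1 β := np_mono c3 (by linarith)
  have d4 : np_Bd (g⁻¹ : G).1 β := np_mono c4 (by linarith)
  refine ⟨2 * Real.log (65536 * β ^ 6), fun j => ?_⟩
  have hM : 1 ≤ (4 * N) ^ j := one_le_pow₀ (by linarith)
  have key : ∀ h : G, np_Bd h.1 N → np_Bd ((g⁻¹ * h * g) ^ j : G).1 (16 * β ^ 2 * (4 * N) ^ j) := by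
    intro h hh
    have e : (g⁻¹ * h * g) ^ j = g⁻¹ * h ^ j * g := by
      have := conj_pow (a := g⁻¹) (b := h) (i := j)
      rwa [inv_inv] at this
    rw [e, Matrix.SpecialLinearGroup.coe_mul, Matrix.SpecialLinearGroup.coe_mul,
      Matrix.SpecialLinearGroup.coe_pow]
    exact np_mono (np_mul (np_mul d4 (np_pow hh j)) d3) (le_of_eq (by ring))
  have hβ2 : 1 ≤ β ^ 2 := one_le_pow₀ hβ1
  have := np_dist ((g⁻¹ * h * g) ^ j) y hβ1 (t := 16 * β ^ 2 * (4 * N) ^ j) (by nlinarith)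
    (np_mono c1 (by linarith)) (np_mono c2 (by linarith)) (key h h1) (by
      have e : ((g⁻¹ * h * g) ^ j)⁻¹ = (g⁻¹ * h⁻¹ * g) ^ j := by
        rw [← inv_pow]
        congr 1
        group
      rw [e]
      exact key _ h2)
  refine this.trans (le_of_eq ?_)
  have e : 4 * (64 * β ^ 2 * (16 * β ^ 2 * (4 * N) ^ j) ^ 2) =
      65536 * β ^ 6 * (4 * N) ^ (2 * j) := by ring
  rw [e, Real.log_mul (by positivity) (by positivity), Real.log_pow]
  push_cast
  ring

/-- Plan. Given K and x choose B > K * c for the absolute constant c below, k from growth B,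
w = phi^k (a b), an axis u with translation m (then B ≤ |m|, take p = u 0), and f from
exists_geodExt. f (j m) = act (rho w ^ j) y with y = f 0. rho w = g⁻¹ h g where h is a product of
two matrices with entries at most 3, so the entries of h and of h⁻¹ (adjugate, determinant one) are
at most an absolute N, and dX_le gives dX y (act (rho w ^ j) y) ≤ C + c j with c = 4 log (4 N) and
C depending on g, y. This contradicts j |m| / K - K ≤ dX (f 0) (f (j m)) for large j. -/
theorem not_primStable (ρ : F →* G)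
    (hb : ∀ k : ℕ, ∃ g : G, ∀ (i : Fin 3) (a b : Fin 4),
      |(g * ρ ((phi ^ k) (of i)) * g⁻¹ : G).1 a b| ≤ 3) : ¬ PrimStable ρ := by
  rintro ⟨K, hK, x, hx⟩
  set N : ℝ := 24 * 36 ^ 4 with hN
  have hN1 : (36 : ℝ) ≤ N := by rw [hN]; norm_num
  set c : ℝ := 4 * Real.log (4 * N) with hc
  have hc0 : 0 ≤ c := by
    have := Real.log_nonneg (show 1 ≤ 4 * N by linarith)
    positivity
  obtain ⟨B, hB⟩ := exists_nat_gt (K * (c + 1))
  have hB0 : 0 < B := by
    have : 0 < K * (c + 1) := by positivity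
    exact_mod_cast this.trans hB
  obtain ⟨k, hk⟩ := growth B
  obtain ⟨g, hg⟩ := hb k
  set w : F := (phi ^ k) (of 0 * of 1) with hw
  have hw1 : w ≠ 1 := by
    intro h
    have := hk 1
    rw [h] at this
    simp at this
    omega
  obtain ⟨u, hu⟩ := exists_axis hw1
  obtain ⟨f, hf⟩ := exists_geodExt (fun k => act (ρ (u k)) x)
  have hq := hx w (prim_phi k) u hu f hf
  obtain ⟨hu1, m, _, hu2⟩ := hu
  have hm : B ≤ m.natAbs := by
    have h1 := hk (u 0)
    have h2 := hu1 0 (0 + m)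
    rw [← hu2 0, ← mul_assoc] at h2
    omega
  have hj : ∀ j : ℕ, u (j * m) = w ^ j * u 0 := by
    intro j
    induction j with
    | zero => simp
    | succ j ih =>
      rw [pow_succ', mul_assoc, ← ih, hu2]
      congr 1
      push_cast
      ring
  set h : G := g * ρ w * g⁻¹ with hh
  have hh1 : np_Bd h.1 36 := by
    have e : h = (g * ρ ((phi ^ k) (of 0)) * g⁻¹) * (g * ρ ((phi ^ k) (of 1)) * g⁻¹) := by
      rw [hh, hw, _root_.map_mul, _root_.map_mul]
      group
    rw [e, Matrix.SpecialLinearGroup.coe_mul]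
    exact np_mono (np_mul (hg 0) (hg 1)) (by norm_num)
  obtain ⟨D, hD⟩ := np_orbit g h (act (ρ (u 0)) x) (N := N) (by linarith) (np_mono hh1 hN1) (by
    rw [Matrix.SpecialLinearGroup.coe_inv]
    exact np_adj hh1 (by norm_num))
  obtain ⟨j, hjD⟩ := exists_nat_gt (D + K)
  have h1 := (hq ((0 : ℤ) : ℝ) (((j : ℤ) * m : ℤ) : ℝ)).1
  have e : g⁻¹ * h * g = ρ w := by rw [hh]; group
  have h2 := hD j
  rw [hf.1, hf.1] at h1
  simp only at h1
  rw [hj, _root_.map_mul, _root_.map_pow, np_act_mul] at h1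
  rw [e] at h2
  have h3 : (j : ℝ) * B ≤ |((0 : ℤ) : ℝ) - (((j : ℤ) * m : ℤ) : ℝ)| := by
    have h4 : (B : ℝ) ≤ |(m : ℝ)| := by
      have : ((B : ℤ) : ℝ) ≤ ((|m| : ℤ) : ℝ) := by
        exact_mod_cast (show (B : ℤ) ≤ |m| by rw [Int.abs_eq_natAbs]; exact_mod_cast hm)
      simpa using this
    push_cast
    rw [zero_sub, abs_neg, abs_mul, Nat.abs_cast]
    exact mul_le_mul_of_nonneg_left h4 (Nat.cast_nonneg j)
  have h5 : (j : ℝ) * (c + 1) ≤ |((0 : ℤ) : ℝ) - (((j : ℤ) * m : ℤ) : ℝ)| / K := by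
    rw [le_div_iff₀ hK]
    have := mul_le_mul_of_nonneg_left hB.le (Nat.cast_nonneg (α := ℝ) j)
    nlinarith
  nlinarith

theorem np_M0 (i : Fin 3) (a b : Fin 2) : ‖M0 i a b‖ ≤ 5 / 2 := by
  have key : ∀ p q : ℤ, |p| + |q| ≤ 25 * 10 ^ 29 →
      ‖((DD : ℂ)⁻¹) * (⟨p, q⟩ : ℂ)‖ ≤ 5 / 2 := by
    intro p q h
    have h1 := Complex.norm_le_abs_re_add_abs_im (⟨p, q⟩ : ℂ)
    have h2 : |(p : ℝ)| + |(q : ℝ)| ≤ 25 * 10 ^ 29 := by exact_mod_cast h
    have h3 : ‖(DD : ℂ)‖ = 10 ^ 30 := by simp [DD]; norm_num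
    rw [norm_mul, norm_inv, h3, inv_mul_le_iff₀ (by positivity)]
    simp only at h1
    linarith
  fin_cases i <;> fin_cases a <;> fin_cases b <;> exact key _ _ (by decide +kernel)

theorem np_rl (u : ℂ) (hu : ‖u‖ = 1) (i : Fin 3) (a b : Fin 4) :
    |rl (u • M0 i) a b| ≤ 5 / 2 := by
  have h1 : ∀ p q, ‖(u • M0 i) p q‖ ≤ 5 / 2 := fun p q => by
    rw [Matrix.smul_apply, smul_eq_mul, norm_mul, hu, one_mul]
    exact np_M0 i p q
  generalize u • M0 i = M at h1
  have h2 : ∀ p q, |(M p q).re| ≤ 5 / 2 := fun p q => (Complex.abs_re_le_norm _).trans (h1 p q)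
  have h3 : ∀ p q, |(M p q).im| ≤ 5 / 2 := fun p q => (Complex.abs_im_le_norm _).trans (h1 p q)
  have h4 : ∀ p q, |-(M p q).im| ≤ 5 / 2 := fun p q => by rw [abs_neg]; exact h3 p q
  fin_cases a <;> fin_cases b <;> first | exact h2 _ _ | exact h3 _ _ | exact h4 _ _

/-- The entries of M0 i have absolute value at most 2.5 and eta ≤ 1/2. -/
theorem not_primStable_of_W {x : Fin 3 → G} (hx : x ∈ W) : ¬ PrimStable (FreeGroup.lift x) := by
  refine not_primStable _ fun k => ?_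
  obtain ⟨g, hg⟩ := hx (k : ℤ)
  refine ⟨g, fun i a b => ?_⟩
  obtain ⟨u, hu, h⟩ := hg i
  have h1 := h a b
  have h2 := np_rl u hu i a b
  have h3 : eta ≤ 1 / 2 := by unfold eta; norm_num
  rw [zpow_natCast] at h1
  have h4 := abs_sub_abs_le_abs_sub
    ((g * FreeGroup.lift x ((phi ^ k) (of i)) * g⁻¹ : G).1 a b) (rl (u • M0 i) a b)
  have h5 : |(g * FreeGroup.lift x ((phi ^ k) (of i)) * g⁻¹ : G).1 a b - rl (u • M0 i) a b| ≤
      eta := h1
  linarith

theorem np_cont (w : F) : Continuous fun x : Fin 3 → G => FreeGroup.lift x w := by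
  induction w using FreeGroup.induction_on with
  | C1 => simpa using continuous_const
  | of i => simpa using continuous_apply i
  | inv_of i ih => simp only [_root_.map_inv]; exact ih.inv
  | mul a b ha hb => simp only [_root_.map_mul]; exact ha.mul hb

theorem np_cont_rl (i : Fin 3) (a b : Fin 4) : Continuous fun u : ℂ => rl (u • M0 i) a b := by
  have h1 : ∀ p q, Continuous fun u : ℂ => ((u • M0 i) p q).re := fun p q => by
    simp only [Matrix.smul_apply, smul_eq_mul]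
    fun_prop
  have h2 : ∀ p q, Continuous fun u : ℂ => ((u • M0 i) p q).im := fun p q => by
    simp only [Matrix.smul_apply, smul_eq_mul]
    fun_prop
  have h3 : ∀ p q, Continuous fun u : ℂ => -((u • M0 i) p q).im := fun p q => (h2 p q).neg
  fin_cases a <;> fin_cases b <;> first | exact h1 _ _ | exact h2 _ _ | exact h3 _ _

/-- Conjugators with entries at most n and three unit complex numbers. -/
def np_K (n : ℕ) : Set (G × (Fin 3 → ℂ)) :=
  {g : G | ∀ a b, |g.1 a b| ≤ (n : ℝ)} ×ˢ Set.pi Set.univ fun _ => Metric.sphere (0 : ℂ) 1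

theorem np_K_compact (n : ℕ) : IsCompact (np_K n) := by
  refine IsCompact.prod ?_ (isCompact_univ_pi fun _ => isCompact_sphere _ _)
  have h : IsCompact (Set.pi Set.univ fun _ : Fin 4 => Set.pi Set.univ fun _ : Fin 4 =>
      Set.Icc (-(n : ℝ)) n) := isCompact_univ_pi fun _ => isCompact_univ_pi fun _ => isCompact_Icc
  have h2 := (Matrix.SpecialLinearGroup.isClosedEmbedding_val (n := Fin 4)
    (R := ℝ)).isCompact_preimage (K := Set.pi Set.univ fun _ : Fin 4 => Set.pi Set.univ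
      fun _ : Fin 4 => Set.Icc (-(n : ℝ)) n) h
  refine h2.of_isClosed_subset ?_ fun g hg a _ b _ => abs_le.mp (hg a b)
  simp only [Set.ofPred_forall]
  exact isClosed_iInter fun a => isClosed_iInter fun b =>
    isClosed_le (continuous_subtype_val.matrix_elem a b).abs continuous_const

theorem np_closed (w : Fin 3 → F) (n : ℕ) : IsClosed {x : Fin 3 → G | ∃ p ∈ np_K n, ∀ i a b,
    |(p.1 * FreeGroup.lift x (w i) * p.1⁻¹ : G).1 a b - rl (p.2 i • M0 i) a b| ≤ eta} := by
  have : CompactSpace (np_K n) := isCompact_iff_compactSpace.mp (np_K_compact n)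
  have h1 : IsClosed {q : (Fin 3 → G) × np_K n | ∀ i a b,
      |(q.2.1.1 * FreeGroup.lift q.1 (w i) * q.2.1.1⁻¹ : G).1 a b - rl (q.2.1.2 i • M0 i) a b| ≤
        eta} := by
    simp only [Set.ofPred_forall]
    refine isClosed_iInter fun i => isClosed_iInter fun a => isClosed_iInter fun b => ?_
    have c1 : Continuous fun q : (Fin 3 → G) × np_K n => q.2.1.1 := by fun_prop
    have c2 : Continuous fun q : (Fin 3 → G) × np_K n => q.2.1.2 i := by fun_prop
    have c3 : Continuous fun q : (Fin 3 → G) × np_K n =>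
        (q.2.1.1 * FreeGroup.lift q.1 (w i) * q.2.1.1⁻¹ : G) :=
      (c1.mul ((np_cont (w i)).comp continuous_fst)).mul c1.inv
    have c4 := (continuous_subtype_val.comp c3).matrix_elem a b
    exact isClosed_le (c4.sub ((np_cont_rl i a b).comp c2)).abs continuous_const
  convert isClosedMap_fst_of_compactSpace _ h1 using 1
  ext x
  constructor
  · rintro ⟨p, hp, h⟩
    exact ⟨(x, ⟨p, hp⟩), h, rfl⟩
  · rintro ⟨q, h, rfl⟩
    exact ⟨q.2.1, q.2.2, h⟩

/-- Plan. For fixed k the set is the union over n of the sets where g can be chosen with entries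
bounded by n; such a set is closed (projection along the compact factor
{g | entries ≤ n} × (unit circle)^3, or sequential compactness). G is second countable, so the
Borel sigma-algebra of the product is the product sigma-algebra. -/
theorem measurableSet_W [MeasurableSpace G] [BorelSpace G] : MeasurableSet W := by
  have : SecondCountableTopology (Matrix (Fin 4) (Fin 4) ℝ) :=
    inferInstanceAs (SecondCountableTopology (Fin 4 → Fin 4 → ℝ))
  have : SecondCountableTopology G :=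
    (Matrix.SpecialLinearGroup.isClosedEmbedding_val (n := Fin 4)
      (R := ℝ)).isEmbedding.secondCountableTopology
  have e : W = ⋂ k : ℤ, ⋃ n : ℕ, {x : Fin 3 → G | ∃ p ∈ np_K n, ∀ i a b,
      |(p.1 * FreeGroup.lift x ((phi ^ k) (of i)) * p.1⁻¹ : G).1 a b - rl (p.2 i • M0 i) a b| ≤
        eta} := by
    ext x
    simp only [W, Set.mem_ofPred_eq, Set.mem_iInter, Set.mem_iUnion]
    refine forall_congr' fun k => ⟨?_, ?_⟩
    · rintro ⟨g, hg⟩
      choose u hu using hg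
      obtain ⟨b, _, hb⟩ := np_ex g.1
      obtain ⟨n, hn⟩ := exists_nat_ge b
      exact ⟨n, (g, u), ⟨fun p q => (hb p q).trans hn, fun i _ => by simpa using (hu i).1⟩,
        fun i => (hu i).2⟩
    · rintro ⟨n, p, hp, h⟩
      exact ⟨p.1, fun i => ⟨p.2 i, by simpa using hp.2 i trivial, h i⟩⟩
  rw [e]
  exact MeasurableSet.iInter fun k => MeasurableSet.iUnion fun n =>
    (np_closed (fun i => (phi ^ k) (of i)) n).measurableSet

end Pool.Agent.MP_28624d_gt.L4

end
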