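import Mathlib

/-!
Definitions used in the statement: redundant and primitive stable representations of the free group
of rank three in SL(4,R), acting on its symmetric space of positive definite matrices of
determinant one.
-/

namespace Pool.Agent.MP_28624d_gt.L4

open Matrix

/-- The group SL(4,R). -/
abbrev G : Type := Matrix.SpecialLinearGroup (Fin 4) ℝ

/-- The free group of rank three with its fixed basis. -/
abbrev F : Type := FreeGroup (Fin 3)

/-- The symmetric space SL(4,R)/SO(4): positive definite symmetric matrices of determinant one. -/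
abbrev X : Type := {P : Matrix (Fin 4) (Fin 4) ℝ // P.PosDef ∧ P.det = 1}

/-- The action g.P = g P g^T. -/
def act (g : G) (P : X) : X :=
  ⟨g.1 * P.1 * g.1ᵀ, by
    have hu : IsUnit g.1 := (Matrix.isUnit_iff_isUnit_det _).2 (by rw [g.2]; exact isUnit_one)
    have h := (Matrix.IsUnit.posDef_star_right_conjugate_iff (x := P.1) hu).2 P.2.1
    refine ⟨by simpa [Matrix.star_eq_conjTranspose] using h, ?_⟩
    rw [Matrix.det_mul, Matrix.det_mul, Matrix.det_transpose, g.2, P.2.2]
    norm_num⟩

/-- The Riemannian distance: the square root of the sum of (log t)^2 over the eigenvalues t of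
P⁻¹ Q, with multiplicity. -/
noncomputable def dX (P Q : X) : ℝ :=
  Real.sqrt (((P.1⁻¹ * Q.1).charpoly.roots.map fun t => Real.log t ^ 2).sum)

/-- A is a free factor: F is the internal free product of A and some subgroup B. -/
def IsFreeFactor (A : Subgroup F) : Prop :=
  ∃ B : Subgroup F, Function.Bijective (Monoid.Coprod.lift A.subtype B.subtype)

/-- Some proper free factor has dense image. -/
def Redundant (ρ : F →* G) : Prop :=
  ∃ A : Subgroup F, IsFreeFactor A ∧ A ≠ ⊤ ∧ Dense (ρ '' (A : Set F))

/-- g belongs to some free basis S of the free group. -/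
def IsPrimitive (g : F) : Prop :=
  ∃ S : Set F, g ∈ S ∧ Function.Bijective (FreeGroup.lift (fun s : S => (s : F)))

/-- u lists the vertices of a bi-infinite geodesic line of the Cayley tree that g translates
along itself. -/
def IsAxis (g : F) (u : ℤ → F) : Prop :=
  (∀ j k : ℤ, FreeGroup.norm ((u j)⁻¹ * u k) = (j - k).natAbs) ∧
    ∃ m : ℤ, m ≠ 0 ∧ ∀ k : ℤ, g * u k = u (k + m)

/-- f passes through p k at time k and runs along the geodesic segment from p k to p (k+1)
at constant speed on the interval from k to k+1. -/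
def IsGeodExt (p : ℤ → X) (f : ℝ → X) : Prop :=
  (∀ k : ℤ, f k = p k) ∧
    ∀ (k : ℤ) (r s : ℝ), r ∈ Set.Icc (0 : ℝ) 1 → s ∈ Set.Icc (0 : ℝ) 1 →
      dX (f (k + r)) (f (k + s)) = |r - s| * dX (p k) (p (k + 1))

/-- f is a K-quasi-geodesic. -/
def IsQG (K : ℝ) (f : ℝ → X) : Prop :=
  ∀ s t : ℝ, |s - t| / K - K ≤ dX (f s) (f t) ∧ dX (f s) (f t) ≤ K * |s - t| + K

/-- Primitive stability: the piecewise geodesic extension of an orbit map sends the axes of all
primitive elements to K-quasi-geodesics, for one K. -/
def PrimStable (ρ : F →* G) : Prop :=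
  ∃ K : ℝ, 0 < K ∧ ∃ x : X, ∀ g : F, IsPrimitive g → ∀ u : ℤ → F, IsAxis g u →
    ∀ f : ℝ → X, IsGeodExt (fun k => act (ρ (u k)) x) f → IsQG K f

end Pool.Agent.MP_28624d_gt.L4
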